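import Pool.Agent.Work.MP_adbfe6_an.SK.Defs

/-!
# Hölder accessibility near one point
-/

set_option autoImplicit false

open Filter Topology MeasureTheory
open scoped ENNReal NNReal

namespace Pool.Agent.SKP

/-- `SuPath A g p L q`: there is an `su`-path from `p` to `q` of total length `L`: finitely many
legs, each in a strong stable or in a strong unstable leaf; the length of a leg is the norm of its
base displacement `v`. -/
inductive SuPath {d : ℕ} {N : Type} [MetricSpace N] (A : HypAut d) (g : Tor d → N ≃ₜ N)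
    (p : Tor d × N) : ℝ → Tor d × N → Prop
  | refl : SuPath A g p 0 p
  | stable {L : ℝ} {q : Tor d × N} (h : SuPath A g p L q) (v : Fin d → ℝ) (hv : v ∈ A.Es)
      (q' : Tor d × N) (h1 : q'.1 = q.1 + proj v)
      (h2 : ∃ c : ℝ, ∀ n : ℕ, dist ((skew A.M g)^[n] q) ((skew A.M g)^[n] q') ≤ c * A.a ^ n) :
      SuPath A g p (L + ‖v‖) q'
  | unstable {L : ℝ} {q : Tor d × N} (h : SuPath A g p L q) (v : Fin d → ℝ) (hv : v ∈ A.Eu)
      (q' : Tor d × N) (h1 : q'.1 = q.1 + proj v)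
      (h2 : ∃ c : ℝ, ∀ n : ℕ,
        dist ((skewInv A.Mi g)^[n] q) ((skewInv A.Mi g)^[n] q') ≤ c * A.b ^ n) :
      SuPath A g p (L + ‖v‖) q'

/-- **Approximate Hölder accessibility near one point** `p = (x₀, z₀)`, with exponent `η`: from
`(x₀, z)`, for `z, z'` close to `z₀`, an `su`-path of length at most `C dist(z, z')^η` leads to a
point of the fibre over `x₀` whose distance to `z'` is at most `c dist(z, z')`, for a fixed
`c < 1`. -/
def ApproxHolderAccessibleAt {d : ℕ} {N : Type} [MetricSpace N] (A : HypAut d)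
    (g : Tor d → N ≃ₜ N) (p : Tor d × N) (η : ℝ) : Prop :=
  ∃ r C c : ℝ, 0 < r ∧ c < 1 ∧ ∀ z z' : N, dist p.2 z ≤ r → dist p.2 z' ≤ r →
    ∃ (L : ℝ) (z₁ : N), L ≤ C * dist z z' ^ η ∧ dist z₁ z' ≤ c * dist z z' ∧
      SuPath A g (p.1, z) L (p.1, z₁)

/-- The fibre maps `g x z` are of class `C^{1,1}` in `(x, z)`, in a metric form: the second
differences are bounded by `K` times the product of the two increments. `N` is a group with a
bi-invariant metric, for example a torus or a compact Lie group. -/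
def SecondDiff {d : ℕ} {N : Type} [Group N] [MetricSpace N] (g : Tor d → N ≃ₜ N) (K : ℝ) : Prop :=
  ∀ (x x' : Tor d) (z z' w w' : N), w⁻¹ * w' = z⁻¹ * z' →
    dist ((g x z)⁻¹ * g x z') ((g x' w)⁻¹ * g x' w') ≤ K * (dist x x' + dist z w) * dist z z'

/-- The fibre over the fixed point `x₀` of the base is centre bunched: `g x₀` expands distances at
most by the factor `β` and contracts them at most by the factor `κ`, where `κ β a < 1` and
`κ β b < 1`; the base expands vectors at most at the rate `Λ^n`, its inverse at most at the rate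
`Λ'^n`, where `κ β^θ a Λ^τ ≤ 1` and `β κ^θ b Λ'^τ ≤ 1`. (If `g x₀` is an isometry, `κ = β = 1` is
possible; then, over a two dimensional torus, `τ = 1` is possible.) -/
structure LocFibre {d : ℕ} {N : Type} [MetricSpace N] (A : HypAut d) (g : Tor d → N ≃ₜ N)
    (x₀ : Tor d) (θ τ : ℝ) : Prop where
  nonneg : 0 ≤ τ
  fix : matAct A.M x₀ = x₀
  loc : ∃ κ β : ℝ, 1 ≤ κ ∧ 1 ≤ β ∧ (∀ z z' : N, dist (g x₀ z) (g x₀ z') ≤ β * dist z z') ∧
    (∀ z z' : N, dist z z' ≤ κ * dist (g x₀ z) (g x₀ z')) ∧ κ * β * A.a < 1 ∧ κ * β * A.b < 1 ∧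
    ∃ c Λ Λ' : ℝ, 1 < Λ ∧ 1 < Λ' ∧
      κ * β ^ θ * A.a * Λ ^ τ ≤ 1 ∧ β * κ ^ θ * A.b * Λ' ^ τ ≤ 1 ∧
      (∀ (n : ℕ) (v : Fin d → ℝ), ‖(matAct A.M)^[n] v‖ ≤ c * Λ ^ n * ‖v‖) ∧
      (∀ (n : ℕ) (v : Fin d → ℝ), ‖(matAct A.Mi)^[n] v‖ ≤ c * Λ' ^ n * ‖v‖)

end Pool.Agent.SKP
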