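import Pool.Agent.Work.MP_adbfe6_an.HA.St

/-!
Item sides: both sides of a skew product satisfy the hypotheses of the distortion estimate.
-/

set_option autoImplicit false
set_option linter.unusedSectionVars false

namespace Pool.Agent.SKP.HA

namespace Isides

variable {d : ℕ} {N : Type} [Group N] [MetricSpace N] [CompactSpace N] [IsIsometricSMul N N]
  [IsIsometricSMul Nᵐᵒᵖ N] {A : HypAut d} (D : Fibres A N)

theorem sGi (n : ℕ) (x : Tor d) : D.sideS.G n x = Gi (matAct A.M) D.g n x := by
  unfold Side.G; rfl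

theorem uGi (n : ℕ) (x : Tor d) : D.sideU.G n x = Gi (matAct A.Mi) D.gi n x := by
  unfold Side.G; rfl

theorem uG (n : ℕ) (x : Tor d) : D.sideU.G n x = (D.sideS.G n ((matAct A.Mi)^[n] x)).symm := by
  refine Homeomorph.ext (fun z => ?_)
  rw [eq_comm, Homeomorph.symm_apply_eq, sGi, ← D.Gi_inv, ← uGi, Homeomorph.symm_apply_apply]

theorem sd_max {K : ℝ} (hK : SecondDiff D.g K) : SecondDiff D.g (max K 0) := by
  intro x x' z z' w w' h
  refine (hK x x' z z' w w' h).trans ?_
  have h1 : 0 ≤ dist x x' + dist z w := add_nonneg dist_nonneg dist_nonneg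
  exact mul_le_mul_of_nonneg_right (mul_le_mul_of_nonneg_right (le_max_left _ _) h1) dist_nonneg

theorem hypS {K θ : ℝ} (hK0 : 0 ≤ K) (hK : SecondDiff D.g K) (h0 : 0 < θ) (h1 : θ ≤ 1)
    (hs : D.κs * D.κu ^ θ * A.a < 1) : SideHyp D.sideS D.Q D.κu K θ where
  q_nonneg := D.Q_nonneg
  β_nonneg := D.κu_nonneg
  K_nonneg := hK0
  θ_pos := h0
  θ_le := h1
  up := by
    intro n x z z'
    rw [sGi]
    have h := D.upper n x z z'
    rwa [D.iter_dist] at h
  sd := hK
  dom := hs

theorem hypU {K θ : ℝ} (hK0 : 0 ≤ K) (hK : SecondDiff D.g K) (h0 : 0 < θ) (h1 : θ ≤ 1)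
    (hu : D.κu * D.κs ^ θ * A.b < 1) : SideHyp D.sideU D.Q D.κs
      ((D.Q * D.κs) * K * (D.Q * D.κs) * (mNorm A.Mi + D.Q * D.κs + D.sideU.K)) θ where
  q_nonneg := D.Q_nonneg
  β_nonneg := D.κs_nonneg
  K_nonneg := by
    have a1 := D.Q_nonneg
    have a2 := D.κs_nonneg
    have a3 := mNorm_nonneg A.Mi
    have a4 := D.sideU.K_nonneg
    positivity
  θ_pos := h0
  θ_le := h1
  up := by
    intro n x z z'
    rw [uG, sGi]
    exact D.sideS.G_symm n ((matAct A.Mi)^[n] x) z z'
  sd := by
    intro x x' y y' t t' hty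
    have hQ := D.Q_nonneg
    have hκ := D.κs_nonneg
    have hm := mNorm_nonneg A.Mi
    have hKu := D.sideU.K_nonneg
    have hq : 0 ≤ D.Q * D.κs := mul_nonneg hQ hκ
    show dist (((D.g (matAct A.Mi x)).symm y)⁻¹ * (D.g (matAct A.Mi x)).symm y')
      (((D.g (matAct A.Mi x')).symm t)⁻¹ * (D.g (matAct A.Mi x')).symm t') ≤ _
    set x1 := matAct A.Mi x with hx1
    set x1' := matAct A.Mi x' with hx1'
    set z := (D.g x1).symm y with hz
    set z' := (D.g x1).symm y' with hz'
    set w := (D.g x1').symm t with hw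
    set w' := (D.g x1').symm t' with hw'
    have ez : D.g x1 z = y := Homeomorph.apply_symm_apply _ _
    have ez' : D.g x1 z' = y' := Homeomorph.apply_symm_apply _ _
    have ew : D.g x1' w = t := Homeomorph.apply_symm_apply _ _
    set wb := w * (z⁻¹ * z') with hwb
    have h1 := hK x1 x1' z z' w wb (by rw [hwb, inv_mul_cancel_left])
    rw [ez, ez', ew, ← hty, dist_mul_left] at h1
    have h2 : dist w' wb ≤ D.Q * D.κs * dist t' (D.g x1' wb) := by
      have := D.g_symm_lip x1' t' (D.g x1' wb)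
      rwa [Homeomorph.symm_apply_apply] at this
    have h3 : dist z z' ≤ D.Q * D.κs * dist y y' := D.g_symm_lip x1 y y'
    have e1 : dist (z⁻¹ * z') (w⁻¹ * w') = dist w' wb := by
      rw [hwb, ← dist_mul_left w, mul_inv_cancel_left, dist_comm]
    rw [e1]
    have h4 : dist x1 x1' ≤ mNorm A.Mi * dist x x' := by
      rw [dist_eq_norm, dist_eq_norm]
      have h5 : x1 - x1' = matAct A.Mi (x - x') := ((matHom A.Mi).map_sub x x').symm
      rw [h5]
      exact norm_matAct_le _ _
    have h6 : dist z w ≤ D.Q * D.κs * dist y t + D.sideU.K * dist x x' := by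
      calc dist z w ≤ dist z ((D.g x1).symm t) + dist ((D.g x1).symm t) w :=
            dist_triangle _ _ _
        _ ≤ D.Q * D.κs * dist y t + D.sideU.K * dist x x' := by
            refine add_le_add (D.g_symm_lip x1 y t) ?_
            have := D.sideU.g_base x x' t
            rw [← dist_eq_norm] at this
            exact this
    calc dist w' wb ≤ D.Q * D.κs * dist t' (D.g x1' wb) := h2
      _ ≤ D.Q * D.κs * (K * (dist x1 x1' + dist z w) * dist z z') :=
          mul_le_mul_of_nonneg_left h1 hq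
      _ ≤ D.Q * D.κs * (K * ((mNorm A.Mi + D.Q * D.κs + D.sideU.K) *
            (dist x x' + dist y t)) * (D.Q * D.κs * dist y y')) := by
          refine mul_le_mul_of_nonneg_left ?_ hq
          refine mul_le_mul ?_ h3 dist_nonneg (by positivity)
          refine mul_le_mul_of_nonneg_left ?_ hK0
          calc dist x1 x1' + dist z w
              ≤ mNorm A.Mi * dist x x' + (D.Q * D.κs * dist y t + D.sideU.K * dist x x') :=
                add_le_add h4 h6
            _ ≤ (mNorm A.Mi + D.Q * D.κs + D.sideU.K) * (dist x x' + dist y t) := by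
                have a1 := dist_nonneg (x := x) (y := x')
                have a2 := dist_nonneg (x := y) (y := t)
                nlinarith [mul_nonneg hm a2, mul_nonneg hq a1, mul_nonneg hKu a2]
      _ = _ := by ring
  dom := hu

theorem dist_mono {h : N → N} {K K' θ : ℝ} (hKK : K ≤ K') (H : Dist h K θ) : Dist h K' θ := by
  intro z z'
  exact (H z z').trans (mul_le_mul_of_nonneg_right hKK (Real.rpow_nonneg dist_nonneg _))

end Isides

open Isides

theorem i_sides (h : S.distort) : S.sides := by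
  intro d N _ _ _ _ _ A D K hK θ h0 h1 hs hu
  obtain ⟨C1, hC1, H1⟩ := h D.sideS D.Q D.κu (max K 0) θ
    (hypS D (le_max_right _ _) (sd_max D hK) h0 h1 hs)
  obtain ⟨C2, hC2, H2⟩ := h D.sideU D.Q D.κs _ θ
    (hypU D (le_max_right _ _) (sd_max D hK) h0 h1 hu)
  refine ⟨max C1 C2, hC1.trans (le_max_left _ _), fun v x => ?_, fun w x => ?_⟩
  · exact dist_mono (mul_le_mul_of_nonneg_right (le_max_left _ _) (norm_nonneg _)) (H1 v x)
  · exact dist_mono (mul_le_mul_of_nonneg_right (le_max_right _ _) (norm_nonneg _)) (H2 w x)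

end Pool.Agent.SKP.HA
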