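import Pool.Agent.Work.MP_adbfe6_an.HA.St3
import Pool.Agent.Work.MP_adbfe6_an.HA.I_sides

/-!
# Assembly: approximate Hölder accessibility, locally bunched fixed fibre
-/

set_option autoImplicit false

open Filter Topology MeasureTheory Metric
open scoped ENNReal NNReal

namespace Pool.Agent.SKP

namespace HA

theorem plen_nonneg {Ws Wu : Type} [NormedAddCommGroup Ws] [NormedAddCommGroup Wu]
    (l : List (Mv Ws Wu)) : 0 ≤ plen l := by
  unfold plen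
  apply List.sum_nonneg
  intro x hx
  obtain ⟨a, _, rfl⟩ := List.mem_map.1 hx
  cases a with
  | s v => exact norm_nonneg v
  | u w => exact norm_nonneg w
  | f => exact le_rfl

section

variable {d : ℕ} {N : Type} [Group N] [MetricSpace N] [CompactSpace N] [IsIsometricSMul N N]
  [IsIsometricSMul Nᵐᵒᵖ N]

/-- path distortion without any hypothesis on the fibre -/
theorem pd_zero (h_sides : S.sides) (h_path : S.path) (A : HypAut d) (D : Fibres A N) (K : ℝ)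
    (hK : SecondDiff D.g K) (θ : ℝ) (hθ0 : 0 < θ) (hθ1 : θ ≤ 1)
    (hs : D.κs * D.κu ^ θ * A.a < 1) (hu : D.κu * D.κs ^ θ * A.b < 1) (x₀ : Tor d) :
    ∃ C : ℝ, 0 ≤ C ∧ ∀ (l : List (Mv ↥A.Es ↥A.Eu)) (_ : ∀ a ∈ l, a.leaf) (L r : ℝ) (z y : N),
      plen l ≤ L → 0 < L → 0 ≤ r → dist z y ≤ r →
      C * L * (2 * r + L ^ (0 : ℝ) * (2 * r) ^ θ) ≤ r →
      |dist (D.two.hol l x₀ z) (D.two.hol l x₀ y) - dist z y| ≤
        C * L * (2 * r + L ^ (0 : ℝ) * (2 * r) ^ θ) := by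
  obtain ⟨C, hC, hCs, hCu⟩ := h_sides A D K hK θ hθ0 hθ1 hs hu
  refine ⟨C, hC, fun l hl L r z y h1 h2 h3 h4 h5 => ?_⟩
  have hp := plen_nonneg l
  have hr : 0 ≤ (2 * r) ^ θ := Real.rpow_nonneg (by linarith) θ
  have key : C * plen l * (2 * r) ^ θ ≤ C * L * (2 * r + L ^ (0 : ℝ) * (2 * r) ^ θ) := by
    rw [Real.rpow_zero, one_mul]
    refine mul_le_mul (mul_le_mul_of_nonneg_left h1 hC) (by linarith) hr (by positivity)
  exact ((h_path D.two C θ hC hθ0 hCs hCu l hl x₀).2 r z y h3 h4 (key.trans h5)).trans key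

/-- path distortion at a bunched fixed fibre -/
theorem pd_fib (h_fib : S.fib) (h_isopath : S.isopath) (A : HypAut d) (D : Fibres A N) (K : ℝ)
    (hK : SecondDiff D.g K) (θ : ℝ) (hθ0 : 0 < θ) (hθ1 : θ ≤ 1)
    (hs : D.κs * D.κu ^ θ * A.a < 1) (hu : D.κu * D.κs ^ θ * A.b < 1) (x₀ : Tor d) (τ : ℝ)
    (hI : LocFibre A D.g x₀ θ τ) :
    ∃ C : ℝ, 0 ≤ C ∧ ∀ (l : List (Mv ↥A.Es ↥A.Eu)) (_ : ∀ a ∈ l, a.leaf) (L r : ℝ) (z y : N),
      plen l ≤ L → 0 < L → 0 ≤ r → dist z y ≤ r →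
      C * L * (2 * r + L ^ τ * (2 * r) ^ θ) ≤ r →
      |dist (D.two.hol l x₀ z) (D.two.hol l x₀ y) - dist z y| ≤
        C * L * (2 * r + L ^ τ * (2 * r) ^ θ) := by
  obtain ⟨hτ, hfix, κ, β, hκ1, hβ1, hup, hlow, hba, hbb, c, Λ, Λ', hΛ, hΛ', haΛ, hbΛ, hg1, hg2⟩ := hI
  have hfix' : matAct A.Mi x₀ = x₀ := by
    have := A.MiM x₀
    rwa [hfix] at this
  obtain ⟨C₁, hC₁, H₁⟩ := h_fib D.two.s D.Q D.κu (max K 0) θ
    (Isides.hypS D (le_max_right _ _) (Isides.sd_max D hK) hθ0 hθ1 hs) x₀ hfix κ β hκ1 hβ1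
    hup hlow hba Λ τ hΛ hτ haΛ
  obtain ⟨C₂, hC₂, H₂⟩ := h_fib D.two.u D.Q D.κs _ θ
    (Isides.hypU D (le_max_right _ _) (Isides.sd_max D hK) hθ0 hθ1 hu) x₀ hfix' β κ hβ1 hκ1
    (by
      intro z z'
      show dist ((D.g (matAct A.Mi x₀)).symm z) ((D.g (matAct A.Mi x₀)).symm z') ≤ κ * dist z z'
      rw [hfix']
      have := hlow ((D.g x₀).symm z) ((D.g x₀).symm z')
      rwa [Homeomorph.apply_symm_apply, Homeomorph.apply_symm_apply] at this)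
    (by
      intro z z'
      show dist z z' ≤ β * dist ((D.g (matAct A.Mi x₀)).symm z) ((D.g (matAct A.Mi x₀)).symm z')
      rw [hfix']
      have := hup ((D.g x₀).symm z) ((D.g x₀).symm z')
      rwa [Homeomorph.apply_symm_apply, Homeomorph.apply_symm_apply] at this)
    (by rw [mul_comm β κ]; exact hbb) Λ' τ hΛ' hτ hbΛ
  have hmon : ∀ (C C' a b : ℝ), 0 ≤ C → C ≤ C' → 0 ≤ a → 0 ≤ b → C * a * b ≤ C' * a * b :=
    fun C C' a b _ h1 h2 h3 =>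
      mul_le_mul_of_nonneg_right (mul_le_mul_of_nonneg_right h1 h2) h3
  -- growth of the base vectors
  have hgrow : ∀ (M : Matrix (Fin d) (Fin d) ℤ) (Λ : ℝ), 1 < Λ →
      (∀ (n : ℕ) (v : Fin d → ℝ), ‖(matAct M)^[n] v‖ ≤ c * Λ ^ n * ‖v‖) →
      ∀ (n : ℕ) (v w : Fin d → ℝ), ‖(matAct M)^[n] (proj v + proj w)‖ ≤
        Λ ^ n * ((|c| + 1) * (‖v‖ + ‖w‖)) := by
    intro M Λ hΛ hg n v w
    have e1 : proj v + proj w = proj (v + w) := rfl
    have e2 : ∀ (n : ℕ) (v : Fin d → ℝ), (matAct M)^[n] (proj v) = proj ((matAct M)^[n] v) := by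
      intro n
      induction n with
      | zero => intro v; rfl
      | succ n ih =>
        intro v
        rw [Function.iterate_succ_apply', Function.iterate_succ_apply', ih, proj_matAct]
    rw [e1, e2]
    have hΛn : 0 ≤ Λ ^ n := pow_nonneg (by linarith) n
    calc ‖proj ((matAct M)^[n] (v + w))‖ ≤ ‖(matAct M)^[n] (v + w)‖ := norm_proj_le _
      _ ≤ c * Λ ^ n * ‖v + w‖ := hg n _
      _ ≤ (|c| + 1) * Λ ^ n * (‖v‖ + ‖w‖) := by
          refine mul_le_mul (mul_le_mul_of_nonneg_right ?_ hΛn) (norm_add_le _ _)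
            (norm_nonneg _) (by positivity)
          have := le_abs_self c
          linarith
      _ = _ := by ring
  obtain ⟨C', hC', H'⟩ := h_isopath D.two x₀ (max C₁ C₂) θ τ (|c| + 1) Λ Λ'
    (hC₁.trans (le_max_left _ _)) hθ0 hτ (by positivity) (by linarith) (by linarith)
    (fun n v w => hgrow A.M Λ hΛ hg1 n v.1 w.1)
    (fun n v w => hgrow A.Mi Λ' hΛ' hg2 n v.1 w.1)
    (fun v y L hL hv hy z z' => (H₁ v y L hL hv hy z z').trans
      (hmon _ _ _ _ hC₁ (le_max_left _ _) (norm_nonneg _)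
        (add_nonneg dist_nonneg (mul_nonneg (Real.rpow_nonneg hL.le _)
          (Real.rpow_nonneg dist_nonneg _)))))
    (fun w y L hL hv hy z z' => (H₂ w y L hL hv hy z z').trans
      (hmon _ _ _ _ hC₂ (le_max_right _ _) (norm_nonneg _)
        (add_nonneg dist_nonneg (mul_nonneg (Real.rpow_nonneg hL.le _)
          (Real.rpow_nonneg dist_nonneg _)))))
  exact ⟨C', hC', H'⟩

variable [MeasurableSpace N] [BorelSpace N]

/-- the loop invariant sets of the fibre over `p.1` are trivial in one ball around `p.2` -/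
theorem triv_of (h_tv : S.tv) (h_unim : S.unim) (h_loc : S.loc) (h_sides : S.sides)
    (h_path : S.path) (h_fib : S.fib) (h_isopath : S.isopath)
    (h_osce : S.osce) (h_iter : S.iter) (h_spath : S.spath) (ν : Measure N)
    [IsProbabilityMeasure ν] [ν.IsMulLeftInvariant] (hν : UnifDoubling ν)
    (A : HypAut d) (D : Fibres A N) (K : ℝ) (hK : SecondDiff D.g K) (θ η τ : ℝ)
    (hθ0 : 0 < θ) (hθ1 : θ ≤ 1) (hs : D.κs * D.κu ^ θ * A.a < 1)
    (hu : D.κu * D.κs ^ θ * A.b < 1) (p : Tor d × N) (hτ : τ = 0 ∨ LocFibre A D.g p.1 θ τ)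
    (hη : 0 < η) (hητ : 1 < (1 + τ) * η + θ)
    (hg : ∀ x, MeasurePreserving (D.g x) ν ν)
    (hp : ApproxHolderAccessibleAt A D.g p η) :
    ∃ ρ : ℝ, 0 < ρ ∧ ∀ X : Set N, MeasurableSet X →
      (∀ l : List (Mv ↥A.Es ↥A.Eu), (∀ a ∈ l, a.leaf) → D.two.brun l p.1 = p.1 →
        (D.two.hol l p.1) ⁻¹' X =ᵐ[ν] X) → ν (ball p.2 ρ ∩ X) = 0 ∨ ν (ball p.2 ρ \ X) = 0 := by
  obtain ⟨C₁, hT⟩ := h_tv ν hν
  have hop : ν.IsOpenPosMeasure := hν.openPos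
  have hun := fun z y : N => h_unim ν z y
  have hpd : 0 ≤ τ ∧ ∃ C : ℝ, 0 ≤ C ∧ ∀ (l : List (Mv ↥A.Es ↥A.Eu)) (_ : ∀ a ∈ l, a.leaf)
      (L r : ℝ) (z y : N), plen l ≤ L → 0 < L → 0 ≤ r → dist z y ≤ r →
      C * L * (2 * r + L ^ τ * (2 * r) ^ θ) ≤ r →
      |dist (D.two.hol l p.1 z) (D.two.hol l p.1 y) - dist z y| ≤
        C * L * (2 * r + L ^ τ * (2 * r) ^ θ) := by
    rcases hτ with rfl | hI
    · exact ⟨le_rfl, pd_zero h_sides h_path A D K hK θ hθ0 hθ1 hs hu p.1⟩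
    · exact ⟨hI.nonneg, pd_fib h_fib h_isopath A D K hK θ hθ0 hθ1 hs hu p.1 τ hI⟩
  obtain ⟨hτ0, C, hC, hd⟩ := hpd
  obtain ⟨C₃, hC₃, hCs, hCu⟩ := h_sides A D K hK θ hθ0 hθ1 hs hu
  obtain ⟨r, C₀, c, hr, hc, hacc'⟩ := hp
  have hloc : ∀ z z' : N, dist p.2 z ≤ r → dist p.2 z' ≤ r →
      ∃ l : List (Mv ↥A.Es ↥A.Eu), (∀ a ∈ l, a.leaf) ∧ D.two.brun l p.1 = p.1 ∧
        dist (D.two.hol l p.1 z) z' ≤ c * dist z z' ∧ plen l ≤ C₀ * dist z z' ^ η := by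
    intro z z' hz hz'
    obtain ⟨L, z₁, hL, hz₁, hpath⟩ := hacc' z z' hz hz'
    obtain ⟨l, hl, hrun, hlen⟩ := h_spath A D _ _ L hpath
    rw [D.two.run_eq] at hrun
    have e1 : D.two.brun l p.1 = p.1 := congrArg Prod.fst hrun
    have e2 : D.two.hol l p.1 z = z₁ := congrArg Prod.snd hrun
    exact ⟨l, hl, e1, by rw [e2]; exact hz₁, by rw [hlen]; exact hL⟩
  obtain ⟨r₀, C₄, hr₀, hit⟩ := h_iter D.two p.1 p.2 r C₀ c η hr hc hη hloc
  obtain ⟨s₁, C', β, hs₁, hC', hβ, hosc⟩ := h_osce ν D.two hg C₁ hT p.1 p.2 C θ η τ r₀ C₄ hC hθ0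
    hη hτ0 hητ hr₀ (fun l hl => (h_path D.two C₃ θ hC₃ hθ0 hCs hCu l hl p.1).1) hd hit
  obtain ⟨ρ, hρ, hρX⟩ := h_loc ν hν hun C₁ hT p.2 β C' s₁ hβ hC' hs₁
  exact ⟨ρ, hρ, fun X hX hX' => hρX X hX (hosc X hX hX')⟩

theorem main3_of (h_tv : S.tv) (h_unim : S.unim) (h_loc : S.loc) (h_sides : S.sides)
    (h_path : S.path) (h_fib : S.fib) (h_isopath : S.isopath)
    (h_osce : S.osce) (h_iter : S.iter) (h_opn : S.opn) (h_spath : S.spath) (ν : Measure N)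
    [IsProbabilityMeasure ν] [ν.IsMulLeftInvariant] (hν : UnifDoubling ν)
    (A : HypAut d) (D : Fibres A N) (K : ℝ) (hK : SecondDiff D.g K) (θ η τ : ℝ)
    (hθ0 : 0 < θ) (hθ1 : θ ≤ 1) (hs : D.κs * D.κu ^ θ * A.a < 1)
    (hu : D.κu * D.κs ^ θ * A.b < 1) (p : Tor d × N) (hτ : τ = 0 ∨ LocFibre A D.g p.1 θ τ)
    (hη : 0 < η) (hητ : 1 < (1 + τ) * η + θ)
    (hg : ∀ x, MeasurePreserving (D.g x) ν ν) (hacc : EssAccessible A D.g (volume.prod ν))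
    (hp : ApproxHolderAccessibleAt A D.g p η) :
    Ergodic (skew A.M D.g) (volume.prod ν) ∧ Mix (skew A.M D.g) (volume.prod ν) := by
  have hop : ν.IsOpenPosMeasure := hν.openPos
  obtain ⟨ρ, hρ, hρX⟩ := triv_of h_tv h_unim h_loc h_sides h_path h_fib h_isopath h_osce h_iter
    h_spath ν hν A D K hK θ η τ hθ0 hθ1 hs hu p hτ hη hητ hg hp
  have hU0 : ν (ball p.2 ρ) ≠ 0 := (measure_ball_pos ν p.2 hρ).ne'
  have hAmp : MeasurePreserving (matAct A.M : Tor d → Tor d) volume volume := matAct_mp A.mul_inv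
  have hmix : Mix (skew A.M D.g) (volume.prod ν) :=
    D.two.mix_of_fibre hg hAmp (Ls_surj D) p.1 (fun X hX hinv =>
      h_opn ν volume D.two hg (essAcc_of D hacc) p.1 (ball p.2 ρ) isOpen_ball hU0 hρX X hX hinv)
  exact ⟨ergodic_of_mix (D.two.s.F_mp hg hAmp) hmix, hmix⟩

end

end HA

end Pool.Agent.SKP
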