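import Pool.Agent.Work.MP_adbfe6_an.HA.St

/-!
# Comparison of tent averages by a measure preserving almost isometry
-/

set_option autoImplicit false

open Filter Topology MeasureTheory Metric
open scoped ENNReal NNReal

namespace Pool.Agent.SKP

namespace HA

namespace Icmp

lemma tent_lip (r a b : ℝ) : |tent r a - tent r b| ≤ |a - b| := by
  unfold tent
  rw [abs_le]
  rcases le_total (r - a) 0 with h1 | h1 <;> rcases le_total (r - b) 0 with h2 | h2
  · rw [max_eq_left h1, max_eq_left h2]
    constructor <;> linarith [abs_nonneg (a - b)]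
  · rw [max_eq_left h1, max_eq_right h2]
    constructor <;> linarith [le_abs_self (a - b), neg_abs_le (a - b)]
  · rw [max_eq_right h1, max_eq_left h2]
    constructor <;> linarith [le_abs_self (a - b), neg_abs_le (a - b)]
  · rw [max_eq_right h1, max_eq_right h2]
    constructor <;> linarith [le_abs_self (a - b), neg_abs_le (a - b)]

lemma tent_zero {r t : ℝ} (h : r ≤ t) : tent r t = 0 := by
  unfold tent
  exact max_eq_left (by linarith)

lemma tent_nonneg (r t : ℝ) : 0 ≤ tent r t := le_max_left _ _

lemma tent_le {r t : ℝ} (hr : 0 ≤ r) (ht : 0 ≤ t) : tent r t ≤ r := by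
  unfold tent
  exact max_le hr (by linarith)

end Icmp

open Icmp in
theorem i_cmp : S.cmp := by
  intro N _ _ _ _ ν _ C hC X hX R hR hRX z z' r ε hr hε h1 h2
  have hcont : ∀ w : N, Continuous (fun y => tent r (dist w y)) := by
    intro w
    unfold tent
    fun_prop
  have hmeas : ∀ w : N, Measurable (fun y => tent r (dist w y)) := fun w => (hcont w).measurable
  have hmR : Measurable (fun y => tent r (dist z' (R y))) := (hmeas z').comp hR.measurable
  have e1 : TI ν X r z' = ∫ y in X, tent r (dist z' (R y)) ∂ν := by
    unfold TI
    rw [← integral_indicator hX]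
    have e2 : ∫ y, X.indicator (fun y => tent r (dist z' y)) y ∂ν =
        ∫ y, X.indicator (fun y => tent r (dist z' y)) (R y) ∂ν := by
      conv_lhs => rw [← hR.map_eq]
      exact integral_map hR.measurable.aemeasurable
        ((hmeas z').indicator hX).aestronglyMeasurable
    rw [e2]
    have e3 : (fun y => X.indicator (fun y => tent r (dist z' y)) (R y)) =
        (R ⁻¹' X).indicator (fun y => tent r (dist z' (R y))) := by
      funext y
      simp only [Set.indicator]
      rfl
    rw [e3, integral_indicator (hR.measurable hX)]
    exact setIntegral_congr_set hRX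
  have hint : ∀ f : N → ℝ, Measurable f → (∀ y, 0 ≤ f y) → (∀ y, f y ≤ r) →
      Integrable f ν := by
    intro f hf h0 h3
    refine Integrable.of_bound hf.aestronglyMeasurable r (Eventually.of_forall fun y => ?_)
    rw [Real.norm_eq_abs, abs_of_nonneg (h0 y)]
    exact h3 y
  have i1 : Integrable (fun y => tent r (dist z' (R y))) ν :=
    hint _ hmR (fun y => tent_nonneg _ _) (fun y => tent_le hr.le dist_nonneg)
  have i2 : Integrable (fun y => tent r (dist z y)) ν :=
    hint _ (hmeas z) (fun y => tent_nonneg _ _) (fun y => tent_le hr.le dist_nonneg)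
  have e4 : TI ν X r z' - TI ν X r z =
      ∫ y, X.indicator (fun y => tent r (dist z' (R y)) - tent r (dist z y)) y ∂ν := by
    rw [e1, integral_indicator hX, integral_sub i1.integrableOn i2.integrableOn]
    rfl
  have e5 : |TI ν X r z' - TI ν X r z| ≤ ε * r * ν.real (closedBall z (2 * r)) := by
    rw [e4, ← Real.norm_eq_abs]
    have h5 : Integrable ((closedBall z (2 * r)).indicator (fun _ : N => ε * r)) ν :=
      (integrable_const _).indicator isClosed_closedBall.measurableSet
    refine (norm_integral_le_of_norm_le h5 (Eventually.of_forall fun y => ?_)).trans ?_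
    · rw [Real.norm_eq_abs]
      by_cases hyX : y ∈ X
      · rw [Set.indicator_of_mem hyX]
        by_cases hy : dist z y ≤ 2 * r
        · rw [Set.indicator_of_mem (by rw [mem_closedBall, dist_comm]; exact hy)]
          exact (tent_lip _ _ _).trans (h1 y hy)
        · have hy' : 2 * r < dist z y := not_le.1 hy
          rw [tent_zero (h2 y hy'), tent_zero (by linarith), sub_zero, abs_zero]
          exact Set.indicator_nonneg (fun _ _ => mul_nonneg hε hr.le) _
      · rw [Set.indicator_of_notMem hyX, abs_zero]
        exact Set.indicator_nonneg (fun _ _ => mul_nonneg hε hr.le) _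
    · rw [integral_indicator isClosed_closedBall.measurableSet, setIntegral_const, smul_eq_mul]
      exact le_of_eq (mul_comm _ _)
  have hTV := hC.pos r z hr
  have hle := hC.le r z hr
  unfold TM
  rw [hC.eq r z' z, ← sub_div, abs_div, abs_of_pos hTV, div_le_iff₀ hTV]
  calc |TI ν X r z' - TI ν X r z| ≤ ε * r * ν.real (closedBall z (2 * r)) := e5
    _ = ε * (r * ν.real (closedBall z (2 * r))) := by ring
    _ ≤ ε * (C * TV ν r z) := mul_le_mul_of_nonneg_left hle hε
    _ = C * ε * TV ν r z := by ring

end HA

end Pool.Agent.SKP
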