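import Pool.Agent.Work.MP_adbfe6_an.HA.St

/-! Lebesgue density in terms of tent averages. -/

set_option autoImplicit false
set_option linter.unusedSectionVars false
set_option linter.style.haveILetI false

open Filter Topology MeasureTheory Metric
open scoped ENNReal NNReal

namespace Pool.Agent.SKP.HA

namespace Idens

theorem tent_nonneg (r t : ℝ) : 0 ≤ tent r t := le_max_left _ _

theorem tent_le {r t : ℝ} (hr : 0 ≤ r) (ht : 0 ≤ t) : tent r t ≤ r := by
  unfold tent
  exact max_le hr (by linarith)

theorem tent_zero {r t : ℝ} (h : r < t) : tent r t = 0 := by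
  unfold tent
  exact max_eq_left (by linarith)

variable {N : Type} [MetricSpace N] [CompactSpace N] [MeasurableSpace N] [BorelSpace N]
  (ν : Measure N) [IsProbabilityMeasure ν]

theorem tent_int (r : ℝ) (hr : 0 ≤ r) (z : N) : Integrable (fun y => tent r (dist z y)) ν := by
  refine Integrable.mono' (integrable_const r) ?_ (Eventually.of_forall (fun y => ?_))
  · have hc : Continuous (fun y => tent r (dist z y)) := by
      unfold tent
      exact continuous_const.max (continuous_const.sub (continuous_const.dist continuous_id))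
    exact hc.aestronglyMeasurable
  · rw [Real.norm_eq_abs, abs_of_nonneg (tent_nonneg _ _)]
    exact tent_le hr dist_nonneg

theorem TI_nonneg (Y : Set N) (r : ℝ) (z : N) : 0 ≤ TI ν Y r z :=
  integral_nonneg (fun _ => tent_nonneg _ _)

theorem TI_le {Y : Set N} {r : ℝ} (hr : 0 ≤ r) (z : N) :
    TI ν Y r z ≤ r * ν.real (closedBall z r ∩ Y) := by
  unfold TI
  have h1 : ∫ y in Y, tent r (dist z y) ∂ν ≤
      ∫ y in Y, (closedBall z r).indicator (fun _ => r) y ∂ν := by
    refine integral_mono (tent_int ν r hr z).integrableOn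
      ((integrable_const r).indicator measurableSet_closedBall).integrableOn (fun y => ?_)
    by_cases hy : y ∈ closedBall z r
    · rw [Set.indicator_of_mem hy]
      exact tent_le hr dist_nonneg
    · rw [Set.indicator_of_notMem hy]
      rw [mem_closedBall, dist_comm, not_le] at hy
      exact (tent_zero hy).le
  refine h1.trans (le_of_eq ?_)
  rw [integral_indicator measurableSet_closedBall, Measure.restrict_restrict
    measurableSet_closedBall, setIntegral_const, smul_eq_mul, mul_comm]

theorem TI_add {Y : Set N} (hY : MeasurableSet Y) {r : ℝ} (hr : 0 ≤ r) (z : N) :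
    TI ν Y r z + TI ν Yᶜ r z = TV ν r z :=
  integral_add_compl hY (tent_int ν r hr z)

theorem ball_pos {C : ℝ} (hC : TOK ν C) {r : ℝ} (hr : 0 < r) (z : N) :
    0 < ν.real (closedBall z r) := by
  have h1 := hC.pos r z hr
  have h2 := TI_le ν (Y := Set.univ) hr.le z
  have h3 : TI ν Set.univ r z = TV ν r z := by
    unfold TI TV
    rw [Measure.restrict_univ]
  rw [h3, Set.inter_univ] at h2
  by_contra h
  push Not at h
  have : r * ν.real (closedBall z r) ≤ 0 := mul_nonpos_of_nonneg_of_nonpos hr.le h
  linarith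

theorem TM_le {C : ℝ} (hC : TOK ν C) {Y : Set N} {r : ℝ} (hr : 0 < r)
    (z : N) : TM ν Y r z ≤ C * (ν.real (closedBall z r ∩ Y) / ν.real (closedBall z r)) := by
  have hb := ball_pos ν hC hr z
  have h1 := hC.pos r z hr
  have h2 := TI_le ν (Y := Y) hr.le z
  have h3 : r * ν.real (closedBall z r) ≤ C * TV ν r z := by
    refine le_trans ?_ (hC.le r z hr)
    refine mul_le_mul_of_nonneg_left ?_ hr.le
    exact ENNReal.toReal_mono (measure_ne_top _ _)
      (measure_mono (closedBall_subset_closedBall (by linarith)))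
  unfold TM
  rw [div_le_iff₀ h1]
  have h4 : 0 ≤ ν.real (closedBall z r ∩ Y) / ν.real (closedBall z r) := by positivity
  calc TI ν Y r z ≤ r * ν.real (closedBall z r ∩ Y) := h2
    _ = (ν.real (closedBall z r ∩ Y) / ν.real (closedBall z r)) *
        (r * ν.real (closedBall z r)) := by
        field_simp
    _ ≤ (ν.real (closedBall z r ∩ Y) / ν.real (closedBall z r)) * (C * TV ν r z) :=
        mul_le_mul_of_nonneg_left h3 h4
    _ = _ := by ring

theorem tendsto_rad {r : ℝ} (hr : 0 < r) :
    Tendsto (fun k : ℕ => r * (1 / 2 : ℝ) ^ k) atTop (𝓝[>] 0) := by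
  rw [tendsto_nhdsWithin_iff]
  constructor
  · have := (tendsto_pow_atTop_nhds_zero_of_lt_one (r := (1 / 2 : ℝ)) (by norm_num)
      (by norm_num)).const_mul r
    rwa [mul_zero] at this
  · exact Eventually.of_forall (fun n => by
      show (0 : ℝ) < r * (1 / 2 : ℝ) ^ n
      positivity)

theorem dens_aux (hν : UnifDoubling ν) {Y : Set N} (hY : MeasurableSet Y) {r : ℝ} (hr : 0 < r) :
    ∀ᵐ z ∂ν, Tendsto (fun k : ℕ => ν.real (closedBall z (r * (1 / 2) ^ k) ∩ Y) /
      ν.real (closedBall z (r * (1 / 2) ^ k))) atTop (𝓝 (Y.indicator (fun _ => (1 : ℝ)) z)) := by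
  haveI := hν.inst
  have hf : Integrable (Y.indicator (fun _ => (1 : ℝ))) ν := (integrable_const (1 : ℝ)).indicator hY
  have h := IsUnifLocDoublingMeasure.ae_tendsto_average (μ := ν) hf.locallyIntegrable 1
  filter_upwards [h] with q hq
  have h2 := hq (fun _ => q) (fun k : ℕ => r * (1 / 2 : ℝ) ^ k) (tendsto_rad hr)
    (Eventually.of_forall (fun n => by
      rw [mem_closedBall, dist_self]; positivity))
  refine h2.congr (fun n => ?_)
  rw [setAverage_eq, integral_indicator hY, Measure.restrict_restrict hY]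
  rw [setIntegral_const, smul_eq_mul, smul_eq_mul, mul_one, Set.inter_comm, inv_mul_eq_div]

theorem tend_zero (hν : UnifDoubling ν) {C : ℝ} (hC : TOK ν C) {Y : Set N} (hY : MeasurableSet Y)
    {r : ℝ} (hr : 0 < r) : ∀ᵐ z ∂ν, z ∉ Y →
      Tendsto (fun k : ℕ => TM ν Y (r * (1 / 2) ^ k) z) atTop (𝓝 0) := by
  filter_upwards [dens_aux ν hν hY hr] with z hz hzY
  rw [Set.indicator_of_notMem hzY] at hz
  have h1 := hz.const_mul C
  rw [mul_zero] at h1
  refine squeeze_zero (fun k => ?_) (fun k => TM_le ν hC (by positivity) z) h1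
  have h2 := hC.pos (r * (1 / 2) ^ k) z (by positivity)
  exact div_nonneg (TI_nonneg ν Y _ z) h2.le

end Idens

open Idens in
theorem i_dens : S.dens := by
  intro N _ _ _ _ ν _ hν C hC X hX r hr
  refine ⟨?_, tend_zero ν hν hC hX hr⟩
  filter_upwards [tend_zero ν hν hC hX.compl hr] with z hz hzX
  have h1 := (hz (fun h => h hzX)).const_sub 1
  rw [sub_zero] at h1
  refine h1.congr (fun k => ?_)
  have hpos : 0 < r * (1 / 2 : ℝ) ^ k := by positivity
  have h2 := hC.pos _ z hpos
  have h3 := TI_add ν hX hpos.le z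
  unfold TM
  rw [← h3] at h2 ⊢
  field_simp
  ring

end Pool.Agent.SKP.HA
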