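import Pool.Agent.Work.MP_adbfe6_an.HA.St

/-!
# Distortion of the holonomies
-/

set_option autoImplicit false
set_option linter.unusedSectionVars false
set_option linter.style.haveILetI false

open Filter Topology MeasureTheory Metric
open scoped ENNReal NNReal

namespace Pool.Agent.SKP.HA

namespace Idistort

/-- the constant of the leaves -/
noncomputable def c0 {B W N : Type} [NormedAddCommGroup B] [CompactSpace B]
    [NormedAddCommGroup W] [MetricSpace N] [CompactSpace N] (D : Side B W N) : ℝ :=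
  (1 + D.Q * D.k1 * D.K * |D.C| / (1 - D.r)) * |D.C|

theorem c0_nonneg {B W N : Type} [NormedAddCommGroup B] [CompactSpace B]
    [NormedAddCommGroup W] [MetricSpace N] [CompactSpace N] (D : Side B W N) : 0 ≤ c0 D := by
  have hr : 0 < 1 - D.r := by have := D.dom; unfold Side.r; linarith
  have h0 : 0 ≤ D.Q * D.k1 * D.K :=
    mul_nonneg (mul_nonneg D.Q_nonneg D.k1_nonneg) D.K_nonneg
  unfold c0
  positivity

theorem dist_iter {B W N : Type} [NormedAddCommGroup B] [CompactSpace B]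
    [NormedAddCommGroup W] [MetricSpace N] [CompactSpace N] (D : Side B W N) (v : W) (x : B)
    (z : N) (n : ℕ) :
    dist (D.A^[n] x) (D.A^[n] (x + D.j v)) ≤ c0 D * ‖v‖ * D.μ ^ n ∧
    dist (D.G n x z) (D.G n (x + D.j v) (D.S v x z)) ≤ c0 D * ‖v‖ * D.μ ^ n := by
  have hr : 0 < 1 - D.r := by have := D.dom; unfold Side.r; linarith
  have h0 : 0 ≤ D.Q * D.k1 * D.K :=
    mul_nonneg (mul_nonneg D.Q_nonneg D.k1_nonneg) D.K_nonneg
  have h4 : 0 ≤ 1 + D.Q * D.k1 * D.K * |D.C| / (1 - D.r) := by positivity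
  have key : dist (D.F^[n] (x, z)) (D.F^[n] (D.T v (x, z))) ≤ c0 D * ‖v‖ * D.μ ^ n := by
    rw [D.F_iter_T]
    refine (D.dist_T _ _).trans ?_
    calc (1 + D.Q * D.k1 * D.K * |D.C| / (1 - D.r)) * ‖D.L^[n] v‖
        ≤ (1 + D.Q * D.k1 * D.K * |D.C| / (1 - D.r)) * (|D.C| * D.μ ^ n * ‖v‖) := by
          apply mul_le_mul_of_nonneg_left _ h4
          refine (D.contr n v).trans ?_
          apply mul_le_mul_of_nonneg_right _ (norm_nonneg _)
          exact mul_le_mul_of_nonneg_right (le_abs_self _) (pow_nonneg D.μ_nonneg n)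
      _ = _ := by unfold c0; ring
  have e : D.T v (x, z) = (x + D.j v, D.S v x z) := rfl
  rw [e, D.F_iter, D.F_iter] at key
  exact ⟨(le_max_left _ _).trans key, (le_max_right _ _).trans key⟩

/-- interpolation with the diameter -/
theorem interp {a b Δ θ : ℝ} (ha : 0 ≤ a) (hab : a ≤ b) (haΔ : a ≤ Δ) (h0 : 0 < θ)
    (h1 : θ ≤ 1) : a ≤ Δ ^ (1 - θ) * b ^ θ := by
  rcases ha.eq_or_lt with h | h
  · rw [← h]
    exact mul_nonneg (Real.rpow_nonneg (ha.trans haΔ) _) (Real.rpow_nonneg (ha.trans hab) _)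
  · calc a = a ^ (1 - θ) * a ^ θ := by
          rw [← Real.rpow_add h, sub_add_cancel, Real.rpow_one]
      _ ≤ Δ ^ (1 - θ) * b ^ θ :=
          mul_le_mul (Real.rpow_le_rpow ha haΔ (by linarith)) (Real.rpow_le_rpow ha hab h0.le)
            (Real.rpow_nonneg ha _) (Real.rpow_nonneg (ha.trans haΔ) _)

end Idistort

open Idistort in
theorem i_distort : S.distort := by
  intro B W N _ _ _ _ _ _ _ _ D q β K θ H
  set Δ : ℝ := Metric.diam (Set.univ : Set N) with hΔ
  have hdiam : ∀ a b : N, dist a b ≤ Δ := fun a b =>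
    Metric.dist_le_diam_of_mem isCompact_univ.isBounded (Set.mem_univ a) (Set.mem_univ b)
  have hΔ0 : 0 ≤ Δ := Metric.diam_nonneg
  have hq := H.q_nonneg
  have hβ := H.β_nonneg
  have hK := H.K_nonneg
  have hθ := H.θ_pos
  have hθ1 := H.θ_le
  have hμ := D.μ_nonneg
  have hκ := D.κ_nonneg
  have hQ := D.Q_nonneg
  have hk1 := D.k1_nonneg
  have hc0 := c0_nonneg D
  set ρ : ℝ := D.κ * β ^ θ * D.μ with hρ
  have hρ1 : ρ < 1 := H.dom
  have hβθ : 0 ≤ β ^ θ := Real.rpow_nonneg hβ θ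
  have hqθ : 0 ≤ q ^ θ := Real.rpow_nonneg hq θ
  have hΔθ : 0 ≤ Δ ^ (1 - θ) := Real.rpow_nonneg hΔ0 _
  set c1 : ℝ := 2 * D.Q * D.k1 * K * c0 D * Δ ^ (1 - θ) * q ^ θ with hc1
  have hc1' : 0 ≤ c1 := by positivity
  have h1ρ : 0 < 1 - ρ := by linarith
  refine ⟨c1 / (1 - ρ), div_nonneg hc1' h1ρ.le, fun v x z z' => ?_⟩
  -- notation
  set d : ℝ := dist z z' with hd
  have hd0 : 0 ≤ d := dist_nonneg
  set x' := x + D.j v with hx'
  set h := D.S v x with hh
  set zn : ℕ → N := fun n => D.G n x z with hzn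
  set zn' : ℕ → N := fun n => D.G n x z' with hzn'
  set wn : ℕ → N := fun n => D.G n x' (h z) with hwn
  set un : ℕ → N := fun n => (zn n)⁻¹ * zn' n with hun
  set yn : ℕ → N := fun n => wn n * un n with hyn
  set P : ℕ → N := fun n => (D.G n x').symm (yn n) with hP
  have hGP : ∀ n, D.G n x' (P n) = yn n := fun n => Homeomorph.apply_symm_apply _ _
  have hzz : ∀ n, dist (zn n) (zn' n) ≤ Δ ^ (1 - θ) * (q ^ θ * (β ^ θ) ^ n * d ^ θ) := by
    intro n
    refine (interp dist_nonneg (H.up n x z z') (hdiam _ _) hθ hθ1).trans (le_of_eq ?_)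
    rw [Real.mul_rpow (by positivity) hd0, Real.mul_rpow hq (by positivity),
      ← Real.rpow_natCast_mul hβ, mul_comm (n : ℝ) θ, Real.rpow_mul_natCast hβ]
  -- (b)
  have hb : ∀ n, dist (P n) (P (n + 1)) ≤ (c1 * ‖v‖ * d ^ θ) * ρ ^ n := by
    intro n
    have hP1 : P (n + 1) = (D.G n x').symm ((D.g (D.A^[n] x')).symm (yn (n + 1))) :=
      D.G_symm_succ n x' (yn (n + 1))
    have h1 : dist (P n) (P (n + 1))
        ≤ D.Q * D.κ ^ n * dist (yn n) ((D.g (D.A^[n] x')).symm (yn (n + 1))) := by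
      rw [hP1]
      exact D.G_symm_lip n x' _ _
    have h2 : dist (yn n) ((D.g (D.A^[n] x')).symm (yn (n + 1)))
        ≤ D.k1 * dist (D.g (D.A^[n] x') (yn n)) (yn (n + 1)) := by
      have := D.g_symm (D.A^[n] x') (D.g (D.A^[n] x') (yn n)) (yn (n + 1))
      rwa [Homeomorph.symm_apply_apply] at this
    have h3 := H.sd (D.A^[n] x) (D.A^[n] x') (zn n) (zn' n) (wn n) (yn n)
      (by simp only [hyn, hun, inv_mul_cancel_left])
    have e1 : D.g (D.A^[n] x) (zn n) = zn (n + 1) := by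
      simp only [hzn, D.G_succ]
    have e2 : D.g (D.A^[n] x) (zn' n) = zn' (n + 1) := by
      simp only [hzn', D.G_succ]
    have e3 : D.g (D.A^[n] x') (wn n) = wn (n + 1) := by
      simp only [hwn, D.G_succ]
    rw [e1, e2, e3] at h3
    have h5 := (dist_iter D v x z n).1
    have h6 := (dist_iter D v x z n).2
    have h4 : dist (D.g (D.A^[n] x') (yn n)) (yn (n + 1))
        ≤ K * (2 * (c0 D * ‖v‖ * D.μ ^ n)) *
          (Δ ^ (1 - θ) * (q ^ θ * (β ^ θ) ^ n * d ^ θ)) := by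
      have e4 : dist (D.g (D.A^[n] x') (yn n)) (yn (n + 1))
          = dist (un (n + 1)) ((wn (n + 1))⁻¹ * D.g (D.A^[n] x') (yn n)) := by
        have e5 : yn (n + 1) = wn (n + 1) * un (n + 1) := rfl
        rw [e5, dist_comm, ← dist_mul_left ((wn (n + 1))⁻¹) (wn (n + 1) * un (n + 1)),
          inv_mul_cancel_left]
      rw [e4]
      refine h3.trans ?_
      refine mul_le_mul ?_ (hzz n) dist_nonneg (by positivity)
      refine mul_le_mul_of_nonneg_left ?_ hK
      calc dist (D.A^[n] x) (D.A^[n] x') + dist (zn n) (wn n)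
          ≤ c0 D * ‖v‖ * D.μ ^ n + c0 D * ‖v‖ * D.μ ^ n := add_le_add h5 h6
        _ = _ := by ring
    calc dist (P n) (P (n + 1))
        ≤ D.Q * D.κ ^ n * dist (yn n) ((D.g (D.A^[n] x')).symm (yn (n + 1))) := h1
      _ ≤ D.Q * D.κ ^ n * (D.k1 * dist (D.g (D.A^[n] x') (yn n)) (yn (n + 1))) :=
          mul_le_mul_of_nonneg_left h2 (by positivity)
      _ ≤ D.Q * D.κ ^ n * (D.k1 * (K * (2 * (c0 D * ‖v‖ * D.μ ^ n)) *
            (Δ ^ (1 - θ) * (q ^ θ * (β ^ θ) ^ n * d ^ θ)))) :=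
          mul_le_mul_of_nonneg_left (mul_le_mul_of_nonneg_left h4 hk1) (by positivity)
      _ = _ := by
          rw [hc1, hρ, mul_pow, mul_pow]; ring
  -- (c)
  have hlim : Tendsto P atTop (𝓝 (h z')) := by
    rw [tendsto_iff_dist_tendsto_zero]
    have h0 : Tendsto (fun n : ℕ => (D.Q * (2 * (c0 D * ‖v‖))) * (D.κ * D.μ) ^ n) atTop
        (𝓝 0) := by
      have := (tendsto_pow_atTop_nhds_zero_of_lt_one (mul_nonneg hκ hμ) D.dom).const_mul
        (D.Q * (2 * (c0 D * ‖v‖)))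
      simpa using this
    refine squeeze_zero (fun n => dist_nonneg) (fun n => ?_) h0
    have h1 : dist (P n) (h z') ≤ D.Q * D.κ ^ n * dist (yn n) (D.G n x' (h z')) := by
      have := D.G_symm_lip n x' (yn n) (D.G n x' (h z'))
      rwa [Homeomorph.symm_apply_apply] at this
    have h2 : dist (yn n) (D.G n x' (h z')) ≤ 2 * (c0 D * ‖v‖ * D.μ ^ n) := by
      have h3 : dist (yn n) (zn' n) ≤ c0 D * ‖v‖ * D.μ ^ n := by
        have e : yn n = wn n * (zn n)⁻¹ * zn' n := by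
          simp only [hyn, hun, mul_assoc]
        have e' : zn' n = zn n * (zn n)⁻¹ * zn' n := by simp
        rw [e]
        nth_rewrite 2 [e']
        rw [dist_mul_right, dist_mul_right, dist_comm]
        exact (dist_iter D v x z n).2
      have h4 : dist (zn' n) (D.G n x' (h z')) ≤ c0 D * ‖v‖ * D.μ ^ n :=
        (dist_iter D v x z' n).2
      calc _ ≤ _ := dist_triangle _ (zn' n) _
        _ ≤ c0 D * ‖v‖ * D.μ ^ n + c0 D * ‖v‖ * D.μ ^ n := add_le_add h3 h4
        _ = _ := by ring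
    calc dist (P n) (h z') ≤ D.Q * D.κ ^ n * dist (yn n) (D.G n x' (h z')) := h1
      _ ≤ D.Q * D.κ ^ n * (2 * (c0 D * ‖v‖ * D.μ ^ n)) :=
          mul_le_mul_of_nonneg_left h2 (by positivity)
      _ = _ := by rw [mul_pow]; ring
  have hfin : dist (P 0) (h z') ≤ (c1 * ‖v‖ * d ^ θ) / (1 - ρ) :=
    dist_le_of_le_geometric_of_tendsto₀ ρ _ hρ1 hb hlim
  have hP0 : P 0 = h z * (z⁻¹ * z') := by
    have e1 : P 0 = yn 0 := by
      have := hGP 0
      rwa [D.G_zero] at this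
    rw [e1]
    simp only [hyn, hwn, hun, hzn, hzn', D.G_zero]
  have e : dist ((h z)⁻¹ * h z') (z⁻¹ * z') = dist (P 0) (h z') := by
    rw [hP0, ← dist_mul_left (h z) ((h z)⁻¹ * h z'), mul_inv_cancel_left, dist_comm]
  rw [e]
  refine hfin.trans (le_of_eq ?_)
  ring

end Pool.Agent.SKP.HA
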