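import Pool.Agent.Work.MP_adbfe6_an.HA.St2

/-!
# Distortion of short holonomies near an isometric fixed fibre
-/

set_option autoImplicit false
set_option linter.unusedSectionVars false
set_option linter.style.haveILetI false

open Filter Topology MeasureTheory Metric
open scoped ENNReal NNReal

namespace Pool.Agent.SKP.HA

namespace Iiso

/-- the constant of the leaves -/
noncomputable def c0 {B W N : Type} [NormedAddCommGroup B] [CompactSpace B]
    [NormedAddCommGroup W] [MetricSpace N] [CompactSpace N] (D : Side B W N) : ℝ :=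
  (1 + D.Q * D.k1 * D.K * |D.C| / (1 - D.r)) * |D.C|

theorem c0_nonneg {B W N : Type} [NormedAddCommGroup B] [CompactSpace B]
    [NormedAddCommGroup W] [MetricSpace N] [CompactSpace N] (D : Side B W N) : 0 ≤ c0 D := by
  have hr : 0 < 1 - D.r := by have := D.dom; unfold Side.r; linarith
  have h0 : 0 ≤ D.Q * D.k1 * D.K :=
    mul_nonneg (mul_nonneg D.Q_nonneg D.k1_nonneg) D.K_nonneg
  unfold c0
  positivity

theorem dist_iter {B W N : Type} [NormedAddCommGroup B] [CompactSpace B]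
    [NormedAddCommGroup W] [MetricSpace N] [CompactSpace N] (D : Side B W N) (v : W) (x : B)
    (z : N) (n : ℕ) :
    dist (D.A^[n] x) (D.A^[n] (x + D.j v)) ≤ c0 D * ‖v‖ * D.μ ^ n ∧
    dist (D.G n x z) (D.G n (x + D.j v) (D.S v x z)) ≤ c0 D * ‖v‖ * D.μ ^ n := by
  have hr : 0 < 1 - D.r := by have := D.dom; unfold Side.r; linarith
  have h0 : 0 ≤ D.Q * D.k1 * D.K :=
    mul_nonneg (mul_nonneg D.Q_nonneg D.k1_nonneg) D.K_nonneg
  have h4 : 0 ≤ 1 + D.Q * D.k1 * D.K * |D.C| / (1 - D.r) := by positivity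
  have key : dist (D.F^[n] (x, z)) (D.F^[n] (D.T v (x, z))) ≤ c0 D * ‖v‖ * D.μ ^ n := by
    rw [D.F_iter_T]
    refine (D.dist_T _ _).trans ?_
    calc (1 + D.Q * D.k1 * D.K * |D.C| / (1 - D.r)) * ‖D.L^[n] v‖
        ≤ (1 + D.Q * D.k1 * D.K * |D.C| / (1 - D.r)) * (|D.C| * D.μ ^ n * ‖v‖) := by
          apply mul_le_mul_of_nonneg_left _ h4
          refine (D.contr n v).trans ?_
          apply mul_le_mul_of_nonneg_right _ (norm_nonneg _)
          exact mul_le_mul_of_nonneg_right (le_abs_self _) (pow_nonneg D.μ_nonneg n)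
      _ = _ := by unfold c0; ring
  have e : D.T v (x, z) = (x + D.j v, D.S v x z) := rfl
  rw [e, D.F_iter, D.F_iter] at key
  exact ⟨(le_max_left _ _).trans key, (le_max_right _ _).trans key⟩

/-- interpolation with the diameter -/
theorem interp {a b Δ θ : ℝ} (ha : 0 ≤ a) (hab : a ≤ b) (haΔ : a ≤ Δ) (h0 : 0 < θ)
    (h1 : θ ≤ 1) : a ≤ Δ ^ (1 - θ) * b ^ θ := by
  rcases ha.eq_or_lt with h | h
  · rw [← h]
    exact mul_nonneg (Real.rpow_nonneg (ha.trans haΔ) _) (Real.rpow_nonneg (ha.trans hab) _)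
  · calc a = a ^ (1 - θ) * a ^ θ := by
          rw [← Real.rpow_add h, sub_add_cancel, Real.rpow_one]
      _ ≤ Δ ^ (1 - θ) * b ^ θ :=
          mul_le_mul (Real.rpow_le_rpow ha haΔ (by linarith)) (Real.rpow_le_rpow ha hab h0.le)
            (Real.rpow_nonneg ha _) (Real.rpow_nonneg (ha.trans haΔ) _)

section

variable {B W N : Type} [NormedAddCommGroup B] [CompactSpace B] [NormedAddCommGroup W]
  [Group N] [MetricSpace N] [CompactSpace N] [IsIsometricSMul N N] [IsIsometricSMul Nᵐᵒᵖ N]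
  (D : Side B W N)

theorem G_add (m k : ℕ) (x : B) (z : N) :
    D.G (m + k) x z = D.G k (D.A^[m] x) (D.G m x z) := by
  induction k with
  | zero => rw [add_zero, D.G_zero]
  | succ k ih =>
    rw [← add_assoc, D.G_succ, ih, D.G_succ, ← Function.iterate_add_apply, add_comm k m]

theorem A_iter_fix {x₀ : B} (hx₀ : D.A x₀ = x₀) (n : ℕ) (y : B) :
    D.A^[n] (x₀ + y) = x₀ + D.A^[n] y := by
  rw [D.A_iter_add]
  congr 1
  induction n with
  | zero => rfl
  | succ n ih => rw [Function.iterate_succ_apply, hx₀, ih]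

theorem near {q β K θ : ℝ} (H : SideHyp D q β K θ) {x₀ : B}
    (hiso : ∀ z z' : N, dist (D.g x₀ z) (D.g x₀ z') = dist z z') (e : B) (z z' : N) :
    |dist (D.g (x₀ + e) z) (D.g (x₀ + e) z') - dist z z'| ≤ K * ‖e‖ * dist z z' := by
  have h := H.sd (x₀ + e) x₀ z z' z z' rfl
  rw [dist_self_add_left, dist_self, add_zero] at h
  have e1 : ∀ a b : N, dist a b = dist (a⁻¹ * b) 1 := by
    intro a b
    rw [← dist_mul_left a⁻¹ a b, inv_mul_cancel, dist_comm]
  rw [← hiso z z', e1 (D.g (x₀ + e) z), e1 (D.g x₀ z)]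
  refine (abs_dist_sub_le _ _ _).trans (h.trans (le_of_eq ?_))
  rw [← e1 (D.g x₀ z), hiso]

theorem upper {q β K θ : ℝ} (H : SideHyp D q β K θ) {x₀ : B} (hx₀ : D.A x₀ = x₀)
    (hiso : ∀ z z' : N, dist (D.g x₀ z) (D.g x₀ z') = dist z z') (y : B) (t : ℕ → ℝ) (n : ℕ)
    (ht : ∀ j < n, K * ‖D.A^[j] y‖ ≤ t j) (z z' : N) :
    dist (D.G n (x₀ + y) z) (D.G n (x₀ + y) z') ≤
      Real.exp (∑ j ∈ Finset.range n, t j) * dist z z' := by
  induction n with
  | zero => simp
  | succ n ih =>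
    have h1 := ih (fun j hj => ht j (hj.trans (Nat.lt_succ_self n)))
    have h2 := near D H hiso (D.A^[n] y) (D.G n (x₀ + y) z) (D.G n (x₀ + y) z')
    have h3 := ht n (Nat.lt_succ_self n)
    rw [D.G_succ, D.G_succ, A_iter_fix D hx₀]
    have h4 := (abs_le.1 h2).2
    have h5 : 1 + t n ≤ Real.exp (t n) := by rw [add_comm]; exact Real.add_one_le_exp _
    rw [Finset.sum_range_succ, Real.exp_add]
    set a := dist (D.G n (x₀ + y) z) (D.G n (x₀ + y) z') with ha
    have ha0 : 0 ≤ a := dist_nonneg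
    calc dist (D.g (x₀ + D.A^[n] y) (D.G n (x₀ + y) z)) (D.g (x₀ + D.A^[n] y) (D.G n (x₀ + y) z'))
        ≤ (1 + K * ‖D.A^[n] y‖) * a := by linarith
      _ ≤ (1 + t n) * a := mul_le_mul_of_nonneg_right (by linarith) ha0
      _ ≤ Real.exp (t n) * a := mul_le_mul_of_nonneg_right h5 ha0
      _ ≤ Real.exp (t n) * (Real.exp (∑ j ∈ Finset.range n, t j) * dist z z') :=
          mul_le_mul_of_nonneg_left h1 (Real.exp_pos _).le
      _ = _ := by ring

theorem lower {q β K θ : ℝ} (H : SideHyp D q β K θ) {x₀ : B} (hx₀ : D.A x₀ = x₀)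
    (hiso : ∀ z z' : N, dist (D.g x₀ z) (D.g x₀ z') = dist z z') (y : B) (t : ℕ → ℝ) (n : ℕ)
    (ht : ∀ j < n, K * ‖D.A^[j] y‖ ≤ t j) (ht2 : ∀ j < n, t j ≤ 1 / 2) (z z' : N) :
    dist z z' ≤ Real.exp (2 * ∑ j ∈ Finset.range n, t j) *
      dist (D.G n (x₀ + y) z) (D.G n (x₀ + y) z') := by
  induction n with
  | zero => simp
  | succ n ih =>
    have h1 := ih (fun j hj => ht j (hj.trans (Nat.lt_succ_self n)))
      (fun j hj => ht2 j (hj.trans (Nat.lt_succ_self n)))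
    have h2 := near D H hiso (D.A^[n] y) (D.G n (x₀ + y) z) (D.G n (x₀ + y) z')
    have h3 := ht n (Nat.lt_succ_self n)
    have h3' := ht2 n (Nat.lt_succ_self n)
    rw [D.G_succ, D.G_succ, A_iter_fix D hx₀]
    have h4 := (abs_le.1 h2).1
    have h0 : 0 ≤ t n := (mul_nonneg H.K_nonneg (norm_nonneg _)).trans h3
    have h5 : 1 + 2 * t n ≤ Real.exp (2 * t n) := by rw [add_comm]; exact Real.add_one_le_exp _
    rw [Finset.sum_range_succ, mul_add, Real.exp_add]
    set a := dist (D.G n (x₀ + y) z) (D.G n (x₀ + y) z') with ha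
    have ha0 : 0 ≤ a := dist_nonneg
    set b := dist (D.g (x₀ + D.A^[n] y) (D.G n (x₀ + y) z))
      (D.g (x₀ + D.A^[n] y) (D.G n (x₀ + y) z')) with hb
    have h6 : (1 - t n) * a ≤ b := by
      have : K * ‖D.A^[n] y‖ * a ≤ t n * a := mul_le_mul_of_nonneg_right h3 ha0
      linarith
    have h7 : a ≤ Real.exp (2 * t n) * b := by
      have h8 : 1 ≤ Real.exp (2 * t n) * (1 - t n) := by
        have : (1 + 2 * t n) * (1 - t n) ≤ Real.exp (2 * t n) * (1 - t n) :=
          mul_le_mul_of_nonneg_right h5 (by linarith)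
        nlinarith
      calc a = 1 * a := (one_mul a).symm
        _ ≤ Real.exp (2 * t n) * (1 - t n) * a := mul_le_mul_of_nonneg_right h8 ha0
        _ = Real.exp (2 * t n) * ((1 - t n) * a) := by ring
        _ ≤ _ := mul_le_mul_of_nonneg_left h6 (Real.exp_pos _).le
    calc dist z z' ≤ Real.exp (2 * ∑ j ∈ Finset.range n, t j) * a := h1
      _ ≤ Real.exp (2 * ∑ j ∈ Finset.range n, t j) * (Real.exp (2 * t n) * b) :=
          mul_le_mul_of_nonneg_left h7 (Real.exp_pos _).le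
      _ = _ := by ring

/-- the sums of the distortions are bounded -/
theorem sum_le {Λ c e : ℝ} (hΛ : 1 < Λ) (hc : 0 ≤ c) (he : 0 ≤ e) (m : ℕ)
    (h : ∀ j < m, Λ ^ j * c ≤ e) (n : ℕ) (hn : n ≤ m) :
    ∑ j ∈ Finset.range n, Λ ^ j * c ≤ e * Λ / (Λ - 1) := by
  have h1 : 0 < Λ - 1 := by linarith
  have h0 : 0 < Λ := by linarith
  rcases Nat.eq_zero_or_pos n with h2 | h2
  · subst h2
    simp only [Finset.range_zero, Finset.sum_empty]
    positivity
  · rw [← Finset.sum_mul, geom_sum_eq (by linarith)]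
    have h3 := h (n - 1) (by omega)
    have h4 : Λ ^ n = Λ ^ (n - 1) * Λ := by
      rw [← pow_succ]; congr 1; omega
    rw [div_mul_eq_mul_div]
    apply div_le_div_of_nonneg_right _ h1.le
    calc (Λ ^ n - 1) * c ≤ Λ ^ n * c := mul_le_mul_of_nonneg_right (by linarith) hc
      _ = (Λ ^ (n - 1) * c) * Λ := by rw [h4]; ring
      _ ≤ e * Λ := mul_le_mul_of_nonneg_right h3 h0.le

end

end Iiso

open Iiso in
theorem i_iso : S.iso := by
  intro B W N _ _ _ _ _ _ _ _ D q β K θ H x₀ hx₀ hiso Λ τ hΛ hτ hμΛ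
  set Δ : ℝ := Metric.diam (Set.univ : Set N) with hΔ
  have hdiam : ∀ a b : N, dist a b ≤ Δ := fun a b =>
    Metric.dist_le_diam_of_mem isCompact_univ.isBounded (Set.mem_univ a) (Set.mem_univ b)
  have hΔ0 : 0 ≤ Δ := Metric.diam_nonneg
  have hq := H.q_nonneg
  have hβ := H.β_nonneg
  have hK := H.K_nonneg
  have hθ := H.θ_pos
  have hθ1 := H.θ_le
  have hμ := D.μ_nonneg
  have hμ1 := D.μ_lt
  have hκ := D.κ_nonneg
  have hQ := D.Q_nonneg
  have hk1 := D.k1_nonneg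
  have hc0 := c0_nonneg D
  have hΛ0 : 0 < Λ := by linarith
  set ρ : ℝ := D.κ * β ^ θ * D.μ with hρ
  have hρ1 : ρ < 1 := H.dom
  have hβθ : 0 ≤ β ^ θ := Real.rpow_nonneg hβ θ
  have hqθ : 0 ≤ q ^ θ := Real.rpow_nonneg hq θ
  have hΔθ : 0 ≤ Δ ^ (1 - θ) := Real.rpow_nonneg hΔ0 _
  have hρ0 : 0 ≤ ρ := by positivity
  have h1ρ : 0 < 1 - ρ := by linarith
  have h1μ : 0 < 1 - D.μ := by linarith
  set e0 : ℝ := 1 / (2 * (K + 1)) with he0
  have he0pos : 0 < e0 := by positivity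
  have hKe0 : K * e0 ≤ 1 / 2 := by
    rw [he0, mul_one_div, div_le_div_iff₀ (by positivity) (by norm_num)]
    linarith
  set s0 : ℝ := K * e0 * Λ / (Λ - 1) with hs0
  have hΛ1 : 0 < Λ - 1 := by linarith
  have hs0' : 0 ≤ s0 := by positivity
  set E : ℝ := Real.exp s0 with hE
  have hE1 : 0 < E := Real.exp_pos _
  have hEθ : 0 ≤ E ^ θ := Real.rpow_nonneg hE1.le θ
  set M : ℝ := (1 + |D.C|) / e0 with hM
  have hM0 : 0 ≤ M := by positivity
  have hMτ : 0 ≤ M ^ τ := Real.rpow_nonneg hM0 τ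
  set A1 : ℝ := E ^ 2 * D.k1 * K * (2 * c0 D) * E / (1 - D.μ) with hA1
  set A2 : ℝ := E ^ 2 * D.Q * D.k1 * K * (2 * c0 D) * Δ ^ (1 - θ) * (E ^ θ * q ^ θ) * M ^ τ /
    (1 - ρ) with hA2
  have hA1' : 0 ≤ A1 := by positivity
  have hA2' : 0 ≤ A2 := by positivity
  refine ⟨A1 + A2, add_nonneg hA1' hA2', fun v y L hL hv hy z z' => ?_⟩
  set L1 : ℝ := (1 + |D.C|) * L with hL1
  have hL1pos : 0 < L1 := by positivity
  set y' := y + D.j v with hy'
  have hyn : ∀ n, ‖D.A^[n] y‖ ≤ Λ ^ n * L1 := by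
    intro n
    refine (hy n).trans ?_
    apply mul_le_mul_of_nonneg_left _ (by positivity)
    rw [hL1]
    have := abs_nonneg D.C
    nlinarith
  have hyn' : ∀ n, ‖D.A^[n] y'‖ ≤ Λ ^ n * L1 := by
    intro n
    rw [hy', D.A_iter_add, D.A_iter_j]
    have h1 : ‖D.j (D.L^[n] v)‖ ≤ |D.C| * L := by
      refine (D.j_le _).trans ((D.contr n v).trans ?_)
      calc D.C * D.μ ^ n * ‖v‖ ≤ |D.C| * 1 * L := by
            apply mul_le_mul _ hv (norm_nonneg _) (by positivity)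
            exact mul_le_mul (le_abs_self _) (pow_le_one₀ hμ hμ1.le) (pow_nonneg hμ n)
              (abs_nonneg _)
        _ = |D.C| * L := by ring
    have h2 : |D.C| * L ≤ Λ ^ n * (|D.C| * L) := by
      have : (1 : ℝ) ≤ Λ ^ n := one_le_pow₀ hΛ.le
      have h3 : 0 ≤ |D.C| * L := by positivity
      nlinarith
    calc ‖D.A^[n] y + D.j (D.L^[n] v)‖ ≤ ‖D.A^[n] y‖ + ‖D.j (D.L^[n] v)‖ := norm_add_le _ _
      _ ≤ Λ ^ n * L + Λ ^ n * (|D.C| * L) := add_le_add (hy n) (h1.trans h2)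
      _ = _ := by rw [hL1]; ring
  -- the exit time
  have hex : ∃ m : ℕ, e0 < Λ ^ m * L1 := by
    obtain ⟨m, hm⟩ := pow_unbounded_of_one_lt (e0 / L1) hΛ
    exact ⟨m, by rwa [div_lt_iff₀ hL1pos] at hm⟩
  classical
  set m := Nat.find hex with hm
  have hm1 : e0 < Λ ^ m * L1 := Nat.find_spec hex
  have hm2 : ∀ j < m, Λ ^ j * L1 ≤ e0 := fun j hj => not_lt.1 (Nat.find_min hex hj)
  set t : ℕ → ℝ := fun j => K * (Λ ^ j * L1) with ht
  have ht2 : ∀ j < m, t j ≤ 1 / 2 := fun j hj =>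
    (mul_le_mul_of_nonneg_left (hm2 j hj) hK).trans hKe0
  have hsum : ∀ n ≤ m, ∑ j ∈ Finset.range n, t j ≤ s0 := by
    intro n hn
    have h1 := sum_le hΛ hL1pos.le he0pos.le m hm2 n hn
    calc ∑ j ∈ Finset.range n, t j = K * ∑ j ∈ Finset.range n, Λ ^ j * L1 := by
          rw [Finset.mul_sum]
      _ ≤ K * (e0 * Λ / (Λ - 1)) := mul_le_mul_of_nonneg_left h1 hK
      _ = s0 := by rw [hs0]; ring
  -- notation
  set d : ℝ := dist z z' with hd
  have hd0 : 0 ≤ d := dist_nonneg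
  set x := x₀ + y with hx
  set x' := x + D.j v with hx'
  have hxx' : x' = x₀ + y' := by rw [hx', hx, hy', add_assoc]
  -- upper and lower bounds
  have hup : ∀ n ≤ m, ∀ a b : N, dist (D.G n x a) (D.G n x b) ≤ E * dist a b := by
    intro n hn a b
    refine (upper D H hx₀ hiso y t n (fun j _ => mul_le_mul_of_nonneg_left (hyn j) hK) a b).trans
      ?_
    apply mul_le_mul_of_nonneg_right _ dist_nonneg
    exact Real.exp_le_exp.2 (hsum n hn)
  have hlow : ∀ n ≤ m, ∀ a b : N, dist ((D.G n x').symm a) ((D.G n x').symm b) ≤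
      E ^ 2 * dist a b := by
    intro n hn a b
    have h1 := lower D H hx₀ hiso y' t n (fun j _ => mul_le_mul_of_nonneg_left (hyn' j) hK)
      (fun j hj => ht2 j (hj.trans_le hn)) ((D.G n x').symm a) ((D.G n x').symm b)
    rw [← hxx', Homeomorph.apply_symm_apply, Homeomorph.apply_symm_apply] at h1
    refine h1.trans ?_
    apply mul_le_mul_of_nonneg_right _ dist_nonneg
    rw [hE, ← Real.exp_nat_mul]
    apply Real.exp_le_exp.2
    have := hsum n hn
    push_cast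
    linarith
  have hup2 : ∀ k : ℕ, ∀ a b : N, dist (D.G (m + k) x a) (D.G (m + k) x b) ≤
      q * β ^ k * (E * dist a b) := by
    intro k a b
    rw [G_add, G_add]
    refine (H.up k _ _ _).trans ?_
    exact mul_le_mul_of_nonneg_left (hup m le_rfl a b) (by positivity)
  have hlow2 : ∀ k : ℕ, ∀ a b : N,
      dist ((D.G (m + k) x').symm a) ((D.G (m + k) x').symm b) ≤
        E ^ 2 * (D.Q * D.κ ^ k * dist a b) := by
    intro k a b
    have e1 : ∀ c : N, (D.G (m + k) x').symm c =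
        (D.G m x').symm ((D.G k (D.A^[m] x')).symm c) := by
      intro c
      apply (D.G (m + k) x').injective
      rw [Homeomorph.apply_symm_apply, G_add, Homeomorph.apply_symm_apply,
        Homeomorph.apply_symm_apply]
    rw [e1, e1]
    refine (hlow m le_rfl _ _).trans ?_
    exact mul_le_mul_of_nonneg_left (D.G_symm_lip _ _ _ _) (by positivity)
  set h := D.S v x with hh
  set zn : ℕ → N := fun n => D.G n x z with hzn
  set zn' : ℕ → N := fun n => D.G n x z' with hzn'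
  set wn : ℕ → N := fun n => D.G n x' (h z) with hwn
  set un : ℕ → N := fun n => (zn n)⁻¹ * zn' n with hun
  set yn : ℕ → N := fun n => wn n * un n with hyn_def
  set P : ℕ → N := fun n => (D.G n x').symm (yn n) with hP
  have hGP : ∀ n, D.G n x' (P n) = yn n := fun n => Homeomorph.apply_symm_apply _ _
  have hP1 : ∀ n, P (n + 1) = (D.G n x').symm ((D.g (D.A^[n] x')).symm (yn (n + 1))) :=
    fun n => D.G_symm_succ n x' (yn (n + 1))
  -- one step
  have hstep : ∀ n, dist (yn n) ((D.g (D.A^[n] x')).symm (yn (n + 1))) ≤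
      D.k1 * (K * (2 * (c0 D * ‖v‖ * D.μ ^ n)) * dist (zn n) (zn' n)) := by
    intro n
    have h2 : dist (yn n) ((D.g (D.A^[n] x')).symm (yn (n + 1)))
        ≤ D.k1 * dist (D.g (D.A^[n] x') (yn n)) (yn (n + 1)) := by
      have := D.g_symm (D.A^[n] x') (D.g (D.A^[n] x') (yn n)) (yn (n + 1))
      rwa [Homeomorph.symm_apply_apply] at this
    have h3 := H.sd (D.A^[n] x) (D.A^[n] x') (zn n) (zn' n) (wn n) (yn n)
      (by simp only [hyn_def, hun, inv_mul_cancel_left])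
    have e1 : D.g (D.A^[n] x) (zn n) = zn (n + 1) := by
      simp only [hzn, D.G_succ]
    have e2 : D.g (D.A^[n] x) (zn' n) = zn' (n + 1) := by
      simp only [hzn', D.G_succ]
    have e3 : D.g (D.A^[n] x') (wn n) = wn (n + 1) := by
      simp only [hwn, D.G_succ]
    rw [e1, e2, e3] at h3
    have h5 := (dist_iter D v x z n).1
    have h6 := (dist_iter D v x z n).2
    refine h2.trans (mul_le_mul_of_nonneg_left ?_ hk1)
    have e4 : dist (D.g (D.A^[n] x') (yn n)) (yn (n + 1))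
        = dist (un (n + 1)) ((wn (n + 1))⁻¹ * D.g (D.A^[n] x') (yn n)) := by
      have e5 : yn (n + 1) = wn (n + 1) * un (n + 1) := rfl
      rw [e5, dist_comm, ← dist_mul_left ((wn (n + 1))⁻¹) (wn (n + 1) * un (n + 1)),
        inv_mul_cancel_left]
    rw [e4]
    refine h3.trans ?_
    apply mul_le_mul_of_nonneg_right _ dist_nonneg
    refine mul_le_mul_of_nonneg_left ?_ hK
    calc dist (D.A^[n] x) (D.A^[n] x') + dist (zn n) (wn n)
        ≤ c0 D * ‖v‖ * D.μ ^ n + c0 D * ‖v‖ * D.μ ^ n := add_le_add h5 h6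
      _ = _ := by ring
  -- (b1) before the exit time
  have hb1 : ∀ n < m, dist (P n) (P (n + 1)) ≤
      (E ^ 2 * D.k1 * K * (2 * c0 D) * E * ‖v‖ * d) * D.μ ^ n := by
    intro n hn
    rw [hP1 n]
    calc dist (P n) ((D.G n x').symm ((D.g (D.A^[n] x')).symm (yn (n + 1))))
        ≤ E ^ 2 * dist (yn n) ((D.g (D.A^[n] x')).symm (yn (n + 1))) := hlow n hn.le _ _
      _ ≤ E ^ 2 * (D.k1 * (K * (2 * (c0 D * ‖v‖ * D.μ ^ n)) * dist (zn n) (zn' n))) :=
          mul_le_mul_of_nonneg_left (hstep n) (by positivity)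
      _ ≤ E ^ 2 * (D.k1 * (K * (2 * (c0 D * ‖v‖ * D.μ ^ n)) * (E * d))) := by
          apply mul_le_mul_of_nonneg_left _ (by positivity)
          apply mul_le_mul_of_nonneg_left _ hk1
          exact mul_le_mul_of_nonneg_left (hup n hn.le z z') (by positivity)
      _ = _ := by ring
  -- (b2) after the exit time
  set c2 : ℝ := E ^ 2 * D.Q * D.k1 * K * (2 * c0 D) * Δ ^ (1 - θ) * (E ^ θ * q ^ θ) with hc2
  have hc2' : 0 ≤ c2 := by positivity
  have hb2 : ∀ k : ℕ, dist (P (m + k)) (P (m + k + 1)) ≤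
      (c2 * ‖v‖ * D.μ ^ m * d ^ θ) * ρ ^ k := by
    intro k
    rw [hP1 (m + k)]
    have hzz : dist (zn (m + k)) (zn' (m + k)) ≤
        Δ ^ (1 - θ) * (E ^ θ * q ^ θ * (β ^ θ) ^ k * d ^ θ) := by
      refine (interp dist_nonneg (hup2 k z z') (hdiam _ _) hθ hθ1).trans (le_of_eq ?_)
      rw [Real.mul_rpow (by positivity) (by positivity), Real.mul_rpow hE1.le hd0,
        Real.mul_rpow hq (by positivity),
        ← Real.rpow_natCast_mul hβ, mul_comm (k : ℝ) θ, Real.rpow_mul_natCast hβ]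
      ring
    calc dist (P (m + k)) ((D.G (m + k) x').symm ((D.g (D.A^[m + k] x')).symm (yn (m + k + 1))))
        ≤ E ^ 2 * (D.Q * D.κ ^ k *
            dist (yn (m + k)) ((D.g (D.A^[m + k] x')).symm (yn (m + k + 1)))) := hlow2 k _ _
      _ ≤ E ^ 2 * (D.Q * D.κ ^ k * (D.k1 * (K * (2 * (c0 D * ‖v‖ * D.μ ^ (m + k))) *
            dist (zn (m + k)) (zn' (m + k))))) := by
          apply mul_le_mul_of_nonneg_left _ (by positivity)
          exact mul_le_mul_of_nonneg_left (hstep (m + k)) (by positivity)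
      _ ≤ E ^ 2 * (D.Q * D.κ ^ k * (D.k1 * (K * (2 * (c0 D * ‖v‖ * D.μ ^ (m + k))) *
            (Δ ^ (1 - θ) * (E ^ θ * q ^ θ * (β ^ θ) ^ k * d ^ θ))))) := by
          apply mul_le_mul_of_nonneg_left _ (by positivity)
          apply mul_le_mul_of_nonneg_left _ (by positivity)
          apply mul_le_mul_of_nonneg_left _ hk1
          exact mul_le_mul_of_nonneg_left hzz (by positivity)
      _ = _ := by
          rw [hc2, hρ, mul_pow, mul_pow, pow_add]; ring
  -- (c)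
  have hlim : Tendsto P atTop (𝓝 (h z')) := by
    rw [tendsto_iff_dist_tendsto_zero]
    have h0 : Tendsto (fun n : ℕ => (D.Q * (2 * (c0 D * ‖v‖))) * (D.κ * D.μ) ^ n) atTop
        (𝓝 0) := by
      have := (tendsto_pow_atTop_nhds_zero_of_lt_one (mul_nonneg hκ hμ) D.dom).const_mul
        (D.Q * (2 * (c0 D * ‖v‖)))
      simpa using this
    refine squeeze_zero (fun n => dist_nonneg) (fun n => ?_) h0
    have h1 : dist (P n) (h z') ≤ D.Q * D.κ ^ n * dist (yn n) (D.G n x' (h z')) := by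
      have := D.G_symm_lip n x' (yn n) (D.G n x' (h z'))
      rwa [Homeomorph.symm_apply_apply] at this
    have h2 : dist (yn n) (D.G n x' (h z')) ≤ 2 * (c0 D * ‖v‖ * D.μ ^ n) := by
      have h3 : dist (yn n) (zn' n) ≤ c0 D * ‖v‖ * D.μ ^ n := by
        have e : yn n = wn n * (zn n)⁻¹ * zn' n := by
          simp only [hyn_def, hun, mul_assoc]
        have e' : zn' n = zn n * (zn n)⁻¹ * zn' n := by simp
        rw [e]
        nth_rewrite 2 [e']
        rw [dist_mul_right, dist_mul_right, dist_comm]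
        exact (dist_iter D v x z n).2
      have h4 : dist (zn' n) (D.G n x' (h z')) ≤ c0 D * ‖v‖ * D.μ ^ n :=
        (dist_iter D v x z' n).2
      calc _ ≤ _ := dist_triangle _ (zn' n) _
        _ ≤ c0 D * ‖v‖ * D.μ ^ n + c0 D * ‖v‖ * D.μ ^ n := add_le_add h3 h4
        _ = _ := by ring
    calc dist (P n) (h z') ≤ D.Q * D.κ ^ n * dist (yn n) (D.G n x' (h z')) := h1
      _ ≤ D.Q * D.κ ^ n * (2 * (c0 D * ‖v‖ * D.μ ^ n)) :=
          mul_le_mul_of_nonneg_left h2 (by positivity)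
      _ = _ := by rw [mul_pow]; ring
  -- (d) summation
  have hs1 : dist (P 0) (P m) ≤ A1 * ‖v‖ * d := by
    set a : ℝ := E ^ 2 * D.k1 * K * (2 * c0 D) * E * ‖v‖ * d with ha
    have ha0 : 0 ≤ a := by positivity
    calc dist (P 0) (P m) ≤ ∑ n ∈ Finset.range m, dist (P n) (P (n + 1)) :=
          dist_le_range_sum_dist P m
      _ ≤ ∑ n ∈ Finset.range m, a * D.μ ^ n :=
          Finset.sum_le_sum fun n hn => hb1 n (Finset.mem_range.1 hn)
      _ = a * ∑ n ∈ Finset.range m, D.μ ^ n := by rw [Finset.mul_sum]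
      _ ≤ a * (1 / (1 - D.μ)) := by
          apply mul_le_mul_of_nonneg_left _ ha0
          rw [geom_sum_eq hμ1.ne, ← neg_div_neg_eq]
          have e1 : -(D.μ - 1) = 1 - D.μ := by ring
          rw [e1]
          apply div_le_div_of_nonneg_right _ h1μ.le
          have : 0 ≤ D.μ ^ m := pow_nonneg hμ m
          linarith
      _ = _ := by rw [ha, hA1]; ring
  have hs2 : dist (P m) (h z') ≤ (c2 * ‖v‖ * D.μ ^ m * d ^ θ) / (1 - ρ) := by
    have hlim2 : Tendsto (fun k => P (m + k)) atTop (𝓝 (h z')) := by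
      have := hlim.comp (tendsto_add_atTop_nat m)
      refine this.congr fun k => ?_
      simp only [Function.comp_apply, add_comm k m]
    exact dist_le_of_le_geometric_of_tendsto₀ ρ _ hρ1 hb2 hlim2
  have hμm : D.μ ^ m ≤ M ^ τ * L ^ τ := by
    have h1 : D.μ ^ m * (Λ ^ m) ^ τ ≤ 1 := by
      have : D.μ ^ m * (Λ ^ m) ^ τ = (D.μ * Λ ^ τ) ^ m := by
        rw [mul_pow]
        congr 1
        rw [← Real.rpow_natCast_mul hΛ0.le, mul_comm, Real.rpow_mul_natCast hΛ0.le]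
      rw [this]
      exact pow_le_one₀ (mul_nonneg hμ (Real.rpow_nonneg hΛ0.le _)) hμΛ
    have h2 : (1 : ℝ) ≤ M ^ τ * L ^ τ * (Λ ^ m) ^ τ := by
      rw [← Real.mul_rpow hM0 hL.le, ← Real.mul_rpow (by positivity) (by positivity)]
      apply Real.one_le_rpow _ hτ
      have : M * L * Λ ^ m = Λ ^ m * L1 / e0 := by rw [hM, hL1]; ring
      rw [this, le_div_iff₀ he0pos, one_mul]
      exact hm1.le
    have h3 : 0 < (Λ ^ m) ^ τ := Real.rpow_pos_of_pos (by positivity) _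
    by_contra hcon
    push Not at hcon
    have h4 : M ^ τ * L ^ τ * (Λ ^ m) ^ τ < D.μ ^ m * (Λ ^ m) ^ τ :=
      mul_lt_mul_of_pos_right hcon h3
    linarith
  have hP0 : P 0 = h z * (z⁻¹ * z') := by
    have e1 : P 0 = yn 0 := by
      have := hGP 0
      rwa [D.G_zero] at this
    rw [e1]
    simp only [hyn_def, hwn, hun, hzn, hzn', D.G_zero]
  have e : dist ((h z)⁻¹ * h z') (z⁻¹ * z') = dist (P 0) (h z') := by
    rw [hP0, ← dist_mul_left (h z) ((h z)⁻¹ * h z'), mul_inv_cancel_left, dist_comm]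
  rw [e]
  have hdθ : 0 ≤ d ^ θ := Real.rpow_nonneg hd0 θ
  have hLτ : 0 ≤ L ^ τ := Real.rpow_nonneg hL.le τ
  have hv0 : 0 ≤ ‖v‖ := norm_nonneg v
  have hs3 : (c2 * ‖v‖ * D.μ ^ m * d ^ θ) / (1 - ρ) ≤ A2 * ‖v‖ * (L ^ τ * d ^ θ) := by
    have h1 : c2 * ‖v‖ * D.μ ^ m * d ^ θ ≤ c2 * ‖v‖ * (M ^ τ * L ^ τ) * d ^ θ := by
      apply mul_le_mul_of_nonneg_right _ hdθ
      exact mul_le_mul_of_nonneg_left hμm (by positivity)
    refine (div_le_div_of_nonneg_right h1 h1ρ.le).trans (le_of_eq ?_)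
    rw [hA2, hc2]
    ring
  calc dist (P 0) (h z') ≤ dist (P 0) (P m) + dist (P m) (h z') := dist_triangle _ _ _
    _ ≤ A1 * ‖v‖ * d + A2 * ‖v‖ * (L ^ τ * d ^ θ) := add_le_add hs1 (hs2.trans hs3)
    _ ≤ (A1 + A2) * ‖v‖ * (d + L ^ τ * d ^ θ) := by
        have h1 : 0 ≤ A1 * ‖v‖ * (L ^ τ * d ^ θ) := by positivity
        have h2 : 0 ≤ A2 * ‖v‖ * d := by positivity
        nlinarith

end Pool.Agent.SKP.HA
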