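import Pool.Agent.Work.MP_adbfe6_an.HA.St2

/-!
# Item isopath: distortion along a path near an isometric fixed fibre
-/

set_option autoImplicit false
set_option linter.unusedSectionVars false
set_option linter.unusedVariables false

open Filter Topology MeasureTheory Metric
open scoped ENNReal NNReal

namespace Pool.Agent.SKP.HA

namespace Iisopath

variable {B Ws Wu N : Type} [NormedAddCommGroup B] [CompactSpace B] [NormedAddCommGroup Ws]
  [NormedAddCommGroup Wu] [Group N] [MetricSpace N] [CompactSpace N] [IsIsometricSMul N N]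
  [IsIsometricSMul Nᵐᵒᵖ N]

theorem mlen_nonneg (a : Mv Ws Wu) : 0 ≤ mlen a := by
  cases a with
  | s v => exact norm_nonneg v
  | u w => exact norm_nonneg w
  | f => exact le_rfl

theorem plen_nonneg (l : List (Mv Ws Wu)) : 0 ≤ plen l := by
  unfold plen
  apply List.sum_nonneg
  intro x hx
  obtain ⟨a, _, rfl⟩ := List.mem_map.1 hx
  exact mlen_nonneg a

theorem plen_cons (a : Mv Ws Wu) (l : List (Mv Ws Wu)) : plen (a :: l) = mlen a + plen l := by
  simp [plen]

theorem dist_one_eq (z y : N) : dist 1 (z⁻¹ * y) = dist z y := by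
  rw [← dist_mul_left z 1 (z⁻¹ * y), mul_one, mul_inv_cancel_left]

end Iisopath

open Iisopath in
theorem i_isopath : S.isopath := by
  intro B Ws Wu N _ _ _ _ _ _ _ _ _ D x₀ C θ τ c Λ Λ' hC hθ hτ hc hΛ hΛ' hgs hgu hs hu
  obtain ⟨m, hm⟩ : ∃ m : ℝ, m = max 1 c := ⟨_, rfl⟩
  have hm1 : 1 ≤ m := by rw [hm]; exact le_max_left _ _
  have hmc : c ≤ m := by rw [hm]; exact le_max_right _ _
  have hm0 : 0 < m := lt_of_lt_of_le one_pos hm1
  have hmτ : 1 ≤ m ^ τ := Real.one_le_rpow hm1 hτ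
  refine ⟨C * m ^ τ, mul_nonneg hC (by linarith), ?_⟩
  intro l hl L r z y hlL hL hr hzy hQ
  obtain ⟨Q, hQdef⟩ : ∃ Q : ℝ, Q = 2 * r + L ^ τ * (2 * r) ^ θ := ⟨_, rfl⟩
  rw [← hQdef] at hQ ⊢
  have hLτ : 0 < L ^ τ := Real.rpow_pos_of_pos hL _
  have hQ0 : 0 ≤ Q := by
    rw [hQdef]
    have := Real.rpow_nonneg (show 0 ≤ 2 * r by linarith) θ
    positivity
  have hC' : 0 ≤ C * m ^ τ := mul_nonneg hC (by linarith)
  -- one leg
  have leg : ∀ (b δ : ℝ), 0 ≤ b → 0 ≤ δ → δ ≤ 2 * r →
      C * b * (δ + (m * L) ^ τ * δ ^ θ) ≤ C * m ^ τ * b * Q := by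
    intro b δ hb hδ hδr
    have h1 : (m * L) ^ τ = m ^ τ * L ^ τ := Real.mul_rpow hm0.le hL.le
    have h2 : δ ^ θ ≤ (2 * r) ^ θ := Real.rpow_le_rpow hδ hδr hθ.le
    have h3 : δ + (m * L) ^ τ * δ ^ θ ≤ m ^ τ * Q := by
      have h4 : m ^ τ * L ^ τ * δ ^ θ ≤ m ^ τ * L ^ τ * (2 * r) ^ θ :=
        mul_le_mul_of_nonneg_left h2 (by positivity)
      have h5 : δ ≤ m ^ τ * (2 * r) := by
        calc δ ≤ 2 * r := hδr
          _ = 1 * (2 * r) := (one_mul _).symm
          _ ≤ m ^ τ * (2 * r) := mul_le_mul_of_nonneg_right hmτ (by linarith)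
      rw [h1, hQdef]
      calc δ + m ^ τ * L ^ τ * δ ^ θ ≤ m ^ τ * (2 * r) + m ^ τ * L ^ τ * (2 * r) ^ θ :=
            add_le_add h5 h4
        _ = _ := by ring
    calc C * b * (δ + (m * L) ^ τ * δ ^ θ) ≤ C * b * (m ^ τ * Q) :=
          mul_le_mul_of_nonneg_left h3 (mul_nonneg hC hb)
      _ = _ := by ring
  -- induction
  have key : ∀ (l : List (Mv Ws Wu)), (∀ a ∈ l, a.leaf) → ∀ (v : Ws) (w : Wu) (z y t : N) (e : ℝ),
      0 ≤ e → dist (z⁻¹ * y) t ≤ e → dist 1 t ≤ r → e + C * m ^ τ * plen l * Q ≤ r →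
      ‖v‖ + ‖w‖ + plen l ≤ L →
      dist ((D.hol l (x₀ + (D.s.j v + D.u.j w)) z)⁻¹ * D.hol l (x₀ + (D.s.j v + D.u.j w)) y) t
        ≤ e + C * m ^ τ * plen l * Q := by
    intro l
    induction l with
    | nil =>
      intro _ v w z y t e _ h1 _ _ _
      have e1 : plen ([] : List (Mv Ws Wu)) = 0 := by simp [plen]
      rw [e1, mul_zero, zero_mul, add_zero]
      exact h1
    | cons a l ih =>
      intro hl v w z y t e he h1 h2 h3 h4
      have hl' : ∀ a ∈ l, a.leaf := fun b hb => hl b (List.mem_cons_of_mem a hb)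
      have ha : a.leaf := hl a List.mem_cons_self
      rw [plen_cons] at h3 h4 ⊢
      have hp := plen_nonneg l
      have hma := mlen_nonneg a
      have hvn := norm_nonneg v
      have hwn := norm_nonneg w
      have h5 : 0 ≤ C * m ^ τ * (mlen a + plen l) * Q := by positivity
      have hdz : dist z y ≤ 2 * r := by
        rw [← dist_one_eq]
        calc dist 1 (z⁻¹ * y) ≤ dist 1 t + dist t (z⁻¹ * y) := dist_triangle _ _ _
          _ ≤ r + e := add_le_add h2 (by rw [dist_comm]; exact h1)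
          _ ≤ 2 * r := by linarith
      have hLL : mlen a ≤ m * L := by
        calc mlen a ≤ L := by linarith
          _ = 1 * L := (one_mul _).symm
          _ ≤ m * L := mul_le_mul_of_nonneg_right hm1 hL.le
      have hgrow : ∀ (Λ : ℝ) (n : ℕ), 0 ≤ Λ → Λ ^ n * (c * (‖v‖ + ‖w‖)) ≤ Λ ^ n * (m * L) := by
        intro Λ n hΛ
        refine mul_le_mul_of_nonneg_left ?_ (pow_nonneg hΛ n)
        exact mul_le_mul hmc (by linarith) (by positivity) hm0.le
      have hdist : 0 ≤ dist z y := dist_nonneg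
      cases a with
      | s v₁ =>
        have g1 := hs v₁ (D.s.j v + D.u.j w) (m * L) (mul_pos hm0 hL) hLL
          (fun n => (hgs n v w).trans (hgrow Λ n hΛ)) z y
        have g2 := g1.trans (leg ‖v₁‖ (dist z y) (norm_nonneg _) hdist hdz)
        have eb : x₀ + (D.s.j v + D.u.j w) + D.s.j v₁ = x₀ + (D.s.j (v + v₁) + D.u.j w) := by
          rw [map_add]; abel
        have g3 := ih hl' (v + v₁) w (D.s.S v₁ (x₀ + (D.s.j v + D.u.j w)) z)
          (D.s.S v₁ (x₀ + (D.s.j v + D.u.j w)) y) t (e + C * m ^ τ * ‖v₁‖ * Q)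
          (by positivity)
          ((dist_triangle _ (z⁻¹ * y) _).trans (by
            have := add_le_add g2 h1
            linarith)) h2
          (by
            have e2 : mlen (Mv.s v₁ : Mv Ws Wu) = ‖v₁‖ := rfl
            rw [e2] at h3
            linarith)
          (by
            have e2 : mlen (Mv.s v₁ : Mv Ws Wu) = ‖v₁‖ := rfl
            rw [e2] at h4
            have := norm_add_le v v₁
            linarith)
        have e3 : ∀ q, D.hol (Mv.s v₁ :: l) (x₀ + (D.s.j v + D.u.j w)) q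
            = D.hol l (x₀ + (D.s.j (v + v₁) + D.u.j w))
              (D.s.S v₁ (x₀ + (D.s.j v + D.u.j w)) q) := by
          intro q
          rw [← eb]
          rfl
        rw [e3, e3]
        refine g3.trans (le_of_eq ?_)
        have e2 : mlen (Mv.s v₁ : Mv Ws Wu) = ‖v₁‖ := rfl
        rw [e2]
        ring
      | u w₁ =>
        have g1 := hu w₁ (D.s.j v + D.u.j w) (m * L) (mul_pos hm0 hL) hLL
          (fun n => (hgu n v w).trans (hgrow Λ' n hΛ')) z y
        have g2 := g1.trans (leg ‖w₁‖ (dist z y) (norm_nonneg _) hdist hdz)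
        have eb : x₀ + (D.s.j v + D.u.j w) + D.u.j w₁ = x₀ + (D.s.j v + D.u.j (w + w₁)) := by
          rw [map_add]; abel
        have g3 := ih hl' v (w + w₁) (D.u.S w₁ (x₀ + (D.s.j v + D.u.j w)) z)
          (D.u.S w₁ (x₀ + (D.s.j v + D.u.j w)) y) t (e + C * m ^ τ * ‖w₁‖ * Q)
          (by positivity)
          ((dist_triangle _ (z⁻¹ * y) _).trans (by
            have := add_le_add g2 h1
            linarith)) h2
          (by
            have e2 : mlen (Mv.u w₁ : Mv Ws Wu) = ‖w₁‖ := rfl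
            rw [e2] at h3
            linarith)
          (by
            have e2 : mlen (Mv.u w₁ : Mv Ws Wu) = ‖w₁‖ := rfl
            rw [e2] at h4
            have := norm_add_le w w₁
            linarith)
        have e3 : ∀ q, D.hol (Mv.u w₁ :: l) (x₀ + (D.s.j v + D.u.j w)) q
            = D.hol l (x₀ + (D.s.j v + D.u.j (w + w₁)))
              (D.u.S w₁ (x₀ + (D.s.j v + D.u.j w)) q) := by
          intro q
          rw [← eb]
          rfl
        rw [e3, e3]
        refine g3.trans (le_of_eq ?_)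
        have e2 : mlen (Mv.u w₁ : Mv Ws Wu) = ‖w₁‖ := rfl
        rw [e2]
        ring
      | f => exact absurd ha id
  have hpl := plen_nonneg l
  have hmon : C * m ^ τ * plen l * Q ≤ C * m ^ τ * L * Q :=
    mul_le_mul_of_nonneg_right (mul_le_mul_of_nonneg_left hlL hC') hQ0
  have h0 := key l hl 0 0 z y (z⁻¹ * y) 0 le_rfl (by rw [dist_self])
    (by rw [dist_one_eq]; exact hzy) (by linarith) (by rw [norm_zero, norm_zero]; linarith)
  have ex : x₀ + (D.s.j 0 + D.u.j 0) = x₀ := by rw [map_zero, map_zero, add_zero, add_zero]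
  rw [ex, zero_add] at h0
  rw [← dist_one_eq (D.hol l x₀ z), ← dist_one_eq z, abs_sub_comm]
  have h1 : |dist 1 (z⁻¹ * y) - dist 1 ((D.hol l x₀ z)⁻¹ * D.hol l x₀ y)| ≤
      dist (z⁻¹ * y) ((D.hol l x₀ z)⁻¹ * D.hol l x₀ y) := by
    rw [dist_comm 1, dist_comm 1]
    exact abs_dist_sub_le _ _ _
  rw [dist_comm] at h0
  exact h1.trans (h0.trans hmon)

end Pool.Agent.SKP.HA
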