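import Pool.Agent.Work.MP_adbfe6_an.HA.St3

/-!
# Iteration of the approximate accessibility
-/

set_option autoImplicit false
set_option linter.unusedSectionVars false
set_option linter.unusedVariables false

open Filter Topology MeasureTheory Metric
open scoped ENNReal NNReal

namespace Pool.Agent.SKP.HA

namespace Iiter

theorem plen_append {Ws Wu : Type} [NormedAddCommGroup Ws] [NormedAddCommGroup Wu]
    (l l' : List (Mv Ws Wu)) : plen (l ++ l') = plen l + plen l' := by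
  unfold plen
  rw [List.map_append, List.sum_append]

variable {B Ws Wu N : Type} [NormedAddCommGroup B] [CompactSpace B] [NormedAddCommGroup Ws]
    [NormedAddCommGroup Wu] [MetricSpace N] [CompactSpace N]

theorem step (D : Two B Ws Wu N) (x₀ : B) (z₀ : N) (r C c η : ℝ) (hr : 0 < r) (hc0 : 0 < c)
    (hc : c < 1) (hC : 0 ≤ C) (hη : 0 < η)
    (hloc : ∀ z z' : N, dist z₀ z ≤ r → dist z₀ z' ≤ r → ∃ l : List (Mv Ws Wu),
      (∀ a ∈ l, a.leaf) ∧ D.brun l x₀ = x₀ ∧ dist (D.hol l x₀ z) z' ≤ c * dist z z' ∧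
        plen l ≤ C * dist z z' ^ η) (J : ℕ) :
    ∀ z z' : N, dist z₀ z' ≤ r / 3 → dist z z' ≤ 2 * r / 3 → ∃ l : List (Mv Ws Wu),
      (∀ a ∈ l, a.leaf) ∧ D.brun l x₀ = x₀ ∧ dist (D.hol l x₀ z) z' ≤ c ^ J * dist z z' ∧
        plen l ≤ C / (1 - c ^ η) * dist z z' ^ η := by
  have hcη : c ^ η < 1 := Real.rpow_lt_one hc0.le hc hη
  have h1c : 0 < 1 - c ^ η := by linarith
  have hC' : 0 ≤ C / (1 - c ^ η) := div_nonneg hC h1c.le
  induction J with
  | zero =>
    intro z z' hz' hzz'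
    refine ⟨[], by simp, rfl, by simp [Two.hol], ?_⟩
    simp only [plen, List.map_nil, List.sum_nil]
    exact mul_nonneg hC' (Real.rpow_nonneg dist_nonneg _)
  | succ J ih =>
    intro z z' hz' hzz'
    have h1 : dist z₀ z ≤ r := by
      have := dist_triangle z₀ z' z
      rw [dist_comm z' z] at this
      linarith
    obtain ⟨l, hl, hlb, hlz, hlen⟩ := hloc z z' h1 (by linarith)
    have h2 : dist (D.hol l x₀ z) z' ≤ 2 * r / 3 := by
      have : c * dist z z' ≤ 1 * dist z z' := mul_le_mul_of_nonneg_right hc.le dist_nonneg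
      linarith
    obtain ⟨l', hl', hlb', hlz', hlen'⟩ := ih (D.hol l x₀ z) z' hz' h2
    refine ⟨l ++ l', ?_, ?_, ?_, ?_⟩
    · intro a ha
      rcases List.mem_append.1 ha with h | h
      · exact hl a h
      · exact hl' a h
    · rw [D.brun_append, hlb, hlb']
    · rw [D.hol_append, hlb]
      calc dist (D.hol l' x₀ (D.hol l x₀ z)) z' ≤ c ^ J * dist (D.hol l x₀ z) z' := hlz'
        _ ≤ c ^ J * (c * dist z z') := mul_le_mul_of_nonneg_left hlz (pow_nonneg hc0.le _)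
        _ = c ^ (J + 1) * dist z z' := by rw [pow_succ]; ring
    · rw [plen_append]
      have h3 : dist (D.hol l x₀ z) z' ^ η ≤ c ^ η * dist z z' ^ η := by
        rw [← Real.mul_rpow hc0.le dist_nonneg]
        exact Real.rpow_le_rpow dist_nonneg hlz hη.le
      calc plen l + plen l' ≤ C * dist z z' ^ η +
            C / (1 - c ^ η) * (c ^ η * dist z z' ^ η) :=
            add_le_add hlen (hlen'.trans (mul_le_mul_of_nonneg_left h3 hC'))
        _ = C / (1 - c ^ η) * dist z z' ^ η := by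
            field_simp
            ring

end Iiter

theorem i_iter : S.iter := by
  intro B Ws Wu N _ _ _ _ _ _ D x₀ z₀ r C c η hr hc hη hloc
  obtain ⟨c', hc'0, hc'1, hc'⟩ : ∃ c' : ℝ, 0 < c' ∧ c' < 1 ∧ c ≤ c' :=
    ⟨max c (1 / 2), by positivity, max_lt hc (by norm_num), le_max_left _ _⟩
  have hloc' : ∀ z z' : N, dist z₀ z ≤ r → dist z₀ z' ≤ r → ∃ l : List (Mv Ws Wu),
      (∀ a ∈ l, a.leaf) ∧ D.brun l x₀ = x₀ ∧ dist (D.hol l x₀ z) z' ≤ c' * dist z z' ∧
        plen l ≤ |C| * dist z z' ^ η := by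
    intro z z' hz hz'
    obtain ⟨l, h1, h2, h3, h4⟩ := hloc z z' hz hz'
    exact ⟨l, h1, h2, h3.trans (mul_le_mul_of_nonneg_right hc' dist_nonneg),
      h4.trans (mul_le_mul_of_nonneg_right (le_abs_self C) (Real.rpow_nonneg dist_nonneg _))⟩
  have hstep := Iiter.step D x₀ z₀ r |C| c' η hr hc'0 hc'1 (abs_nonneg C) hη hloc'
  have hcη : c' ^ η < 1 := Real.rpow_lt_one hc'0.le hc'1 hη
  have h1c : 0 < 1 - c' ^ η := by linarith
  set C' : ℝ := |C| / (1 - c' ^ η) with hC'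
  have hC'0 : 0 ≤ C' := div_nonneg (abs_nonneg C) h1c.le
  refine ⟨r / 3, max 2 (C' * 2 ^ η), by positivity, fun s z z' hs0 hs hz hz' hzz' => ?_⟩
  obtain ⟨J, hJ⟩ : ∃ J : ℕ, c' ^ J < s ^ η :=
    exists_pow_lt_of_lt_one (Real.rpow_pos_of_pos hs0 _) hc'1
  obtain ⟨l, h1, h2, h3, h4⟩ := hstep J z z' hz' (by linarith)
  refine ⟨l, h1, h2, h3.trans ?_, h4.trans ?_⟩
  · calc c' ^ J * dist z z' ≤ s ^ η * (2 * s) :=
          mul_le_mul hJ.le hzz' dist_nonneg (Real.rpow_nonneg hs0.le _)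
      _ = 2 * s ^ (1 + η) := by
          rw [add_comm 1 η, Real.rpow_add hs0, Real.rpow_one]; ring
      _ ≤ max 2 (C' * 2 ^ η) * s ^ (1 + η) :=
          mul_le_mul_of_nonneg_right (le_max_left _ _) (Real.rpow_nonneg hs0.le _)
  · calc C' * dist z z' ^ η ≤ C' * (2 * s) ^ η :=
          mul_le_mul_of_nonneg_left (Real.rpow_le_rpow dist_nonneg hzz' hη.le) hC'0
      _ = C' * 2 ^ η * s ^ η := by rw [Real.mul_rpow (by norm_num) hs0.le]; ring
      _ ≤ max 2 (C' * 2 ^ η) * s ^ η :=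
          mul_le_mul_of_nonneg_right (le_max_right _ _) (Real.rpow_nonneg hs0.le _)

end Pool.Agent.SKP.HA
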