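import Pool.Agent.Work.MP_adbfe6_an.HA.St

set_option autoImplicit false
set_option linter.unusedSectionVars false
set_option linter.unusedVariables false

open Filter Topology MeasureTheory Metric
open scoped ENNReal NNReal

namespace Pool.Agent.SKP.HA

namespace Iloc

theorem exists_rho (β M s₁ : ℝ) (hβ : 0 < β) (hM : 0 ≤ M) (hs₁ : 0 < s₁) :
    ∃ ρ : ℝ, 0 < ρ ∧ ρ ≤ s₁ / 4 ∧ M * (2 * ρ) ^ β < 1 := by
  have hc : 0 < 2 * (M + 1) := by linarith
  have hx : 0 < 1 / (2 * (M + 1)) := by positivity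
  have hy : 0 < (1 / (2 * (M + 1))) ^ β⁻¹ := Real.rpow_pos_of_pos hx _
  refine ⟨min (s₁ / 4) ((1 / (2 * (M + 1))) ^ β⁻¹ / 2), lt_min (by linarith) (by linarith),
    min_le_left _ _, ?_⟩
  have h1 : 2 * min (s₁ / 4) ((1 / (2 * (M + 1))) ^ β⁻¹ / 2) ≤ (1 / (2 * (M + 1))) ^ β⁻¹ := by
    have := min_le_right (s₁ / 4) ((1 / (2 * (M + 1))) ^ β⁻¹ / 2)
    linarith
  have h0 : 0 ≤ 2 * min (s₁ / 4) ((1 / (2 * (M + 1))) ^ β⁻¹ / 2) := by
    have : 0 < min (s₁ / 4) ((1 / (2 * (M + 1))) ^ β⁻¹ / 2) := lt_min (by linarith) (by linarith)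
    linarith
  have h2 := Real.rpow_le_rpow h0 h1 hβ.le
  rw [Real.rpow_inv_rpow hx.le hβ.ne'] at h2
  calc M * (2 * min (s₁ / 4) ((1 / (2 * (M + 1))) ^ β⁻¹ / 2)) ^ β
      ≤ M * (1 / (2 * (M + 1))) := mul_le_mul_of_nonneg_left h2 hM
    _ < 1 := by
      rw [mul_one_div, div_lt_one hc]; linarith

end Iloc

open Iloc in
theorem i_loc (hscale : S.scale) (hdens : S.dens) : S.loc := by
  intro N _ _ _ _ _ _ _ ν _ hν hu C hC z₀ β C' s₁ hβ hC' hs₁
  set q : ℝ := (1 / 2 : ℝ) ^ β with hq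
  have hq0 : 0 < q := Real.rpow_pos_of_pos (by norm_num) _
  have hq1 : q < 1 := Real.rpow_lt_one (by norm_num) (by norm_num) hβ
  set C'' : ℝ := 2 * C' / (1 - q) with hC''
  have hC''0 : 0 ≤ C'' := div_nonneg (by linarith) (by linarith)
  obtain ⟨ρ, hρ, hρs, hρM⟩ := exists_rho β (C' + 2 * C'') s₁ hβ (by linarith) hs₁
  refine ⟨ρ, hρ, fun X hX hyp => ?_⟩
  -- one step
  have step : ∀ (t : ℝ) (z : N), 0 < t → t ≤ s₁ / 2 → dist z₀ z ≤ s₁ / 2 →
      |TM ν X (t / 2) z - TM ν X t z| ≤ 2 * C' * t ^ β := by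
    intro t z ht hts hz
    have hmono : (t / 2) ^ β ≤ t ^ β := Real.rpow_le_rpow (by linarith) (by linarith) hβ.le
    have h1 : ∀ w, dist z w ≤ t → |TM ν X (t / 2) w - TM ν X (t / 2) z| ≤ C' * t ^ β := by
      intro w hw
      have hzw : dist z₀ w ≤ s₁ := by
        have := dist_triangle z₀ z w
        linarith
      refine (hyp (t / 2) z w (by linarith) (by linarith) (by linarith) hzw (by linarith)).trans ?_
      exact mul_le_mul_of_nonneg_left hmono hC'
    have h2 : ∀ w, dist z w ≤ t / 2 → |TM ν X t w - TM ν X t z| ≤ C' * t ^ β := by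
      intro w hw
      have hzw : dist z₀ w ≤ s₁ := by
        have := dist_triangle z₀ z w
        linarith
      exact hyp t z w ht (by linarith) (by linarith) hzw (by linarith)
    have := hscale ν hu C hC X hX z t (t / 2) (C' * t ^ β) (C' * t ^ β) ht (by linarith) h1 h2
    linarith
  -- sum over the scales
  have hsum : ∀ (k : ℕ) (t : ℝ) (z : N), 0 < t → t ≤ s₁ / 2 → dist z₀ z ≤ s₁ / 2 →
      |TM ν X (t * (1 / 2) ^ k) z - TM ν X t z| ≤ C'' * t ^ β := by
    intro k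
    induction k with
    | zero =>
      intro t z ht hts hz
      rw [pow_zero, mul_one, sub_self, abs_zero]
      exact mul_nonneg hC''0 (Real.rpow_nonneg ht.le _)
    | succ k ih =>
      intro t z ht hts hz
      have h1 := ih (t / 2) z (by linarith) (by linarith) hz
      have h2 := step t z ht hts hz
      have e1 : t / 2 * (1 / 2) ^ k = t * (1 / 2) ^ (k + 1) := by rw [pow_succ]; ring
      rw [e1] at h1
      have e2 : (t / 2) ^ β = q * t ^ β := by
        rw [hq, div_eq_mul_one_div, mul_comm, Real.mul_rpow (by norm_num) ht.le]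
      rw [e2] at h1
      have e3 : C'' * (q * t ^ β) + 2 * C' * t ^ β = C'' * t ^ β := by
        have : C'' * (1 - q) = 2 * C' := by
          rw [hC'']; exact div_mul_cancel₀ _ (by linarith)
        have h3 : 2 * C' * t ^ β = C'' * (1 - q) * t ^ β := by rw [this]
        rw [h3]; ring
      calc |TM ν X (t * (1 / 2) ^ (k + 1)) z - TM ν X t z|
          ≤ |TM ν X (t * (1 / 2) ^ (k + 1)) z - TM ν X (t / 2) z| +
            |TM ν X (t / 2) z - TM ν X t z| := abs_sub_le _ _ _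
        _ ≤ C'' * (q * t ^ β) + 2 * C' * t ^ β := add_le_add h1 h2
        _ = C'' * t ^ β := e3
  by_contra hcon
  rw [not_or] at hcon
  obtain ⟨hn1, hn2⟩ := hcon
  obtain ⟨hd1, hd0⟩ := hdens ν hν C hC X hX (2 * ρ) (by linarith)
  obtain ⟨z, hz, hzX, hzlim⟩ : ∃ z, z ∈ ball z₀ ρ ∧ z ∈ X ∧
      Tendsto (fun k : ℕ => TM ν X (2 * ρ * (1 / 2) ^ k) z) atTop (𝓝 1) := by
    by_contra hc
    push Not at hc
    apply hn1
    refine measure_mono_null ?_ (ae_iff.1 hd1)
    rintro z ⟨hz, hzX⟩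
    intro h
    exact hc z hz hzX (h hzX)
  obtain ⟨z', hz', hzX', hzlim'⟩ : ∃ z, z ∈ ball z₀ ρ ∧ z ∉ X ∧
      Tendsto (fun k : ℕ => TM ν X (2 * ρ * (1 / 2) ^ k) z) atTop (𝓝 0) := by
    by_contra hc
    push Not at hc
    apply hn2
    refine measure_mono_null ?_ (ae_iff.1 hd0)
    rintro z ⟨hz, hzX⟩
    intro h
    exact hc z hz hzX (h hzX)
  have hdz : dist z₀ z < ρ := by rw [dist_comm]; exact hz
  have hdz' : dist z₀ z' < ρ := by rw [dist_comm]; exact hz'
  have a1 : |1 - TM ν X (2 * ρ) z| ≤ C'' * (2 * ρ) ^ β := by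
    have ht : Tendsto (fun k : ℕ => |TM ν X (2 * ρ * (1 / 2) ^ k) z - TM ν X (2 * ρ) z|) atTop
        (𝓝 |1 - TM ν X (2 * ρ) z|) := (hzlim.sub_const _).abs
    exact le_of_tendsto' ht (fun k => hsum k (2 * ρ) z (by linarith) (by linarith) (by linarith))
  have a2 : |0 - TM ν X (2 * ρ) z'| ≤ C'' * (2 * ρ) ^ β := by
    have ht : Tendsto (fun k : ℕ => |TM ν X (2 * ρ * (1 / 2) ^ k) z' - TM ν X (2 * ρ) z'|) atTop
        (𝓝 |0 - TM ν X (2 * ρ) z'|) := (hzlim'.sub_const _).abs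
    exact le_of_tendsto' ht (fun k => hsum k (2 * ρ) z' (by linarith) (by linarith) (by linarith))
  have a3 : |TM ν X (2 * ρ) z' - TM ν X (2 * ρ) z| ≤ C' * (2 * ρ) ^ β := by
    refine hyp (2 * ρ) z z' (by linarith) (by linarith) (by linarith) (by linarith) ?_
    have := dist_triangle_left z z' z₀
    linarith
  rw [abs_le] at a1 a2 a3
  have : (C' + 2 * C'') * (2 * ρ) ^ β = C' * (2 * ρ) ^ β + 2 * (C'' * (2 * ρ) ^ β) := by ring
  rw [this] at hρM
  linarith [a1.1, a1.2, a2.1, a2.2, a3.1, a3.2]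

end Pool.Agent.SKP.HA
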