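import Pool.Agent.Work.MP_adbfe6_an.HA.St

set_option autoImplicit false
set_option linter.unusedSectionVars false

open Filter Topology MeasureTheory
open scoped ENNReal NNReal

namespace Pool.Agent.SKP.HA

theorem i_opn : S.opn := by
  intro B Ws Wu N _ _ _ _ _ _ _ _ _ _ _ _ _ _ _ _ _ _ ν _ lam _ _ D hg hacc x₀ U hU hU0 H X hX h
  have : Nonempty N := by
    by_contra hne
    rw [not_nonempty_iff] at hne
    have h1 : ν Set.univ = 1 := measure_univ
    have h2 : (Set.univ : Set N) = ∅ := Set.univ_eq_empty_iff.2 hne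
    rw [h2, measure_empty] at h1
    exact zero_ne_one h1
  -- the strictly invariant open set
  let I : Type := {l : List (Mv Ws Wu) // (∀ a ∈ l, a.leaf) ∧ D.brun l x₀ = x₀}
  let V : Set N := ⋃ i : I, (D.hol i.1 x₀) ⁻¹' U
  have hVo : ∀ i : I, IsOpen ((D.hol i.1 x₀) ⁻¹' U) := fun i => hU.preimage (D.hol_cont i.1 x₀)
  have hV : MeasurableSet V := (isOpen_iUnion hVo).measurableSet
  have hUV : U ⊆ V := by
    intro z hz
    rw [Set.mem_iUnion]
    exact ⟨⟨[], ⟨fun a ha => by simp at ha, rfl⟩⟩, hz⟩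
  have hVinv : ∀ l : List (Mv Ws Wu), (∀ a ∈ l, a.leaf) → D.brun l x₀ = x₀ →
      ∀ z, D.hol l x₀ z ∈ V ↔ z ∈ V := by
    have key : ∀ l : List (Mv Ws Wu), (∀ a ∈ l, a.leaf) → D.brun l x₀ = x₀ →
        ∀ z, D.hol l x₀ z ∈ V → z ∈ V := by
      intro l hl hlx z hz
      rw [Set.mem_iUnion] at hz ⊢
      obtain ⟨⟨l', hl'1, hl'2⟩, hz'⟩ := hz
      refine ⟨⟨l ++ l', ⟨?_, ?_⟩⟩, ?_⟩
      · intro a ha
        rcases List.mem_append.1 ha with h1 | h1
        · exact hl a h1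
        · exact hl'1 a h1
      · rw [D.brun_append, hlx, hl'2]
      · show D.hol (l ++ l') x₀ z ∈ U
        rw [D.hol_append, hlx]
        exact hz'
    intro l hl hlx z
    refine ⟨key l hl hlx z, fun hz => ?_⟩
    have h1 : D.brun (Two.rev l) x₀ = x₀ := by
      have := D.brun_rev hl x₀
      rwa [hlx] at this
    refine key (Two.rev l) (Two.leaf_rev hl) h1 _ ?_
    have h2 := D.hol_rev hl x₀ z
    rw [hlx] at h2
    rw [h2]
    exact hz
  have hVfull : ν Vᶜ = 0 := by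
    rcases D.strict_trivial hg hacc x₀ hV.nullMeasurableSet hVinv with h1 | h1
    · exact absurd (measure_mono_null hUV h1) hU0
    · exact h1
  obtain ⟨T, hTc, hT⟩ := TopologicalSpace.isOpen_iUnion_countable
    (fun i : I => (D.hol i.1 x₀) ⁻¹' U) hVo
  have hmp : ∀ i : I, MeasurePreserving (D.hol i.1 x₀) ν ν := fun i => D.hol_mp hg i.1 x₀
  have hinv : ∀ i : I, (D.hol i.1 x₀) ⁻¹' X =ᵐ[ν] X := fun i => h i.1 i.2.1 i.2.2
  rcases H X hX h with h1 | h1
  · left
    have h2 : ν (V ∩ X) = 0 := by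
      have e : V ∩ X = ⋃ i ∈ T, ((D.hol i.1 x₀) ⁻¹' U ∩ X) := by
        show (⋃ i : I, (D.hol i.1 x₀) ⁻¹' U) ∩ X = _
        rw [← hT, Set.iUnion₂_inter]
      rw [e, measure_biUnion_null_iff hTc]
      intro i _
      have e2 : ((D.hol i.1 x₀) ⁻¹' U ∩ X : Set N) =ᵐ[ν] (D.hol i.1 x₀) ⁻¹' (U ∩ X) := by
        rw [Set.preimage_inter]
        exact (ae_eq_refl _).inter (hinv i).symm
      rw [measure_congr e2,
        (hmp i).measure_preimage (hU.measurableSet.inter hX).nullMeasurableSet, h1]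
    refine measure_mono_null (t := (V ∩ X) ∪ Vᶜ) (fun z hz => ?_)
      (measure_union_null h2 hVfull)
    by_cases hzV : z ∈ V
    · exact Or.inl ⟨hzV, hz⟩
    · exact Or.inr hzV
  · right
    have h2 : ν (V \ X) = 0 := by
      have e : V \ X = ⋃ i ∈ T, ((D.hol i.1 x₀) ⁻¹' U \ X) := by
        show (⋃ i : I, (D.hol i.1 x₀) ⁻¹' U) \ X = _
        rw [← hT]
        simp only [Set.iUnion_sdiff]
      rw [e, measure_biUnion_null_iff hTc]
      intro i _
      have e2 : ((D.hol i.1 x₀) ⁻¹' U \ X : Set N) =ᵐ[ν] (D.hol i.1 x₀) ⁻¹' (U \ X) := by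
        rw [Set.preimage_sdiff]
        exact (ae_eq_refl _).diff (hinv i).symm
      rw [measure_congr e2,
        (hmp i).measure_preimage (hU.measurableSet.diff hX).nullMeasurableSet, h1]
    refine measure_mono_null (t := (V \ X) ∪ Vᶜ) (fun z hz => ?_)
      (measure_union_null h2 hVfull)
    by_cases hzV : z ∈ V
    · exact Or.inl ⟨hzV, hz⟩
    · exact Or.inr hzV

end Pool.Agent.SKP.HA
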