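import Pool.Agent.Work.MP_adbfe6_an.HA.St

/-!
# Item osc: oscillation of the tent averages of loop invariant sets
-/

set_option autoImplicit false
set_option linter.unusedSectionVars false
set_option linter.unusedVariables false

open Filter Topology MeasureTheory Metric
open scoped ENNReal NNReal

namespace Pool.Agent.SKP.HA

namespace Iosc

theorem exists_scale (c β r₀ : ℝ) (hc : 0 ≤ c) (hβ : 0 < β) (hr₀ : 0 < r₀) :
    ∃ s₁ : ℝ, 0 < s₁ ∧ s₁ ≤ r₀ ∧ ∀ s : ℝ, 0 < s → s ≤ s₁ → c * s ^ β ≤ 1 := by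
  have hc1 : 0 < c + 1 := by linarith
  have h1 : 0 < (1 / (c + 1)) ^ (1 / β) := Real.rpow_pos_of_pos (by positivity) _
  refine ⟨min r₀ ((1 / (c + 1)) ^ (1 / β)), lt_min hr₀ h1, min_le_left _ _, fun s hs hs1 => ?_⟩
  have h2 : s ≤ (1 / (c + 1)) ^ (1 / β) := hs1.trans (min_le_right _ _)
  have h3 : s ^ β ≤ 1 / (c + 1) := by
    calc s ^ β ≤ ((1 / (c + 1)) ^ (1 / β)) ^ β := Real.rpow_le_rpow hs.le h2 hβ.le
      _ = 1 / (c + 1) := by
        rw [← Real.rpow_mul (by positivity), one_div_mul_cancel hβ.ne', Real.rpow_one]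
  calc c * s ^ β ≤ c * (1 / (c + 1)) := mul_le_mul_of_nonneg_left h3 hc
    _ ≤ 1 := by
      rw [mul_one_div, div_le_one hc1]
      linarith

theorem bound_eq (C C₀ η θ s : ℝ) (hs : 0 < s) :
    C * (C₀ * (2 * s) ^ η) * (2 * (2 * s)) ^ θ
      = (C * C₀ * 2 ^ η * 4 ^ θ * s ^ (η + θ - 1)) * s := by
  have h1 : (2 * s) ^ η = 2 ^ η * s ^ η := Real.mul_rpow (by norm_num) hs.le
  have h2 : (2 * (2 * s)) ^ θ = 4 ^ θ * s ^ θ := by
    rw [← mul_assoc, Real.mul_rpow (by norm_num) hs.le]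
    norm_num
  have h3 : s ^ (η + θ - 1) * s = s ^ η * s ^ θ := by
    rw [← Real.rpow_add hs]
    conv_lhs => rw [← Real.rpow_one s, ← Real.rpow_mul hs.le, one_mul]
    rw [← Real.rpow_add hs]
    congr 1
    ring
  rw [h1, h2]
  calc C * (C₀ * (2 ^ η * s ^ η)) * (4 ^ θ * s ^ θ)
      = C * C₀ * 2 ^ η * 4 ^ θ * (s ^ η * s ^ θ) := by ring
    _ = C * C₀ * 2 ^ η * 4 ^ θ * (s ^ (η + θ - 1) * s) := by rw [h3]
    _ = _ := by ring

end Iosc

theorem i_osc (hcmp : S.cmp) (hpath : S.path) : S.osc := by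
  intro B Ws Wu N _ _ _ _ _ _ _ _ _ _ _ _ _ _ _ _ _ ν _ D hg C₁ hT C θ η hC hθ hη hηθ hs hu
    x₀ z₀ r₀ C₀ hr₀ hloc
  have hβ : 0 < η + θ - 1 := by linarith
  set c : ℝ := C * |C₀| * 2 ^ η * 4 ^ θ with hc_def
  have hc : 0 ≤ c := by
    have h1 : (0 : ℝ) < 2 ^ η := Real.rpow_pos_of_pos (by norm_num) _
    have h2 : (0 : ℝ) < 4 ^ θ := Real.rpow_pos_of_pos (by norm_num) _
    positivity
  obtain ⟨s₁, hs₁, hs₁r, hsmall⟩ := Iosc.exists_scale c (η + θ - 1) r₀ hc hβ hr₀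
  refine ⟨s₁, C₁ * c, hs₁, mul_nonneg hT.C_pos.le hc, ?_⟩
  intro X hX hinv s z z' hs0 hss₁ hz hz' hzz'
  obtain ⟨l, hl, hlb, hlz, hlen⟩ := hloc z z' (hz.trans hs₁r) (hz'.trans hs₁r)
  have : Nonempty N := ⟨z₀⟩
  have hmp : MeasurePreserving (D.hol l x₀) ν ν := by
    let _ : MeasurableSpace Ws := borel Ws
    let _ : MeasurableSpace Wu := borel Wu
    have : BorelSpace Ws := ⟨rfl⟩
    have : BorelSpace Wu := ⟨rfl⟩
    exact D.hol_mp hg l x₀
  have hε : 0 ≤ c * s ^ (η + θ - 1) := mul_nonneg hc (Real.rpow_nonneg hs0.le _)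
  have hε1 : c * s ^ (η + θ - 1) ≤ 1 := hsmall s hs0 hss₁
  -- the error
  have hE : C * plen l * (2 * (2 * s)) ^ θ ≤ (c * s ^ (η + θ - 1)) * s := by
    have h1 : plen l ≤ |C₀| * (2 * s) ^ η := by
      refine hlen.trans ?_
      have h2 : dist z z' ^ η ≤ (2 * s) ^ η := Real.rpow_le_rpow dist_nonneg hzz' hη.le
      exact mul_le_mul (le_abs_self C₀) h2 (Real.rpow_nonneg dist_nonneg _) (abs_nonneg _)
    calc C * plen l * (2 * (2 * s)) ^ θ
        ≤ C * (|C₀| * (2 * s) ^ η) * (2 * (2 * s)) ^ θ :=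
          mul_le_mul_of_nonneg_right (mul_le_mul_of_nonneg_left h1 hC)
            (Real.rpow_nonneg (by positivity) _)
      _ = (c * s ^ (η + θ - 1)) * s := by rw [Iosc.bound_eq C |C₀| η θ s hs0]
  have hEs : (c * s ^ (η + θ - 1)) * s ≤ s := by
    calc (c * s ^ (η + θ - 1)) * s ≤ 1 * s := mul_le_mul_of_nonneg_right hε1 hs0.le
      _ = s := one_mul s
  obtain ⟨hrev, hp⟩ := hpath D C θ hC hθ hs hu l hl x₀
  have hbrev : D.brun (Two.rev l) x₀ = x₀ := by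
    have h1 := D.brun_rev hl x₀
    rwa [hlb] at h1
  have hhrev : ∀ y, D.hol (Two.rev l) x₀ (D.hol l x₀ y) = y := by
    intro y
    have h1 := D.hol_rev hl x₀ y
    rwa [hlb] at h1
  have hres := hcmp ν C₁ hT X hX (D.hol l x₀) hmp (hinv l hl hlb) z z' s
    (c * s ^ (η + θ - 1)) hs0 hε (by
      intro y hy
      have h1 := hp (2 * s) z y (by positivity) hy (by linarith)
      rw [hlz] at h1
      exact h1.trans hE) (by
      intro y hy
      by_contra hcon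
      push Not at hcon
      obtain ⟨-, hp'⟩ := hpath D C θ hC hθ hs hu (Two.rev l) (Two.leaf_rev hl) x₀
      have h1 := hp' (2 * s) z' (D.hol l x₀ y) (by positivity) (by linarith) (by
        rw [hrev]
        linarith)
      have h2 : D.hol (Two.rev l) x₀ z' = z := by rw [← hlz, hhrev]
      rw [h2, hhrev, hrev] at h1
      have h3 := (abs_le.1 h1).2
      linarith)
  calc |TM ν X s z' - TM ν X s z| ≤ C₁ * (c * s ^ (η + θ - 1)) := hres
    _ = C₁ * c * s ^ (η + θ - 1) := by ring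

end Pool.Agent.SKP.HA
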