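import Pool.Agent.Work.MP_adbfe6_an.HA.St2

/-!
# Item oscb: oscillation of the tent averages of loop invariant sets, general form
-/

set_option autoImplicit false
set_option linter.unusedSectionVars false
set_option linter.unusedVariables false

open Filter Topology MeasureTheory Metric
open scoped ENNReal NNReal

namespace Pool.Agent.SKP.HA

namespace Ioscb

theorem exists_scale (c β r₀ : ℝ) (hc : 0 ≤ c) (hβ : 0 < β) (hr₀ : 0 < r₀) :
    ∃ s₁ : ℝ, 0 < s₁ ∧ s₁ ≤ r₀ ∧ ∀ s : ℝ, 0 < s → s ≤ s₁ → c * s ^ β ≤ 1 := by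
  have hc1 : 0 < c + 1 := by linarith
  have h1 : 0 < (1 / (c + 1)) ^ (1 / β) := Real.rpow_pos_of_pos (by positivity) _
  refine ⟨min r₀ ((1 / (c + 1)) ^ (1 / β)), lt_min hr₀ h1, min_le_left _ _, fun s hs hs1 => ?_⟩
  have h2 : s ≤ (1 / (c + 1)) ^ (1 / β) := hs1.trans (min_le_right _ _)
  have h3 : s ^ β ≤ 1 / (c + 1) := by
    calc s ^ β ≤ ((1 / (c + 1)) ^ (1 / β)) ^ β := Real.rpow_le_rpow hs.le h2 hβ.le
      _ = 1 / (c + 1) := by
        rw [← Real.rpow_mul (by positivity), one_div_mul_cancel hβ.ne', Real.rpow_one]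
  calc c * s ^ β ≤ c * (1 / (c + 1)) := mul_le_mul_of_nonneg_left h3 hc
    _ ≤ 1 := by
      rw [mul_one_div, div_le_one hc1]
      linarith

theorem bound_le {C c₀ η θ τ β s : ℝ} (hC : 0 ≤ C) (hc₀ : 0 < c₀) (hs : 0 < s) (hs1 : s ≤ 1)
    (hβ1 : β ≤ η) (hβ2 : β ≤ (1 + τ) * η + θ - 1) :
    C * (c₀ * (2 * s) ^ η) * (2 * (2 * s) + (c₀ * (2 * s) ^ η) ^ τ * (2 * (2 * s)) ^ θ)
      ≤ (C * (4 * (c₀ * 2 ^ η) + (c₀ * 2 ^ η) ^ (1 + τ) * 4 ^ θ) * s ^ β) * s := by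
  set a : ℝ := c₀ * 2 ^ η with ha
  have ha0 : 0 < a := mul_pos hc₀ (Real.rpow_pos_of_pos (by norm_num) _)
  have h1 : c₀ * (2 * s) ^ η = a * s ^ η := by
    rw [Real.mul_rpow (by norm_num) hs.le, ha]
    ring
  have h2 : (2 * (2 * s)) ^ θ = 4 ^ θ * s ^ θ := by
    rw [← mul_assoc, Real.mul_rpow (by norm_num) hs.le]
    norm_num
  have hsη : 0 < s ^ η := Real.rpow_pos_of_pos hs _
  have h3 : (a * s ^ η) ^ τ = a ^ τ * s ^ (η * τ) := by
    rw [Real.mul_rpow ha0.le hsη.le, ← Real.rpow_mul hs.le]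
  have h4 : a ^ (1 + τ) = a * a ^ τ := by
    rw [Real.rpow_add ha0, Real.rpow_one]
  have h5 : s ^ η ≤ s ^ β := Real.rpow_le_rpow_of_exponent_ge hs hs1 hβ1
  have h6 : s ^ η * s ^ (η * τ) * s ^ θ ≤ s ^ β * s := by
    calc s ^ η * s ^ (η * τ) * s ^ θ = s ^ ((1 + τ) * η + θ - 1) * s := by
          rw [← Real.rpow_add hs, ← Real.rpow_add hs]
          nth_rewrite 3 [← Real.rpow_one s]
          rw [← Real.rpow_add hs]
          congr 1
          ring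
      _ ≤ s ^ β * s :=
          mul_le_mul_of_nonneg_right (Real.rpow_le_rpow_of_exponent_ge hs hs1 hβ2) hs.le
  have haτ : 0 < a ^ τ := Real.rpow_pos_of_pos ha0 _
  have h4θ : (0 : ℝ) < 4 ^ θ := Real.rpow_pos_of_pos (by norm_num) _
  rw [h1, h2, h3, h4]
  calc C * (a * s ^ η) * (2 * (2 * s) + a ^ τ * s ^ (η * τ) * (4 ^ θ * s ^ θ))
      = C * (4 * a * (s ^ η * s) + a * a ^ τ * 4 ^ θ * (s ^ η * s ^ (η * τ) * s ^ θ)) := by ring
    _ ≤ C * (4 * a * (s ^ β * s) + a * a ^ τ * 4 ^ θ * (s ^ β * s)) := by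
        refine mul_le_mul_of_nonneg_left (add_le_add ?_ ?_) hC
        · exact mul_le_mul_of_nonneg_left (mul_le_mul_of_nonneg_right h5 hs.le) (by positivity)
        · exact mul_le_mul_of_nonneg_left h6 (by positivity)
    _ = _ := by ring

end Ioscb

theorem i_oscb (hcmp : S.cmp) : S.oscb := by
  intro B Ws Wu N _ _ _ _ _ _ _ _ _ _ _ _ _ _ _ _ _ ν _ D hg C₁ hT x₀ z₀ C θ η τ r₀ C₀
    hC hθ hη hτ hητ hr₀ hrev hd hloc
  obtain ⟨β, hβdef⟩ : ∃ β : ℝ, β = min η ((1 + τ) * η + θ - 1) := ⟨_, rfl⟩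
  have hβ : 0 < β := by rw [hβdef]; exact lt_min hη (by linarith)
  have hβ1 : β ≤ η := by rw [hβdef]; exact min_le_left _ _
  have hβ2 : β ≤ (1 + τ) * η + θ - 1 := by rw [hβdef]; exact min_le_right _ _
  obtain ⟨c₀, hc₀def⟩ : ∃ c₀ : ℝ, c₀ = |C₀| + 1 := ⟨_, rfl⟩
  have hc₀ : 0 < c₀ := by rw [hc₀def]; positivity
  obtain ⟨c, hc_def⟩ : ∃ c : ℝ, c = C * (4 * (c₀ * 2 ^ η) + (c₀ * 2 ^ η) ^ (1 + τ) * 4 ^ θ) :=
    ⟨_, rfl⟩
  have hc : 0 ≤ c := by
    have h1 : (0 : ℝ) < 2 ^ η := Real.rpow_pos_of_pos (by norm_num) _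
    have h2 : (0 : ℝ) < 4 ^ θ := Real.rpow_pos_of_pos (by norm_num) _
    have h3 : 0 < (c₀ * 2 ^ η) ^ (1 + τ) := Real.rpow_pos_of_pos (by positivity) _
    rw [hc_def]
    positivity
  obtain ⟨s₁, hs₁, hs₁r, hsmall⟩ := Ioscb.exists_scale c β (min r₀ 1) hc hβ (lt_min hr₀ one_pos)
  refine ⟨s₁, C₁ * c, β, hs₁, mul_nonneg hT.C_pos.le hc, hβ, ?_⟩
  intro X hX hinv s z z' hs0 hss₁ hz hz' hzz'
  have hr1 : s₁ ≤ r₀ := hs₁r.trans (min_le_left _ _)
  have hr2 : s ≤ 1 := (hss₁.trans hs₁r).trans (min_le_right _ _)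
  obtain ⟨l, hl, hlb, hlz, hlen⟩ := hloc z z' (hz.trans hr1) (hz'.trans hr1)
  have : Nonempty N := ⟨z₀⟩
  have hmp : MeasurePreserving (D.hol l x₀) ν ν := by
    let _ : MeasurableSpace Ws := borel Ws
    let _ : MeasurableSpace Wu := borel Wu
    have : BorelSpace Ws := ⟨rfl⟩
    have : BorelSpace Wu := ⟨rfl⟩
    exact D.hol_mp hg l x₀
  have hε : 0 ≤ c * s ^ β := mul_nonneg hc (Real.rpow_nonneg hs0.le _)
  have hε1 : c * s ^ β ≤ 1 := hsmall s hs0 hss₁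
  have hEs : (c * s ^ β) * s ≤ s := by
    calc (c * s ^ β) * s ≤ 1 * s := mul_le_mul_of_nonneg_right hε1 hs0.le
      _ = s := one_mul s
  obtain ⟨L, hLdef⟩ : ∃ L : ℝ, L = c₀ * (2 * s) ^ η := ⟨_, rfl⟩
  have hLpos : 0 < L := by
    rw [hLdef]
    exact mul_pos hc₀ (Real.rpow_pos_of_pos (by positivity) _)
  have hlL : plen l ≤ L := by
    refine hlen.trans ?_
    have h2 : dist z z' ^ η ≤ (2 * s) ^ η := Real.rpow_le_rpow dist_nonneg hzz' hη.le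
    rw [hLdef]
    refine mul_le_mul ?_ h2 (Real.rpow_nonneg dist_nonneg _) hc₀.le
    rw [hc₀def]
    have := le_abs_self C₀
    linarith
  -- the error
  have hE : C * L * (2 * (2 * s) + L ^ τ * (2 * (2 * s)) ^ θ) ≤ (c * s ^ β) * s := by
    rw [hLdef, hc_def]
    exact Ioscb.bound_le hC hc₀ hs0 hr2 hβ1 hβ2
  have hbrev : D.brun (Two.rev l) x₀ = x₀ := by
    have h1 := D.brun_rev hl x₀
    rwa [hlb] at h1
  have hhrev : ∀ y, D.hol (Two.rev l) x₀ (D.hol l x₀ y) = y := by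
    intro y
    have h1 := D.hol_rev hl x₀ y
    rwa [hlb] at h1
  have hres := hcmp ν C₁ hT X hX (D.hol l x₀) hmp (hinv l hl hlb) z z' s
    (c * s ^ β) hs0 hε (by
      intro y hy
      have h1 := hd l hl L (2 * s) z y hlL hLpos (by positivity) hy (by linarith)
      rw [hlz] at h1
      exact h1.trans hE) (by
      intro y hy
      by_contra hcon
      push Not at hcon
      have h1 := hd (Two.rev l) (Two.leaf_rev hl) L (2 * s) z' (D.hol l x₀ y)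
        (by rw [hrev l hl]; exact hlL) hLpos (by positivity) (by linarith) (by linarith)
      have h2 : D.hol (Two.rev l) x₀ z' = z := by rw [← hlz, hhrev]
      rw [h2, hhrev] at h1
      have h3 := (abs_le.1 h1).2
      linarith)
  calc |TM ν X s z' - TM ν X s z| ≤ C₁ * (c * s ^ β) := hres
    _ = C₁ * c * s ^ β := by ring

end Pool.Agent.SKP.HA
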