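import Pool.Agent.Work.MP_adbfe6_an.HA.St

set_option autoImplicit false
set_option linter.unusedSectionVars false
set_option linter.unusedVariables false

open Filter Topology MeasureTheory Metric
open scoped ENNReal NNReal

namespace Pool.Agent.SKP.HA

namespace Ipath

theorem mlen_nonneg {Ws Wu : Type} [NormedAddCommGroup Ws] [NormedAddCommGroup Wu]
    (a : Mv Ws Wu) : 0 ≤ mlen a := by
  cases a with
  | s v => exact norm_nonneg v
  | u w => exact norm_nonneg w
  | f => exact le_rfl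

theorem plen_nonneg {Ws Wu : Type} [NormedAddCommGroup Ws] [NormedAddCommGroup Wu]
    (l : List (Mv Ws Wu)) : 0 ≤ plen l := by
  unfold plen
  apply List.sum_nonneg
  intro x hx
  obtain ⟨a, -, rfl⟩ := List.mem_map.1 hx
  exact mlen_nonneg a

theorem mlen_inv {Ws Wu : Type} [NormedAddCommGroup Ws] [NormedAddCommGroup Wu]
    (a : Mv Ws Wu) : mlen a.inv = mlen a := by
  cases a with
  | s v => exact norm_neg v
  | u w => exact norm_neg w
  | f => rfl

theorem plen_rev {Ws Wu : Type} [NormedAddCommGroup Ws] [NormedAddCommGroup Wu]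
    (l : List (Mv Ws Wu)) : plen (Two.rev l) = plen l := by
  unfold plen Two.rev
  rw [List.map_reverse, List.sum_reverse, List.map_map]
  congr 1
  apply List.map_congr_left
  intro a _
  exact mlen_inv a

theorem plen_cons {Ws Wu : Type} [NormedAddCommGroup Ws] [NormedAddCommGroup Wu]
    (a : Mv Ws Wu) (l : List (Mv Ws Wu)) : plen (a :: l) = mlen a + plen l := by
  unfold plen
  rw [List.map_cons, List.sum_cons]

theorem key {B Ws Wu N : Type} [NormedAddCommGroup B] [CompactSpace B] [NormedAddCommGroup Ws]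
    [NormedAddCommGroup Wu] [Group N] [MetricSpace N] [CompactSpace N] [IsIsometricSMul N N]
    (D : Two B Ws Wu N) (C θ : ℝ) (hC : 0 ≤ C) (hθ : 0 < θ)
    (hs : ∀ (v : Ws) (x : B), Dist (D.s.S v x) (C * ‖v‖) θ)
    (hu : ∀ (w : Wu) (x : B), Dist (D.u.S w x) (C * ‖w‖) θ) (r : ℝ) (hr : 0 ≤ r) (t : N)
    (ht : dist 1 t ≤ r) (l : List (Mv Ws Wu)) (hl : ∀ a ∈ l, a.leaf) :
    ∀ (x : B) (z y : N) (e : ℝ), 0 ≤ e → dist (z⁻¹ * y) t ≤ e →
      e + C * plen l * (2 * r) ^ θ ≤ r →
      dist ((D.hol l x z)⁻¹ * D.hol l x y) t ≤ e + C * plen l * (2 * r) ^ θ := by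
  induction l with
  | nil =>
    intro x z y e he h1 h2
    show dist (z⁻¹ * y) t ≤ _
    have : plen ([] : List (Mv Ws Wu)) = 0 := rfl
    rw [this, mul_zero, zero_mul, add_zero]
    exact h1
  | cons a l ih =>
    intro x z y e he h1 h2
    have hl' : ∀ b ∈ l, b.leaf := fun b hb => hl b (List.mem_cons_of_mem a hb)
    have ha : a.leaf := hl a List.mem_cons_self
    rw [plen_cons] at h2 ⊢
    have hp : 0 ≤ (2 * r) ^ θ := Real.rpow_nonneg (by linarith) _
    have hpl : 0 ≤ C * plen l * (2 * r) ^ θ :=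
      mul_nonneg (mul_nonneg hC (plen_nonneg l)) hp
    have hml : 0 ≤ C * mlen a * (2 * r) ^ θ :=
      mul_nonneg (mul_nonneg hC (mlen_nonneg a)) hp
    have hsplit : C * (mlen a + plen l) * (2 * r) ^ θ =
      C * mlen a * (2 * r) ^ θ + C * plen l * (2 * r) ^ θ := by ring
    rw [hsplit] at h2 ⊢
    have hzy : dist z y ≤ 2 * r := by
      have e1 : dist z y = dist 1 (z⁻¹ * y) := by
        have := dist_mul_left z 1 (z⁻¹ * y)
        rw [mul_one, mul_inv_cancel_left] at this
        exact this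
      rw [e1]
      have := dist_triangle 1 t (z⁻¹ * y)
      rw [dist_comm t] at this
      linarith
    have hd : dist ((D.fact a x z)⁻¹ * D.fact a x y) (z⁻¹ * y) ≤ C * mlen a * (2 * r) ^ θ := by
      have h3 : dist z y ^ θ ≤ (2 * r) ^ θ := Real.rpow_le_rpow dist_nonneg hzy hθ.le
      have h4 : dist ((D.fact a x z)⁻¹ * D.fact a x y) (z⁻¹ * y) ≤ C * mlen a * dist z y ^ θ := by
        cases a with
        | s v => exact hs v x z y
        | u w => exact hu w x z y
        | f => exact absurd ha (fun h => h)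
      exact h4.trans (mul_le_mul_of_nonneg_left h3 (mul_nonneg hC (mlen_nonneg a)))
    have h5 : dist ((D.fact a x z)⁻¹ * D.fact a x y) t ≤ e + C * mlen a * (2 * r) ^ θ := by
      have := dist_triangle ((D.fact a x z)⁻¹ * D.fact a x y) (z⁻¹ * y) t
      linarith
    have h6 := ih hl' (D.bact a x) (D.fact a x z) (D.fact a x y) (e + C * mlen a * (2 * r) ^ θ)
      (by linarith) h5 (by linarith)
    have h7 : e + (C * mlen a * (2 * r) ^ θ + C * plen l * (2 * r) ^ θ) =
      e + C * mlen a * (2 * r) ^ θ + C * plen l * (2 * r) ^ θ := by ring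
    rw [h7]
    exact h6

end Ipath

open Ipath in
theorem i_path : S.path := by
  intro B Ws Wu N _ _ _ _ _ _ _ _ _ D C θ hC hθ hs hu l hl x
  refine ⟨plen_rev l, fun r z y hr hzy hr2 => ?_⟩
  have e1 : ∀ a b : N, dist a b = dist 1 (a⁻¹ * b) := by
    intro a b
    have := dist_mul_left a 1 (a⁻¹ * b)
    rw [mul_one, mul_inv_cancel_left] at this
    exact this
  have h1 := key D C θ hC hθ hs hu r hr (z⁻¹ * y) (by rw [← e1]; exact hzy) l hl x z y 0 le_rfl
    (by rw [dist_self]) (by rw [zero_add]; exact hr2)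
  rw [zero_add] at h1
  rw [e1 (D.hol l x z), e1 z y]
  have h2 := abs_dist_sub_le ((D.hol l x z)⁻¹ * D.hol l x y) (z⁻¹ * y) 1
  rw [dist_comm _ (1 : N), dist_comm (z⁻¹ * y) (1 : N)] at h2
  exact h2.trans h1

end Pool.Agent.SKP.HA
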