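import Pool.Agent.Work.MP_adbfe6_an.HA.St

/-!
# Block HA, item scale: comparison of the tent averages at two scales
-/

set_option autoImplicit false
set_option linter.unusedSectionVars false
set_option linter.unusedVariables false

open Filter Topology MeasureTheory Metric
open scoped ENNReal NNReal

namespace Pool.Agent.SKP

namespace HA

namespace Iscale

theorem tent_nonneg (r t : ℝ) : 0 ≤ tent r t := le_max_left _ _

theorem tent_cont (r : ℝ) : Continuous (tent r) :=
  continuous_const.max (continuous_const.sub continuous_id)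

theorem tent_zero {r t : ℝ} (h : r ≤ t) : tent r t = 0 := max_eq_left (by linarith)

theorem tent_abs_le (r : ℝ) {t : ℝ} (ht : 0 ≤ t) : ‖tent r t‖ ≤ |r| := by
  rw [Real.norm_eq_abs, abs_of_nonneg (tent_nonneg r t)]
  exact max_le (abs_nonneg r) (by linarith [le_abs_self r])

variable {N : Type} [MetricSpace N] [CompactSpace N] [MeasurableSpace N] [BorelSpace N]
  (ν : Measure N) [IsProbabilityMeasure ν]

/-- The integral over a compact space of a continuous function exists. -/
theorem integrable_cont {μ : Measure N} [IsFiniteMeasure μ] {f : N → ℝ} (hf : Continuous f) :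
    Integrable f μ := by
  have : SecondCountableTopology N := EMetric.secondCountable_of_sigmaCompact N
  exact hf.integrable_of_hasCompactSupport (HasCompactSupport.of_compactSpace _)

theorem TI_cont (X : Set N) (s : ℝ) : Continuous (fun w : N => TI ν X s w) := by
  unfold TI
  refine continuous_of_dominated (bound := fun _ => |s|) (fun w => ?_) (fun w => ?_) ?_ ?_
  · exact ((tent_cont s).comp (continuous_const.dist continuous_id)).aestronglyMeasurable
  · exact Eventually.of_forall fun y => tent_abs_le s dist_nonneg
  · exact integrable_const _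
  · exact Eventually.of_forall fun y => (tent_cont s).comp (continuous_id.dist continuous_const)

/-- The double integral. -/
theorem double (X : Set N) (z : N) (r s : ℝ) :
    ∫ w, TI ν X s w * tent r (dist z w) ∂ν =
      ∫ y in X, (∫ w, tent s (dist w y) * tent r (dist z w) ∂ν) ∂ν := by
  have : SecondCountableTopology N := EMetric.secondCountable_of_sigmaCompact N
  have h1 : ∀ w, TI ν X s w * tent r (dist z w) =
      ∫ y in X, tent s (dist w y) * tent r (dist z w) ∂ν := by
    intro w
    unfold TI
    rw [integral_mul_const]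
  simp only [h1]
  have hc : Continuous (Function.uncurry fun (w y : N) =>
      tent s (dist w y) * tent r (dist z w)) :=
    ((tent_cont s).comp (continuous_fst.dist continuous_snd)).mul
      ((tent_cont r).comp (continuous_const.dist continuous_fst))
  exact integral_integral_swap
    (hc.integrable_of_hasCompactSupport (HasCompactSupport.of_compactSpace _))

/-- One side of the comparison. -/
theorem side {C : ℝ} (hC : TOK ν C) (X : Set N) (z : N) (r s e : ℝ) (hr : 0 < r) (hs : 0 < s)
    (h1 : ∀ w, dist z w ≤ r → |TM ν X s w - TM ν X s z| ≤ e) :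
    |(∫ w, TI ν X s w * tent r (dist z w) ∂ν) - TM ν X s z * (TV ν r z * TV ν s z)| ≤
      e * (TV ν r z * TV ν s z) := by
  have hVs : 0 < TV ν s z := hC.pos s z hs
  have hVr : 0 < TV ν r z := hC.pos r z hr
  have hTM : ∀ w, TI ν X s w = TM ν X s w * TV ν s z := by
    intro w
    unfold TM
    rw [hC.eq s w z, div_mul_cancel₀ _ hVs.ne']
  have hct : Continuous fun w : N => tent r (dist z w) :=
    (tent_cont r).comp (continuous_const.dist continuous_id)
  have hi1 : Integrable (fun w : N => TI ν X s w * tent r (dist z w)) ν :=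
    integrable_cont ((TI_cont ν X s).mul hct)
  have hi2 : Integrable (fun w : N => tent r (dist z w)) ν := integrable_cont hct
  have e1 : TM ν X s z * (TV ν r z * TV ν s z) =
      ∫ w, (TM ν X s z * TV ν s z) * tent r (dist z w) ∂ν := by
    rw [integral_const_mul]
    unfold TV
    ring
  have e2 : e * (TV ν r z * TV ν s z) = ∫ w, (e * TV ν s z) * tent r (dist z w) ∂ν := by
    rw [integral_const_mul]
    unfold TV
    ring
  rw [e1, e2, ← integral_sub hi1 (hi2.const_mul _), ← Real.norm_eq_abs]
  refine norm_integral_le_of_norm_le (hi2.const_mul _) (Eventually.of_forall fun w => ?_)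
  rw [Real.norm_eq_abs, hTM w]
  have e3 : TM ν X s w * TV ν s z * tent r (dist z w) -
      TM ν X s z * TV ν s z * tent r (dist z w) =
      (TM ν X s w - TM ν X s z) * (TV ν s z * tent r (dist z w)) := by ring
  rw [e3, abs_mul, abs_of_nonneg (mul_nonneg hVs.le (tent_nonneg r _))]
  by_cases hw : dist z w ≤ r
  · calc |TM ν X s w - TM ν X s z| * (TV ν s z * tent r (dist z w))
        ≤ e * (TV ν s z * tent r (dist z w)) :=
          mul_le_mul_of_nonneg_right (h1 w hw) (mul_nonneg hVs.le (tent_nonneg r _))
      _ = _ := by ring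
  · rw [tent_zero (not_le.1 hw).le]
    simp

end Iscale

open Iscale in
theorem i_scale : S.scale := by
  intro N _ _ _ _ _ _ _ ν _ hu C hC X hX z r s e₁ e₂ hr hs h1 h2
  have hVs : 0 < TV ν s z := hC.pos s z hs
  have hVr : 0 < TV ν r z := hC.pos r z hr
  have a1 := side ν hC X z r s e₁ hr hs h1
  have a2 := side ν hC X z s r e₂ hs hr h2
  have key : ∫ w, TI ν X s w * tent r (dist z w) ∂ν = ∫ w, TI ν X r w * tent s (dist z w) ∂ν := by
    rw [double, double]
    congr 1
    ext y
    have hmp := hu z y
    have hc : Continuous fun w : N => tent s (dist w y) * tent r (dist z w) :=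
      ((tent_cont s).comp (continuous_id.dist continuous_const)).mul
        ((tent_cont r).comp (continuous_const.dist continuous_id))
    have h3 : ∫ w, tent s (dist w y) * tent r (dist z w) ∂ν =
        ∫ w, tent s (dist (z * w⁻¹ * y) y) * tent r (dist z (z * w⁻¹ * y)) ∂ν := by
      have h4 := integral_map (μ := ν) (φ := fun w : N => z * w⁻¹ * y)
        (f := fun w : N => tent s (dist w y) * tent r (dist z w)) hmp.measurable.aemeasurable
        (hc.aestronglyMeasurable)
      rw [hmp.map_eq] at h4
      exact h4
    rw [h3]
    congr 1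
    ext w
    have d1 : dist (z * w⁻¹ * y) y = dist z w := by
      have h5 : dist (z * w⁻¹ * y) (1 * y) = dist (z * w⁻¹) 1 := dist_mul_right _ _ _
      rw [one_mul] at h5
      have h6 : dist (z * w⁻¹) (w * w⁻¹) = dist z w := dist_mul_right _ _ _
      rw [mul_inv_cancel] at h6
      rw [h5, h6]
    have d2 : dist z (z * w⁻¹ * y) = dist w y := by
      have h5 : dist (z * w⁻¹ * w) (z * w⁻¹ * y) = dist w y := dist_mul_left _ _ _
      rw [inv_mul_cancel_right] at h5
      exact h5
    rw [d1, d2, mul_comm]
  rw [key] at a1
  set I := ∫ w, TI ν X r w * tent s (dist z w) ∂ν with hI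
  set V := TV ν r z * TV ν s z with hV
  have hVpos : 0 < V := mul_pos hVr hVs
  have a2' : |I - TM ν X r z * V| ≤ e₂ * V := by
    rw [hV, mul_comm (TV ν r z)]
    exact a2
  have h6 : |(TM ν X s z - TM ν X r z) * V| ≤ (e₁ + e₂) * V := by
    have e4 : (TM ν X s z - TM ν X r z) * V =
        (I - TM ν X r z * V) - (I - TM ν X s z * V) := by ring
    rw [e4]
    calc _ ≤ |I - TM ν X r z * V| + |I - TM ν X s z * V| := abs_sub _ _
      _ ≤ e₂ * V + e₁ * V := add_le_add a2' a1
      _ = _ := by ring
  rw [abs_mul, abs_of_pos hVpos] at h6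
  exact le_of_mul_le_mul_right h6 hVpos

end HA

end Pool.Agent.SKP
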