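import Pool.Agent.Work.MP_adbfe6_an.HA.St

/-!
# `su`-paths as lists of moves
-/

set_option autoImplicit false

open Filter Topology MeasureTheory Metric
open scoped ENNReal NNReal

namespace Pool.Agent.SKP

namespace HA

namespace Ispath

theorem plen_append {Ws Wu : Type} [NormedAddCommGroup Ws] [NormedAddCommGroup Wu]
    (l : List (Mv Ws Wu)) (a : Mv Ws Wu) : plen (l ++ [a]) = plen l + mlen a := by
  unfold plen
  rw [List.map_append, List.sum_append]
  simp

theorem leaf_append {Ws Wu : Type} (l : List (Mv Ws Wu)) (a : Mv Ws Wu)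
    (hl : ∀ b ∈ l, b.leaf) (ha : a.leaf) : ∀ b ∈ l ++ [a], b.leaf := by
  intro b hb
  rcases List.mem_append.1 hb with h | h
  · exact hl b h
  · rw [List.mem_singleton.1 h]; exact ha

end Ispath

theorem i_spath : S.spath := by
  intro d N _ _ A D p q L h
  induction h with
  | refl => exact ⟨[], fun a ha => by simp at ha, rfl, by simp [plen]⟩
  | stable _ v hv q' h1 h2 ih =>
    obtain ⟨l, hl, hrun, hlen⟩ := ih
    refine ⟨l ++ [Mv.s ⟨v, hv⟩], Ispath.leaf_append l _ hl trivial, ?_, ?_⟩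
    · rw [D.two.run_append, hrun]
      exact ((D.two.s.eq_T_iff ⟨v, hv⟩ _ q' h1).2 h2).symm
    · rw [Ispath.plen_append, hlen]
      rfl
  | unstable _ v hv q' h1 h2 ih =>
    obtain ⟨l, hl, hrun, hlen⟩ := ih
    refine ⟨l ++ [Mv.u ⟨v, hv⟩], Ispath.leaf_append l _ hl trivial, ?_, ?_⟩
    · rw [D.two.run_append, hrun]
      exact ((D.two.u.eq_T_iff ⟨v, hv⟩ _ q' h1).2 h2).symm
    · rw [Ispath.plen_append, hlen]
      rfl

end HA

end Pool.Agent.SKP
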