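import Pool.Agent.Work.MP_adbfe6_an.HA.St

set_option autoImplicit false

open Filter Topology MeasureTheory Metric
open scoped ENNReal NNReal

namespace Pool.Agent.SKP.HA

namespace Itv

variable {N : Type} [MetricSpace N]

theorem cont (r : ℝ) (z : N) : Continuous (fun y : N => tent r (dist z y)) := by
  show Continuous (fun y : N => max 0 (r - dist z y))
  exact continuous_const.max (continuous_const.sub (continuous_const.dist continuous_id))

theorem int [CompactSpace N] [MeasurableSpace N] [BorelSpace N] (ν : Measure N)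
    [IsProbabilityMeasure ν] (r : ℝ) (z : N) :
    Integrable (fun y : N => tent r (dist z y)) ν :=
  (cont r z).integrable_of_hasCompactSupport (HasCompactSupport.of_compactSpace _)

theorem lower [CompactSpace N] [MeasurableSpace N] [BorelSpace N] (ν : Measure N)
    [IsProbabilityMeasure ν] (r : ℝ) (z : N) :
    r / 2 * ν.real (closedBall z (r / 2)) ≤ TV ν r z := by
  have h1 : ∫ y, (closedBall z (r / 2)).indicator (fun _ => r / 2) y ∂ν =
      r / 2 * ν.real (closedBall z (r / 2)) := by
    rw [integral_indicator_const _ isClosed_closedBall.measurableSet, smul_eq_mul, mul_comm]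
  rw [← h1]
  refine integral_mono ((integrable_const _).indicator isClosed_closedBall.measurableSet)
    (int ν r z) (fun y => ?_)
  show (closedBall z (r / 2)).indicator (fun _ => r / 2) y ≤ max 0 (r - dist z y)
  by_cases hy : y ∈ closedBall z (r / 2)
  · rw [Set.indicator_of_mem hy]
    have h2 : dist y z ≤ r / 2 := mem_closedBall.1 hy
    rw [dist_comm] at h2
    exact le_max_of_le_right (by linarith)
  · rw [Set.indicator_of_notMem hy]
    exact le_max_left _ _

theorem shift [Group N] [IsIsometricSMul N N] [MeasurableSpace N] [BorelSpace N]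
    (ν : Measure N) [ν.IsMulLeftInvariant] (r : ℝ) (z z' : N) : TV ν r z = TV ν r z' := by
  have hcm : Continuous (fun y : N => z' * z⁻¹ * y) := by
    have h := (isometry_smul N (z' * z⁻¹)).continuous
    exact h
  have hmap : Measure.map (fun y : N => z' * z⁻¹ * y) ν = ν := map_mul_left_eq_self ν (z' * z⁻¹)
  have h1 : TV ν r z' = ∫ y, tent r (dist z' (z' * z⁻¹ * y)) ∂ν := by
    have h2 := integral_map (μ := ν) hcm.measurable.aemeasurable
      (f := fun y : N => tent r (dist z' y)) (cont r z').aestronglyMeasurable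
    rw [hmap] at h2
    exact h2
  rw [h1]
  show ∫ y, tent r (dist z y) ∂ν = _
  congr 1
  funext y
  have h3 : dist z' (z' * z⁻¹ * y) = dist z y := by
    have h4 := dist_smul (z' * z⁻¹) z y
    rw [smul_eq_mul, smul_eq_mul, inv_mul_cancel_right] at h4
    exact h4
  rw [h3]

end Itv

theorem i_tv : S.tv := by
  intro N _ _ _ _ _ _ ν _ _ hν
  have hpos := hν.openPos
  obtain ⟨c, hc⟩ := hν
  have hd : ∀ (z : N) (r : ℝ), 0 < r →
      ν.real (closedBall z (2 * r)) ≤ c * ν.real (closedBall z r) := by
    intro z r hr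
    have h1 := ENNReal.toReal_mono
      (ENNReal.mul_ne_top ENNReal.coe_ne_top (measure_ne_top _ _)) (hc z z r hr)
    rw [ENNReal.toReal_mul, ENNReal.coe_toReal] at h1
    exact h1
  have hp : ∀ (r : ℝ) (z : N), 0 < r → 0 < TV ν r z := by
    intro r z hr
    refine lt_of_lt_of_le ?_ (Itv.lower ν r z)
    have h1 : 0 < ν (closedBall z (r / 2)) := measure_closedBall_pos ν z (by positivity)
    have h2 : 0 < ν.real (closedBall z (r / 2)) :=
      ENNReal.toReal_pos h1.ne' (measure_ne_top _ _)
    positivity
  refine ⟨2 * (c : ℝ) ^ 2 + 1, by positivity, fun r z z' => Itv.shift ν r z z', hp, ?_⟩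
  intro r z hr
  have h1 := hd z r hr
  have h2 := hd z (r / 2) (by positivity)
  rw [mul_div_cancel₀ r (two_ne_zero)] at h2
  have h3 := Itv.lower ν r z
  have h4 := hp r z hr
  have hc0 : (0 : ℝ) ≤ c := c.2
  calc r * ν.real (closedBall z (2 * r))
      ≤ r * (c * (c * ν.real (closedBall z (r / 2)))) :=
        mul_le_mul_of_nonneg_left (h1.trans (mul_le_mul_of_nonneg_left h2 hc0)) hr.le
    _ = 2 * (c : ℝ) ^ 2 * (r / 2 * ν.real (closedBall z (r / 2))) := by ring
    _ ≤ 2 * (c : ℝ) ^ 2 * TV ν r z := mul_le_mul_of_nonneg_left h3 (by positivity)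
    _ ≤ (2 * (c : ℝ) ^ 2 + 1) * TV ν r z := by nlinarith

end Pool.Agent.SKP.HA
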