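import Pool.Agent.Work.MP_adbfe6_an.HA.St

set_option autoImplicit false

open Filter Topology MeasureTheory Metric
open scoped ENNReal NNReal

namespace Pool.Agent.SKP.HA

namespace Iunim

theorem topGroup {N : Type} [Group N] [MetricSpace N] [IsIsometricSMul N N]
    [IsIsometricSMul Nᵐᵒᵖ N] : IsTopologicalGroup N where
  continuous_mul := by
    rw [Metric.continuous_iff]
    rintro ⟨a, b⟩ ε hε
    refine ⟨ε / 2, by positivity, ?_⟩
    rintro ⟨a', b'⟩ h
    rw [Prod.dist_eq, max_lt_iff] at h
    calc dist (a' * b') (a * b) ≤ dist (a' * b') (a * b') + dist (a * b') (a * b) :=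
          dist_triangle _ _ _
      _ = dist a' a + dist b' b := by rw [dist_mul_right, dist_mul_left]
      _ < ε := by linarith [h.1, h.2]
  continuous_inv := isometry_inv.continuous

theorem haar {N : Type} [Group N] [MetricSpace N] [IsIsometricSMul N N]
    [IsIsometricSMul Nᵐᵒᵖ N] [MeasurableSpace N] (ν : Measure N) [IsProbabilityMeasure ν]
    [ν.IsMulLeftInvariant] [ν.IsOpenPosMeasure] : ν.IsHaarMeasure where
  lt_top_of_isCompact := fun _ _ => measure_lt_top ν _

theorem right_inv {N : Type} [Group N] [MetricSpace N] [CompactSpace N] [IsIsometricSMul N N]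
    [IsIsometricSMul Nᵐᵒᵖ N] [MeasurableSpace N] [BorelSpace N] (ν : Measure N)
    [IsProbabilityMeasure ν] [ν.IsMulLeftInvariant] [ν.IsOpenPosMeasure] :
    ν.IsMulRightInvariant := by
  haveI : IsTopologicalGroup N := topGroup
  haveI : ν.IsHaarMeasure := haar ν
  refine ⟨fun g => ?_⟩
  have hc : Continuous (fun x : N => x * g) := continuous_mul_const g
  have hs : Function.Surjective (fun x : N => x * g) := fun x => ⟨x * g⁻¹, by simp⟩
  haveI : (Measure.map (fun x : N => x * g) ν).IsOpenPosMeasure := hc.isOpenPosMeasure_map hs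
  haveI : IsProbabilityMeasure (Measure.map (fun x : N => x * g) ν) :=
    Measure.isProbabilityMeasure_map hc.measurable.aemeasurable
  haveI : (Measure.map (fun x : N => x * g) ν).IsHaarMeasure := haar _
  exact Measure.isHaarMeasure_eq_of_isProbabilityMeasure _ _

theorem inv_inv' {N : Type} [Group N] [MetricSpace N] [CompactSpace N] [IsIsometricSMul N N]
    [IsIsometricSMul Nᵐᵒᵖ N] [MeasurableSpace N] [BorelSpace N] (ν : Measure N)
    [IsProbabilityMeasure ν] [ν.IsMulLeftInvariant] [ν.IsOpenPosMeasure] :
    ν.IsInvInvariant := by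
  haveI : IsTopologicalGroup N := topGroup
  haveI : ν.IsHaarMeasure := haar ν
  haveI : ν.IsMulRightInvariant := right_inv ν
  have hc : Continuous (Inv.inv : N → N) := continuous_inv
  have hs : Function.Surjective (Inv.inv : N → N) := inv_surjective
  haveI : ν.inv.IsOpenPosMeasure := hc.isOpenPosMeasure_map hs
  haveI : IsProbabilityMeasure ν.inv := Measure.isProbabilityMeasure_map hc.measurable.aemeasurable
  haveI : ν.inv.IsHaarMeasure := haar _
  exact ⟨Measure.isHaarMeasure_eq_of_isProbabilityMeasure _ _⟩

end Iunim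

open Iunim in
theorem i_unim : S.unim := by
  intro N _ _ _ _ _ _ _ ν _ _ _ z y
  haveI : IsTopologicalGroup N := topGroup
  haveI : ν.IsMulRightInvariant := right_inv ν
  haveI : ν.IsInvInvariant := inv_inv' ν
  have h1 : MeasurePreserving (Inv.inv : N → N) ν ν := Measure.measurePreserving_inv ν
  have h2 : MeasurePreserving (fun w : N => z * w) ν ν := measurePreserving_mul_left ν z
  have h3 : MeasurePreserving (fun w : N => w * y) ν ν := measurePreserving_mul_right ν y
  exact h3.comp (h2.comp h1)

end Pool.Agent.SKP.HA
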