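import Pool.Agent.Work.MP_adbfe6_an.HA.Final3
import Pool.Agent.Work.MP_adbfe6_an.HA.I_cmp
import Pool.Agent.Work.MP_adbfe6_an.HA.I_dens
import Pool.Agent.Work.MP_adbfe6_an.HA.I_distort
import Pool.Agent.Work.MP_adbfe6_an.HA.I_fib
import Pool.Agent.Work.MP_adbfe6_an.HA.I_isopath
import Pool.Agent.Work.MP_adbfe6_an.HA.I_iter
import Pool.Agent.Work.MP_adbfe6_an.HA.I_loc
import Pool.Agent.Work.MP_adbfe6_an.HA.I_opn
import Pool.Agent.Work.MP_adbfe6_an.HA.I_osce
import Pool.Agent.Work.MP_adbfe6_an.HA.I_path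
import Pool.Agent.Work.MP_adbfe6_an.HA.I_scale
import Pool.Agent.Work.MP_adbfe6_an.HA.I_sides
import Pool.Agent.Work.MP_adbfe6_an.HA.I_spath
import Pool.Agent.Work.MP_adbfe6_an.HA.I_tv
import Pool.Agent.Work.MP_adbfe6_an.HA.I_unim

/-!
# Hölder accessibility near one point: main theorem
-/

set_option autoImplicit false

open Filter Topology MeasureTheory Metric
open scoped ENNReal NNReal

namespace Pool.Agent.SKP

namespace HA

variable {d : ℕ} {N : Type} [Group N] [MetricSpace N] [CompactSpace N] [IsIsometricSMul N N]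
  [IsIsometricSMul Nᵐᵒᵖ N] [MeasurableSpace N] [BorelSpace N]

theorem main (ν : Measure N) [IsProbabilityMeasure ν] [ν.IsMulLeftInvariant]
    (hν : UnifDoubling ν) (A : HypAut d) (D : Fibres A N) (K : ℝ) (hK : SecondDiff D.g K)
    (θ η τ : ℝ) (hθ0 : 0 < θ) (hθ1 : θ ≤ 1) (hs : D.κs * D.κu ^ θ * A.a < 1)
    (hu : D.κu * D.κs ^ θ * A.b < 1) (p : Tor d × N) (hτ : τ = 0 ∨ LocFibre A D.g p.1 θ τ)
    (hη : 0 < η) (hητ : 1 < (1 + τ) * η + θ)
    (hg : ∀ x, MeasurePreserving (D.g x) ν ν) (hacc : EssAccessible A D.g (volume.prod ν))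
    (hp : ApproxHolderAccessibleAt A D.g p η) :
    Ergodic (skew A.M D.g) (volume.prod ν) ∧ Mix (skew A.M D.g) (volume.prod ν) :=
  main3_of i_tv i_unim (i_loc i_scale i_dens) (i_sides i_distort) i_path i_fib i_isopath
    (i_osce i_cmp) i_iter i_opn i_spath ν hν A D K hK θ η τ hθ0 hθ1 hs hu p hτ hη hητ hg hacc hp

end HA

end Pool.Agent.SKP
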