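import Pool.Agent.Work.MP_adbfe6_an.SK.Cor
import Pool.Agent.Work.MP_adbfe6_an.SK.Lvl
import Pool.Agent.Work.MP_adbfe6_an.HA.Defs

/-!
# Statements of the block HA (Hölder accessibility near one point)
-/

set_option autoImplicit false
set_option linter.unusedSectionVars false
set_option linter.unusedVariables false

open Filter Topology MeasureTheory Metric
open scoped ENNReal NNReal

namespace Pool.Agent.SKP

namespace HA

/-! ### Tent averages -/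

/-- the tent function of height `r` -/
noncomputable def tent (r t : ℝ) : ℝ := max 0 (r - t)

/-- integral of the tent around `z` over `X` -/
noncomputable def TI {N : Type} [MetricSpace N] [MeasurableSpace N] (ν : Measure N) (X : Set N)
    (r : ℝ) (z : N) : ℝ := ∫ y in X, tent r (dist z y) ∂ν

/-- mass of the tent around `z` -/
noncomputable def TV {N : Type} [MetricSpace N] [MeasurableSpace N] (ν : Measure N)
    (r : ℝ) (z : N) : ℝ := ∫ y, tent r (dist z y) ∂ν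

/-- tent average of `X` around `z` at the scale `r` -/
noncomputable def TM {N : Type} [MetricSpace N] [MeasurableSpace N] (ν : Measure N) (X : Set N)
    (r : ℝ) (z : N) : ℝ := TI ν X r z / TV ν r z

/-- tents have comparable masses -/
structure TOK {N : Type} [MetricSpace N] [MeasurableSpace N] (ν : Measure N) (C : ℝ) : Prop where
  C_pos : 0 < C
  eq : ∀ (r : ℝ) (z z' : N), TV ν r z = TV ν r z'
  pos : ∀ (r : ℝ) (z : N), 0 < r → 0 < TV ν r z
  le : ∀ (r : ℝ) (z : N), 0 < r → r * ν.real (closedBall z (2 * r)) ≤ C * TV ν r z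

/-- (tv) -/
def S.tv : Prop :=
  ∀ {N : Type} [Group N] [MetricSpace N] [CompactSpace N] [IsIsometricSMul N N]
    [MeasurableSpace N] [BorelSpace N] (ν : Measure N) [IsProbabilityMeasure ν]
    [ν.IsMulLeftInvariant], UnifDoubling ν → ∃ C : ℝ, TOK ν C

/-- (cmp) comparison of tent averages by a measure preserving almost isometry -/
def S.cmp : Prop :=
  ∀ {N : Type} [MetricSpace N] [CompactSpace N] [MeasurableSpace N] [BorelSpace N]
    (ν : Measure N) [IsProbabilityMeasure ν] (C : ℝ) (hC : TOK ν C) (X : Set N)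
    (hX : MeasurableSet X) (R : N → N) (hR : MeasurePreserving R ν ν) (hRX : R ⁻¹' X =ᵐ[ν] X)
    (z z' : N) (r ε : ℝ) (hr : 0 < r) (hε : 0 ≤ ε)
    (h1 : ∀ y, dist z y ≤ 2 * r → |dist z' (R y) - dist z y| ≤ ε * r)
    (h2 : ∀ y, 2 * r < dist z y → r ≤ dist z' (R y)),
    |TM ν X r z' - TM ν X r z| ≤ C * ε

/-- (unim) the Haar measure of a compact group with a bi-invariant metric is unimodular -/
def S.unim : Prop :=
  ∀ {N : Type} [Group N] [MetricSpace N] [CompactSpace N] [IsIsometricSMul N N]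
    [IsIsometricSMul Nᵐᵒᵖ N] [MeasurableSpace N] [BorelSpace N] (ν : Measure N)
    [IsProbabilityMeasure ν] [ν.IsMulLeftInvariant] [ν.IsOpenPosMeasure] (z y : N),
    MeasurePreserving (fun w : N => z * w⁻¹ * y) ν ν

/-- (scale) comparison of two scales -/
def S.scale : Prop :=
  ∀ {N : Type} [Group N] [MetricSpace N] [CompactSpace N] [IsIsometricSMul N N]
    [IsIsometricSMul Nᵐᵒᵖ N] [MeasurableSpace N] [BorelSpace N] (ν : Measure N)
    [IsProbabilityMeasure ν]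
    (hu : ∀ z y : N, MeasurePreserving (fun w : N => z * w⁻¹ * y) ν ν)
    (C : ℝ) (hC : TOK ν C) (X : Set N) (hX : MeasurableSet X) (z : N) (r s e₁ e₂ : ℝ)
    (hr : 0 < r) (hs : 0 < s)
    (h1 : ∀ w, dist z w ≤ r → |TM ν X s w - TM ν X s z| ≤ e₁)
    (h2 : ∀ w, dist z w ≤ s → |TM ν X r w - TM ν X r z| ≤ e₂),
    |TM ν X s z - TM ν X r z| ≤ e₁ + e₂

/-- (dens) Lebesgue density -/
def S.dens : Prop :=
  ∀ {N : Type} [MetricSpace N] [CompactSpace N] [MeasurableSpace N] [BorelSpace N]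
    (ν : Measure N) [IsProbabilityMeasure ν] (hν : UnifDoubling ν) (C : ℝ) (hC : TOK ν C)
    (X : Set N) (hX : MeasurableSet X) (r : ℝ) (hr : 0 < r),
    (∀ᵐ z ∂ν, z ∈ X → Tendsto (fun k : ℕ => TM ν X (r * (1 / 2) ^ k) z) atTop (𝓝 1)) ∧
    (∀ᵐ z ∂ν, z ∉ X → Tendsto (fun k : ℕ => TM ν X (r * (1 / 2) ^ k) z) atTop (𝓝 0))

/-- (loc) Hölder continuous tent averages: the set is trivial near `z₀`. The radius `ρ` does not
depend on the set. -/
def S.loc : Prop :=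
  ∀ {N : Type} [Group N] [MetricSpace N] [CompactSpace N] [IsIsometricSMul N N]
    [IsIsometricSMul Nᵐᵒᵖ N] [MeasurableSpace N] [BorelSpace N] (ν : Measure N)
    [IsProbabilityMeasure ν] (hν : UnifDoubling ν)
    (hu : ∀ z y : N, MeasurePreserving (fun w : N => z * w⁻¹ * y) ν ν)
    (C : ℝ) (hC : TOK ν C) (z₀ : N) (β C' s₁ : ℝ) (hβ : 0 < β) (hC' : 0 ≤ C') (hs₁ : 0 < s₁),
    ∃ ρ : ℝ, 0 < ρ ∧ ∀ X : Set N, MeasurableSet X →
      (∀ (s : ℝ) (z z' : N), 0 < s → s ≤ s₁ → dist z₀ z ≤ s₁ → dist z₀ z' ≤ s₁ →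
        dist z z' ≤ 2 * s → |TM ν X s z' - TM ν X s z| ≤ C' * s ^ β) →
      ν (ball z₀ ρ ∩ X) = 0 ∨ ν (ball z₀ ρ \ X) = 0

/-! ### Distortion of the holonomies -/

/-- `h` distorts the increments by at most `K dist^θ` -/
def Dist {N : Type} [Group N] [MetricSpace N] (h : N → N) (K θ : ℝ) : Prop :=
  ∀ z z' : N, dist ((h z)⁻¹ * h z') (z⁻¹ * z') ≤ K * dist z z' ^ θ

/-- hypotheses on one side -/
structure SideHyp {B W N : Type} [NormedAddCommGroup B] [CompactSpace B] [NormedAddCommGroup W]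
    [Group N] [MetricSpace N] [CompactSpace N] (D : Side B W N) (q β K θ : ℝ) : Prop where
  q_nonneg : 0 ≤ q
  β_nonneg : 0 ≤ β
  K_nonneg : 0 ≤ K
  θ_pos : 0 < θ
  θ_le : θ ≤ 1
  up : ∀ (n : ℕ) (x : B) (z z' : N), dist (D.G n x z) (D.G n x z') ≤ q * β ^ n * dist z z'
  sd : ∀ (x x' : B) (z z' w w' : N), w⁻¹ * w' = z⁻¹ * z' →
    dist ((D.g x z)⁻¹ * D.g x z') ((D.g x' w)⁻¹ * D.g x' w')
      ≤ K * (dist x x' + dist z w) * dist z z'
  dom : D.κ * β ^ θ * D.μ < 1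

/-- (distort) -/
def S.distort : Prop :=
  ∀ {B W N : Type} [NormedAddCommGroup B] [CompactSpace B] [NormedAddCommGroup W]
    [Group N] [MetricSpace N] [CompactSpace N] [IsIsometricSMul N N] [IsIsometricSMul Nᵐᵒᵖ N]
    (D : Side B W N) (q β K θ : ℝ) (H : SideHyp D q β K θ),
    ∃ C : ℝ, 0 ≤ C ∧ ∀ (v : W) (x : B), Dist (D.S v x) (C * ‖v‖) θ

/-- (sides) both sides of a skew product -/
def S.sides : Prop :=
  ∀ {d : ℕ} {N : Type} [Group N] [MetricSpace N] [CompactSpace N] [IsIsometricSMul N N]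
    [IsIsometricSMul Nᵐᵒᵖ N] (A : HypAut d) (D : Fibres A N) (K : ℝ) (hK : SecondDiff D.g K)
    (θ : ℝ) (h0 : 0 < θ) (h1 : θ ≤ 1) (hs : D.κs * D.κu ^ θ * A.a < 1)
    (hu : D.κu * D.κs ^ θ * A.b < 1),
    ∃ C : ℝ, 0 ≤ C ∧ (∀ (v : ↥A.Es) (x : Tor d), Dist (D.two.s.S v x) (C * ‖v‖) θ) ∧
      (∀ (w : ↥A.Eu) (x : Tor d), Dist (D.two.u.S w x) (C * ‖w‖) θ)

/-- length of a move -/
noncomputable def mlen {Ws Wu : Type} [NormedAddCommGroup Ws] [NormedAddCommGroup Wu] :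
    Mv Ws Wu → ℝ
  | Mv.s v => ‖v‖
  | Mv.u w => ‖w‖
  | Mv.f => 0

/-- length of a path -/
noncomputable def plen {Ws Wu : Type} [NormedAddCommGroup Ws] [NormedAddCommGroup Wu]
    (l : List (Mv Ws Wu)) : ℝ := (l.map mlen).sum

/-- (path) distortion along a path; the reversed path has the same length -/
def S.path : Prop :=
  ∀ {B Ws Wu N : Type} [NormedAddCommGroup B] [CompactSpace B] [NormedAddCommGroup Ws]
    [NormedAddCommGroup Wu] [Group N] [MetricSpace N] [CompactSpace N] [IsIsometricSMul N N]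
    [IsIsometricSMul Nᵐᵒᵖ N] (D : Two B Ws Wu N) (C θ : ℝ) (hC : 0 ≤ C) (hθ : 0 < θ)
    (hs : ∀ (v : Ws) (x : B), Dist (D.s.S v x) (C * ‖v‖) θ)
    (hu : ∀ (w : Wu) (x : B), Dist (D.u.S w x) (C * ‖w‖) θ)
    (l : List (Mv Ws Wu)) (hl : ∀ a ∈ l, a.leaf) (x : B),
    plen (Two.rev l) = plen l ∧
    ∀ (r : ℝ) (z y : N), 0 ≤ r → dist z y ≤ r → C * plen l * (2 * r) ^ θ ≤ r →
      |dist (D.hol l x z) (D.hol l x y) - dist z y| ≤ C * plen l * (2 * r) ^ θ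

/-- (osc) oscillation of the tent averages of loop invariant sets -/
def S.osc : Prop :=
  ∀ {B Ws Wu N : Type} [NormedAddCommGroup B] [CompactSpace B] [NormedAddCommGroup Ws]
    [NormedAddCommGroup Wu] [Group N] [MetricSpace N] [CompactSpace N] [IsIsometricSMul N N]
    [IsIsometricSMul Nᵐᵒᵖ N] [MeasurableSpace B] [BorelSpace B] [MeasurableSpace N] [BorelSpace N]
    [NormedSpace ℝ Ws] [NormedSpace ℝ Wu] [FiniteDimensional ℝ Ws] [FiniteDimensional ℝ Wu]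
    (ν : Measure N) [IsProbabilityMeasure ν] (D : Two B Ws Wu N)
    (hg : ∀ x, MeasurePreserving (D.s.g x) ν ν) (C₁ : ℝ) (hT : TOK ν C₁)
    (C θ η : ℝ) (hC : 0 ≤ C) (hθ : 0 < θ) (hη : 0 < η) (hηθ : 1 < η + θ)
    (hs : ∀ (v : Ws) (x : B), Dist (D.s.S v x) (C * ‖v‖) θ)
    (hu : ∀ (w : Wu) (x : B), Dist (D.u.S w x) (C * ‖w‖) θ)
    (x₀ : B) (z₀ : N) (r₀ C₀ : ℝ) (hr₀ : 0 < r₀)
    (hloc : ∀ z z' : N, dist z₀ z ≤ r₀ → dist z₀ z' ≤ r₀ → ∃ l : List (Mv Ws Wu),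
      (∀ a ∈ l, a.leaf) ∧ D.brun l x₀ = x₀ ∧ D.hol l x₀ z = z' ∧ plen l ≤ C₀ * dist z z' ^ η),
    ∃ s₁ C' : ℝ, 0 < s₁ ∧ 0 ≤ C' ∧ ∀ X : Set N, MeasurableSet X →
      (∀ l : List (Mv Ws Wu), (∀ a ∈ l, a.leaf) → D.brun l x₀ = x₀ →
        (D.hol l x₀) ⁻¹' X =ᵐ[ν] X) →
      ∀ (s : ℝ) (z z' : N), 0 < s → s ≤ s₁ → dist z₀ z ≤ s₁ → dist z₀ z' ≤ s₁ →
        dist z z' ≤ 2 * s → |TM ν X s z' - TM ν X s z| ≤ C' * s ^ (η + θ - 1)

/-- (opn) essential accessibility: triviality in one open set is enough (leaf version of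
`Two.ergodic_of_open`) -/
def S.opn : Prop :=
  ∀ {B Ws Wu N : Type} [NormedAddCommGroup B] [CompactSpace B] [NormedAddCommGroup Ws]
    [NormedAddCommGroup Wu] [MetricSpace N] [CompactSpace N]
    [MeasurableSpace B] [BorelSpace B] [MeasurableSpace N] [BorelSpace N]
    [NormedSpace ℝ Ws] [NormedSpace ℝ Wu] [FiniteDimensional ℝ Ws] [FiniteDimensional ℝ Wu]
    [MeasurableSpace Ws] [BorelSpace Ws] [MeasurableSpace Wu] [BorelSpace Wu]
    (ν : Measure N) [IsProbabilityMeasure ν] (lam : Measure B) [IsProbabilityMeasure lam]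
    [lam.IsAddLeftInvariant] (D : Two B Ws Wu N)
    (hg : ∀ x, MeasurePreserving (D.s.g x) ν ν) (hacc : D.EssAcc lam ν) (x₀ : B) (U : Set N)
    (hU : IsOpen U) (hU0 : ν U ≠ 0)
    (H : ∀ X : Set N, MeasurableSet X →
      (∀ l : List (Mv Ws Wu), (∀ a ∈ l, a.leaf) → D.brun l x₀ = x₀ →
        (D.hol l x₀) ⁻¹' X =ᵐ[ν] X) → ν (U ∩ X) = 0 ∨ ν (U \ X) = 0)
    (X : Set N) (hX : MeasurableSet X)
    (h : ∀ l : List (Mv Ws Wu), (∀ a ∈ l, a.leaf) → D.brun l x₀ = x₀ →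
        (D.hol l x₀) ⁻¹' X =ᵐ[ν] X), ν X = 0 ∨ ν Xᶜ = 0

/-- (spath) `su`-paths as lists of moves -/
def S.spath : Prop :=
  ∀ {d : ℕ} {N : Type} [MetricSpace N] [CompactSpace N] (A : HypAut d) (D : Fibres A N)
    (p q : Tor d × N) (L : ℝ) (h : SuPath A D.g p L q),
    ∃ l : List (Mv ↥A.Es ↥A.Eu), (∀ a ∈ l, a.leaf) ∧ D.two.run l p = q ∧ plen l = L

end HA

end Pool.Agent.SKP
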