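import Pool.Agent.Work.MP_adbfe6_an.HA.St

/-!
# Statements of the block HA, second part: isometric fixed fibres
-/

set_option autoImplicit false
set_option linter.unusedSectionVars false
set_option linter.unusedVariables false

open Filter Topology MeasureTheory Metric
open scoped ENNReal NNReal

namespace Pool.Agent.SKP

namespace HA

/-- (iso) distortion of short holonomies near a fixed isometric fibre: the fibre over `x₀` is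
mapped to itself isometrically, and the legs start at `x₀ + y`, where `y` grows at most like
`Λ^n L`. -/
def S.iso : Prop :=
  ∀ {B W N : Type} [NormedAddCommGroup B] [CompactSpace B] [NormedAddCommGroup W]
    [Group N] [MetricSpace N] [CompactSpace N] [IsIsometricSMul N N] [IsIsometricSMul Nᵐᵒᵖ N]
    (D : Side B W N) (q β K θ : ℝ) (H : SideHyp D q β K θ) (x₀ : B) (hx₀ : D.A x₀ = x₀)
    (hiso : ∀ z z' : N, dist (D.g x₀ z) (D.g x₀ z') = dist z z')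
    (Λ τ : ℝ) (hΛ : 1 < Λ) (hτ : 0 ≤ τ) (hμ : D.μ * Λ ^ τ ≤ 1),
    ∃ C : ℝ, 0 ≤ C ∧ ∀ (v : W) (y : B) (L : ℝ), 0 < L → ‖v‖ ≤ L →
      (∀ n : ℕ, ‖D.A^[n] y‖ ≤ Λ ^ n * L) →
      ∀ z z' : N, dist ((D.S v (x₀ + y) z)⁻¹ * D.S v (x₀ + y) z') (z⁻¹ * z') ≤
        C * ‖v‖ * (dist z z' + L ^ τ * dist z z' ^ θ)

/-- (isopath) the same along a path starting at `x₀` -/
def S.isopath : Prop :=
  ∀ {B Ws Wu N : Type} [NormedAddCommGroup B] [CompactSpace B] [NormedAddCommGroup Ws]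
    [NormedAddCommGroup Wu] [Group N] [MetricSpace N] [CompactSpace N] [IsIsometricSMul N N]
    [IsIsometricSMul Nᵐᵒᵖ N] (D : Two B Ws Wu N) (x₀ : B) (C θ τ c Λ Λ' : ℝ) (hC : 0 ≤ C)
    (hθ : 0 < θ) (hτ : 0 ≤ τ) (hc : 0 < c) (hΛ : 0 ≤ Λ) (hΛ' : 0 ≤ Λ')
    (hgs : ∀ (n : ℕ) (v : Ws) (w : Wu), ‖D.s.A^[n] (D.s.j v + D.u.j w)‖ ≤ Λ ^ n * (c * (‖v‖ + ‖w‖)))
    (hgu : ∀ (n : ℕ) (v : Ws) (w : Wu), ‖D.u.A^[n] (D.s.j v + D.u.j w)‖ ≤ Λ' ^ n * (c * (‖v‖ + ‖w‖)))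
    (hs : ∀ (v : Ws) (y : B) (L : ℝ), 0 < L → ‖v‖ ≤ L → (∀ n : ℕ, ‖D.s.A^[n] y‖ ≤ Λ ^ n * L) →
      ∀ z z' : N, dist ((D.s.S v (x₀ + y) z)⁻¹ * D.s.S v (x₀ + y) z') (z⁻¹ * z') ≤
        C * ‖v‖ * (dist z z' + L ^ τ * dist z z' ^ θ))
    (hu : ∀ (w : Wu) (y : B) (L : ℝ), 0 < L → ‖w‖ ≤ L → (∀ n : ℕ, ‖D.u.A^[n] y‖ ≤ Λ' ^ n * L) →
      ∀ z z' : N, dist ((D.u.S w (x₀ + y) z)⁻¹ * D.u.S w (x₀ + y) z') (z⁻¹ * z') ≤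
        C * ‖w‖ * (dist z z' + L ^ τ * dist z z' ^ θ)),
    ∃ C' : ℝ, 0 ≤ C' ∧ ∀ (l : List (Mv Ws Wu)) (hl : ∀ a ∈ l, a.leaf) (L r : ℝ) (z y : N),
      plen l ≤ L → 0 < L → 0 ≤ r → dist z y ≤ r → C' * L * (2 * r + L ^ τ * (2 * r) ^ θ) ≤ r →
      |dist (D.hol l x₀ z) (D.hol l x₀ y) - dist z y| ≤ C' * L * (2 * r + L ^ τ * (2 * r) ^ θ)

/-- (oscb) oscillation of the tent averages of loop invariant sets, general form -/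
def S.oscb : Prop :=
  ∀ {B Ws Wu N : Type} [NormedAddCommGroup B] [CompactSpace B] [NormedAddCommGroup Ws]
    [NormedAddCommGroup Wu] [Group N] [MetricSpace N] [CompactSpace N] [IsIsometricSMul N N]
    [IsIsometricSMul Nᵐᵒᵖ N] [MeasurableSpace B] [BorelSpace B] [MeasurableSpace N] [BorelSpace N]
    [NormedSpace ℝ Ws] [NormedSpace ℝ Wu] [FiniteDimensional ℝ Ws] [FiniteDimensional ℝ Wu]
    (ν : Measure N) [IsProbabilityMeasure ν] (D : Two B Ws Wu N)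
    (hg : ∀ x, MeasurePreserving (D.s.g x) ν ν) (C₁ : ℝ) (hT : TOK ν C₁)
    (x₀ : B) (z₀ : N) (C θ η τ r₀ C₀ : ℝ) (hC : 0 ≤ C) (hθ : 0 < θ) (hη : 0 < η) (hτ : 0 ≤ τ)
    (hητ : 1 < (1 + τ) * η + θ) (hr₀ : 0 < r₀)
    (hrev : ∀ l : List (Mv Ws Wu), (∀ a ∈ l, a.leaf) → plen (Two.rev l) = plen l)
    (hd : ∀ (l : List (Mv Ws Wu)) (hl : ∀ a ∈ l, a.leaf) (L r : ℝ) (z y : N),
      plen l ≤ L → 0 < L → 0 ≤ r → dist z y ≤ r → C * L * (2 * r + L ^ τ * (2 * r) ^ θ) ≤ r →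
      |dist (D.hol l x₀ z) (D.hol l x₀ y) - dist z y| ≤ C * L * (2 * r + L ^ τ * (2 * r) ^ θ))
    (hloc : ∀ z z' : N, dist z₀ z ≤ r₀ → dist z₀ z' ≤ r₀ → ∃ l : List (Mv Ws Wu),
      (∀ a ∈ l, a.leaf) ∧ D.brun l x₀ = x₀ ∧ D.hol l x₀ z = z' ∧ plen l ≤ C₀ * dist z z' ^ η),
    ∃ s₁ C' β : ℝ, 0 < s₁ ∧ 0 ≤ C' ∧ 0 < β ∧ ∀ X : Set N, MeasurableSet X →
      (∀ l : List (Mv Ws Wu), (∀ a ∈ l, a.leaf) → D.brun l x₀ = x₀ →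
        (D.hol l x₀) ⁻¹' X =ᵐ[ν] X) →
      ∀ (s : ℝ) (z z' : N), 0 < s → s ≤ s₁ → dist z₀ z ≤ s₁ → dist z₀ z' ≤ s₁ →
        dist z z' ≤ 2 * s → |TM ν X s z' - TM ν X s z| ≤ C' * s ^ β

end HA

end Pool.Agent.SKP
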